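import Mathlib
import Pool.Agent.Lib.BorsukUlam.Basic

/-!
The Poincare-Miranda theorem for arbitrary index sets.
-/

set_option autoImplicit false

open Set Filter Topology

namespace Pool.Agent.Work.MP_a6a438_an

/-- The closed interval from minus one to one. -/
abbrev Iv : Type := Icc (-1 : ℝ) 1

lemma neg_one_le_one' : (-1 : ℝ) ≤ 1 := by norm_num

theorem miranda_fin {n : ℕ} (F : Fin n → (Fin n → Iv) → ℝ) (hc : ∀ i, Continuous (F i))
    (hpos : ∀ i x, (x i : ℝ) = 1 → 0 ≤ F i x) (hneg : ∀ i x, (x i : ℝ) = -1 → F i x ≤ 0) :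
    ∃ x, ∀ i, F i x = 0 := by
  set cl : (Fin n → ℝ) → (Fin n → Iv) := fun y i => projIcc (-1) 1 neg_one_le_one' (y i) with hcl
  have hclc : Continuous cl := continuous_pi fun i => continuous_projIcc.comp (continuous_apply i)
  set h : (Fin n → ℝ) → Fin n → ℝ := fun y i => F i (cl y) - cl y i with hh
  have hhc : Continuous h := continuous_pi fun i =>
    ((hc i).comp hclc).sub (continuous_subtype_val.comp ((continuous_apply i).comp hclc))
  obtain ⟨C, hC⟩ : ∃ C, ∀ y, ‖h y‖ ≤ C := by
    have h1 : Continuous fun x : Fin n → Iv => fun i => F i x - x i := continuous_pi fun i =>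
      (hc i).sub (continuous_subtype_val.comp (continuous_apply i))
    obtain ⟨C, hC⟩ := isCompact_univ.exists_bound_of_continuousOn h1.continuousOn
    exact ⟨C, fun y => hC (cl y) (mem_univ _)⟩
  set G : (Fin (n + 1) → ℝ) → Fin n → ℝ := fun x =>
    (fun i => x i.succ) + x 0 • h ((x 0)⁻¹ • fun i => x i.succ) with hG
  have hGc : Continuous G := by
    refine Continuous.add (by fun_prop) ?_
    rw [continuous_iff_continuousAt]
    intro x
    by_cases hx : x 0 = 0
    · rw [ContinuousAt, hx, zero_smul]
      refine squeeze_zero_norm (a := fun y : Fin (n + 1) → ℝ => ‖y 0‖ * C) (fun y => ?_) ?_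
      · rw [norm_smul]
        gcongr
        exact hC _
      · have : Continuous fun y : Fin (n + 1) → ℝ => ‖y 0‖ * C := by fun_prop
        simpa [hx] using this.tendsto x
    · have h1 : ContinuousAt (fun x : Fin (n + 1) → ℝ => (x 0)⁻¹ • fun i : Fin n => x i.succ) x :=
        ContinuousAt.smul ((continuous_apply 0).continuousAt.inv₀ hx)
          (continuous_pi fun i => continuous_apply _).continuousAt
      exact ContinuousAt.smul (continuous_apply 0).continuousAt (hhc.continuousAt.comp h1)
  obtain ⟨x, hx1, hx⟩ := Pool.Agent.Lib.BorsukUlam.borsuk_ulam_l1 n G hGc.continuousOn (by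
    intro x _
    have e : ((-x) 0)⁻¹ • (fun i : Fin n => (-x) i.succ) = (x 0)⁻¹ • fun i : Fin n => x i.succ := by
      ext i; simp
    simp only [hG, e]
    ext i
    simp
    ring)
  have hx0 : x 0 ≠ 0 := by
    intro h0
    have h1 : ∀ i : Fin n, x i.succ = 0 := fun i => by simpa [hG, h0] using congrFun hx i
    simp [Fin.sum_univ_succ, h0, h1] at hx1
  set y : Fin n → ℝ := (x 0)⁻¹ • fun i => x i.succ with hy
  have hy0 : ∀ i, y i + h y i = 0 := by
    intro i
    have h1 : x i.succ + x 0 * h y i = 0 := congrFun hx i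
    have h2 : y i = (x 0)⁻¹ * x i.succ := rfl
    rw [h2]
    field_simp
    linarith
  refine ⟨cl y, fun i => ?_⟩
  have h1 := hy0 i
  simp only [hh] at h1
  rcases le_total (y i) (-1) with h2 | h2
  · have h3 : (cl y i : ℝ) = -1 := by simp only [hcl]; rw [projIcc_of_le_left _ h2]
    have := hneg i _ h3
    linarith
  rcases le_total 1 (y i) with h3 | h3
  · have h4 : (cl y i : ℝ) = 1 := by simp only [hcl]; rw [projIcc_of_right_le _ h3]
    have := hpos i _ h4
    linarith
  · have h4 : (cl y i : ℝ) = y i := by simp only [hcl]; rw [projIcc_of_mem _ ⟨h2, h3⟩]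
    linarith

theorem miranda {ι : Type} (F : ι → (ι → Iv) → ℝ) (hc : ∀ i, Continuous (F i))
    (hpos : ∀ i x, (x i : ℝ) = 1 → 0 ≤ F i x) (hneg : ∀ i x, (x i : ℝ) = -1 → F i x ≤ 0) :
    ∃ x, ∀ i, F i x = 0 := by
  classical
  have key := isCompact_univ.inter_iInter_nonempty (fun i => {x : ι → Iv | F i x = 0})
    (fun i => isClosed_eq (hc i) continuous_const) (fun s => ?_)
  · obtain ⟨x, -, hx⟩ := key
    exact ⟨x, fun i => mem_iInter.1 hx i⟩
  · set e := s.equivFin with he
    set ext : (Fin s.card → Iv) → ι → Iv := fun x i =>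
      if h : i ∈ s then x (e ⟨i, h⟩) else ⟨0, by norm_num⟩ with hext
    have hextc : Continuous ext := continuous_pi fun i => by
      by_cases h : i ∈ s
      · simp only [hext, h, dif_pos]; fun_prop
      · simp only [hext, h, dif_neg, not_false_eq_true]; fun_prop
    have hval : ∀ x j, ext x (e.symm j) = x j := fun x j => by
      simp [hext]
    obtain ⟨x, hx⟩ := miranda_fin (fun j x => F (e.symm j) (ext x))
      (fun j => (hc _).comp hextc) (fun j x h => hpos _ _ (by rw [hval]; exact h))
      (fun j x h => hneg _ _ (by rw [hval]; exact h))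
    refine ⟨ext x, mem_univ _, mem_iInter₂.2 fun i hi => ?_⟩
    simpa using hx (e ⟨i, hi⟩)

end Pool.Agent.Work.MP_a6a438_an
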