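import Mathlib

/-!
Riemannian surfaces of genus `n` with one boundary circle, presented as a closed Jordan domain of
the plane with `n` handles attached, and their Steklov eigenspaces.
-/

set_option autoImplicit false

open Metric Set Filter Topology
open scoped ContDiff

namespace Pool.Agent.Work.MP_a6a438_an

/-- The gluing map `w ↦ c' + ε ^ 2 / (w - c)`. It maps the circle of radius `ε` about `c` onto the
circle of radius `ε` about `c'`, and the outside of the first circle onto the inside of the
second one. -/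
noncomputable def glue (c c' : ℂ) (ε : ℝ) (w : ℂ) : ℂ := c' + (ε : ℂ) ^ 2 / (w - c)

/-- The plane region: the complement of the image of `1 < ‖z‖` under `G`, with the open discs of
radius `ε i` about the centres `c (i, false)`, `c (i, true)` removed. -/
def region {n : ℕ} (G : ℂ → ℂ) (c : Fin n × Bool → ℂ) (ε : Fin n → ℝ) : Set ℂ :=
  (G '' {z | 1 < ‖z‖})ᶜ \ ⋃ p, ball (c p) (ε p.1)

/-- A compact orientable Riemannian surface with one boundary circle and `n` handles.
`G` is conformal and injective on `r < ‖z‖` (with `r < 1`) and fixes infinity, so the complement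
`K` of the image of `1 < ‖z‖` is a closed Jordan domain with analytic boundary `G (S¹)`.
From the interior of `K` we remove `2 n` discs with disjoint closures and glue the `i`-th pair of
circles by `glue`. The metric is `lam ^ 2 |dw| ^ 2`; it is smooth and positive on the region and
invariant under the gluing maps near the glued circles. -/
structure HandleSurface (n : ℕ) where
  G : ℂ → ℂ
  r : ℝ
  r_pos : 0 < r
  r_lt_one : r < 1
  holo : DifferentiableOn ℂ G {z | r < ‖z‖}
  inj : InjOn G {z | r < ‖z‖}
  infty : Tendsto G (Bornology.cobounded ℂ) (Bornology.cobounded ℂ)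
  c : Fin n × Bool → ℂ
  ε : Fin n → ℝ
  ε_pos : ∀ i, 0 < ε i
  discs_disjoint : ∀ p q, p ≠ q → Disjoint (closedBall (c p) (ε p.1)) (closedBall (c q) (ε q.1))
  discs_inside : ∀ p, Disjoint (closedBall (c p) (ε p.1)) (G '' {z | 1 ≤ ‖z‖})
  lam : ℂ → ℝ
  lam_smooth : ∀ w ∈ region G c ε, ContDiffAt ℝ ∞ lam w
  lam_pos : ∀ w ∈ region G c ε, 0 < lam w
  lam_glue : ∀ p : Fin n × Bool, ∀ w ∈ sphere (c p) (ε p.1), ∀ᶠ w' in 𝓝 w,
    lam (glue (c p) (c (p.1, !p.2)) (ε p.1) w') *
      ‖deriv (glue (c p) (c (p.1, !p.2)) (ε p.1)) w'‖ = lam w'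

namespace HandleSurface

variable {n : ℕ} (M : HandleSurface n)

/-- `u` is a smooth function on the glued surface: it is smooth at every point of the region and
invariant under the gluing maps near the glued circles. -/
def IsSmoothFun (u : ℂ → ℝ) : Prop :=
  (∀ w ∈ region M.G M.c M.ε, ContDiffAt ℝ ∞ u w) ∧
  ∀ p : Fin n × Bool, ∀ w ∈ sphere (M.c p) (M.ε p.1), ∀ᶠ w' in 𝓝 w,
    u (glue (M.c p) (M.c (p.1, !p.2)) (M.ε p.1) w') = u w'

/-- The Laplace-Beltrami operator of the metric `lam ^ 2 |dw| ^ 2`. -/
noncomputable def laplaceBeltrami (u : ℂ → ℝ) (w : ℂ) : ℝ :=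
  (M.lam w ^ 2)⁻¹ * Laplacian.laplacian u w

/-- The outward normal at the boundary point `G z`, `‖z‖ = 1`, of unit length for the metric. -/
noncomputable def normal (z : ℂ) : ℂ :=
  (M.lam (M.G z) * ‖z * deriv M.G z‖)⁻¹ • (z * deriv M.G z)

/-- `u` solves the Steklov problem with parameter `σ`. -/
def IsSteklov (σ : ℝ) (u : ℂ → ℝ) : Prop :=
  M.IsSmoothFun u ∧
  (∀ w ∈ region M.G M.c M.ε \ M.G '' sphere 0 1, M.laplaceBeltrami u w = 0) ∧
  ∀ z ∈ sphere (0 : ℂ) 1, fderiv ℝ u (M.G z) (M.normal z) = σ * u (M.G z)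

/-- The multiplicity of `σ` in the Steklov spectrum: the dimension of the space of functions on the
surface that solve the Steklov problem with parameter `σ`. -/
noncomputable def multiplicity (σ : ℝ) : Cardinal :=
  Module.rank ℝ (Submodule.span ℝ
    {v : region M.G M.c M.ε → ℝ | ∃ u : ℂ → ℝ, M.IsSteklov σ u ∧ ∀ w, v w = u w})

end HandleSurface

end Pool.Agent.Work.MP_a6a438_an
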