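import Mathlib
import Pool.Agent.Work.MP_a6a438_an.Defs
import Pool.Agent.Work.MP_a6a438_an.Miranda

-- merged part: Pool.Agent.Work.MP_a6a438_an.Kernel
section
-- merged part: Pool.Agent.Work.MP_a6a438_an.Weighted
section
/-!
Weighted coefficient bounds for power series in one and two variables, Grunsky coefficients and
Faber polynomials.
-/

set_option autoImplicit false

open Finset PowerSeries

namespace Pool.Agent.Work.MP_a6a438_an

/-- The polynomial weight. -/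
noncomputable def vv (n : ℕ) : ℝ := 1 / ((n : ℝ) + 1) ^ 4

lemma vv_pos (n : ℕ) : 0 < vv n := by unfold vv; positivity

lemma vv_zero : vv 0 = 1 := by simp [vv]

lemma vv_anti {m n : ℕ} (h : m ≤ n) : vv n ≤ vv m := by
  unfold vv
  have : (m : ℝ) ≤ n := by exact_mod_cast h
  gcongr

lemma vv_le_one (n : ℕ) : vv n ≤ 1 := vv_zero ▸ vv_anti (Nat.zero_le n)

lemma vv_le_mul {m n : ℕ} {c : ℝ} (h : (n : ℝ) + 1 ≤ c * (m + 1)) :
    vv m ≤ c ^ 4 * vv n := by
  unfold vv
  rw [mul_one_div, div_le_div_iff₀ (by positivity) (by positivity), one_mul, ← mul_pow]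
  gcongr

lemma vv_mul_le (a b : ℕ) : vv a * vv b ≤ 16 * vv (a + b) * (vv a + vv b) := by
  have ha := vv_pos a
  have hb := vv_pos b
  have hab := vv_pos (a + b)
  rcases le_total a b with h | h
  · have h1 : (a : ℝ) ≤ b := by exact_mod_cast h
    have h2 := vv_le_mul (m := b) (n := a + b) (c := 2) (by push_cast; linarith only [h1])
    linarith only [h2, ha, hab, hb, mul_le_mul_of_nonneg_left h2 ha.le, mul_pos hab hb]
  · have h1 : (b : ℝ) ≤ a := by exact_mod_cast h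
    have h2 := vv_le_mul (m := a) (n := a + b) (c := 2) (by push_cast; linarith only [h1])
    linarith only [h2, hb, hab, ha, mul_le_mul_of_nonneg_left h2 hb.le, mul_pos hab ha]

lemma sum_inv_sq (n : ℕ) : ∑ i ∈ range n, 1 / ((i : ℝ) + 1) ^ 2 ≤ 2 := by
  have : ∀ n : ℕ, ∑ i ∈ range n, 1 / ((i : ℝ) + 1) ^ 2 ≤ 2 - 2 / (2 * (n : ℝ) + 1) := by
    intro n
    induction n with
    | zero => simp
    | succ n ih =>
      rw [sum_range_succ]
      have h0 : (0 : ℝ) ≤ n := Nat.cast_nonneg n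
      have h1 : 1 / ((n : ℝ) + 1) ^ 2 ≤ 2 / (2 * n + 1) - 2 / (2 * (n + 1 : ℕ) + 1) := by
        push_cast
        rw [div_sub_div _ _ (by positivity) (by positivity), div_le_div_iff₀ (by positivity)
          (by positivity)]
        linarith only []
      linarith only [ih, h1]
  have h2 : (0 : ℝ) ≤ 2 / (2 * n + 1) := by positivity
  linarith only [h2, this, this n]

lemma sum_fst (n : ℕ) : ∑ p ∈ antidiagonal n, 1 / ((p.1 : ℝ) + 1) ^ 2 ≤ 2 := by
  rw [Nat.sum_antidiagonal_eq_sum_range_succ_mk]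
  exact sum_inv_sq _

lemma sum_snd (n : ℕ) : ∑ p ∈ antidiagonal n, 1 / ((p.2 : ℝ) + 1) ^ 2 ≤ 2 := by
  rw [← Nat.sum_antidiagonal_swap]
  exact sum_fst n

lemma vv_add_le (i j : ℕ) : vv (i + j) ≤ 1 / ((i : ℝ) + 1) ^ 2 * (1 / ((j : ℝ) + 1) ^ 2) := by
  have hi : (0 : ℝ) ≤ i := Nat.cast_nonneg i
  have hj : (0 : ℝ) ≤ j := Nat.cast_nonneg j
  unfold vv
  rw [one_div_mul_one_div, ← mul_pow, show (4 : ℕ) = 2 * 2 from rfl, pow_mul]
  push_cast
  gcongr
  linarith only [hi, hj, mul_nonneg hi hj, mul_nonneg_of_nonpos_of_nonpos (Mathlib.Tactic.Linarith.sub_nonpos_of_le (Mathlib.Tactic.Linarith.natCast_nonneg ℝ i)) (Mathlib.Tactic.Linarith.sub_nonpos_of_le (Mathlib.Tactic.Linarith.natCast_nonneg ℝ i)), mul_nonneg_of_nonpos_of_nonpos (Mathlib.Tactic.Linarith.sub_nonpos_of_le (Mathlib.Tactic.Linarith.natCast_nonneg ℝ j)) (Mathlib.Tactic.Linarith.sub_nonpos_of_le (Mathlib.Tactic.Linarith.natCast_nonneg ℝ j))]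

lemma conv_two (i j : ℕ) : ∑ q ∈ antidiagonal j, ∑ p ∈ antidiagonal i,
    vv (p.1 + q.1) * vv (p.2 + q.2) ≤ 128 * vv (i + j) := by
  have h0 := vv_pos (i + j)
  calc _ ≤ ∑ q ∈ antidiagonal j, ∑ p ∈ antidiagonal i, 16 * vv (i + j) *
        (1 / ((p.1 : ℝ) + 1) ^ 2 * (1 / ((q.1 : ℝ) + 1) ^ 2) +
          1 / ((p.2 : ℝ) + 1) ^ 2 * (1 / ((q.2 : ℝ) + 1) ^ 2)) := by
        refine sum_le_sum fun q hq => sum_le_sum fun p hp => (vv_mul_le _ _).trans ?_
        rw [HasAntidiagonal.mem_antidiagonal] at hp hq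
        rw [show p.1 + q.1 + (p.2 + q.2) = i + j by omega]
        gcongr <;> exact vv_add_le _ _
    _ = 16 * vv (i + j) * ((∑ p ∈ antidiagonal i, 1 / ((p.1 : ℝ) + 1) ^ 2) *
          (∑ q ∈ antidiagonal j, 1 / ((q.1 : ℝ) + 1) ^ 2) +
        (∑ p ∈ antidiagonal i, 1 / ((p.2 : ℝ) + 1) ^ 2) *
          (∑ q ∈ antidiagonal j, 1 / ((q.2 : ℝ) + 1) ^ 2)) := by
        simp only [← mul_sum, sum_add_distrib, ← sum_mul]
    _ ≤ 16 * vv (i + j) * (2 * 2 + 2 * 2) := by
        gcongr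
        exacts [sum_fst i, sum_fst j, sum_snd i, sum_snd j]
    _ = _ := by ring

lemma conv_one (n : ℕ) : ∑ p ∈ antidiagonal n, vv p.1 * vv p.2 ≤ 128 * vv n := by
  simpa using conv_two n 0

section one

variable {R : ℝ} (hR : 0 ≤ R)
include hR

lemma coeff_mul_le {f g : ℂ⟦X⟧} {a b : ℝ} (ha : 0 ≤ a) (hb : 0 ≤ b) {n : ℕ}
    (hf : ∀ m ≤ n, ‖coeff m f‖ ≤ a * R ^ m * vv m)
    (hg : ∀ p ∈ antidiagonal n, coeff p.1 f = 0 ∨ ‖coeff p.2 g‖ ≤ b * R ^ p.2 * vv p.2) :
    ‖coeff n (f * g)‖ ≤ 128 * a * b * R ^ n * vv n := by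
  rw [coeff_mul]
  calc _ ≤ ∑ p ∈ antidiagonal n, a * b * R ^ n * (vv p.1 * vv p.2) := by
        refine (norm_sum_le _ _).trans (sum_le_sum fun p hp => ?_)
        have h1 := vv_pos p.1
        have h2 := vv_pos p.2
        rcases hg p hp with h | h
        · rw [h, zero_mul, norm_zero]; positivity
        · rw [HasAntidiagonal.mem_antidiagonal] at hp
          rw [norm_mul, ← hp, pow_add]
          calc _ ≤ a * R ^ p.1 * vv p.1 * (b * R ^ p.2 * vv p.2) := by
                gcongr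
                exact hf _ (by omega)
            _ = _ := by ring
    _ ≤ a * b * R ^ n * (128 * vv n) := by
        rw [← mul_sum]
        gcongr
        exact conv_one n
    _ = _ := by ring

end one

/-- The coefficients of a series in two variables. -/
noncomputable def c2 (F : ℂ⟦X⟧⟦X⟧) (i j : ℕ) : ℂ := coeff i (coeff j F)

lemma c2_mul (F G : ℂ⟦X⟧⟦X⟧) (i j : ℕ) : c2 (F * G) i j =
    ∑ q ∈ antidiagonal j, ∑ p ∈ antidiagonal i, c2 F p.1 q.1 * c2 G p.2 q.2 := by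
  simp only [c2, coeff_mul, map_sum]

lemma c2_add (F G : ℂ⟦X⟧⟦X⟧) (i j : ℕ) : c2 (F + G) i j = c2 F i j + c2 G i j := by
  simp only [c2, map_add]

lemma c2_mul_le {R : ℝ} (hR : 0 ≤ R) {F G : ℂ⟦X⟧⟦X⟧} {a b : ℝ} (ha : 0 ≤ a) (hb : 0 ≤ b) {i j : ℕ}
    (hF : ∀ i' j', ‖c2 F i' j'‖ ≤ a * R ^ (i' + j') * vv (i' + j'))
    (hG : ∀ q ∈ antidiagonal j, (∀ i', c2 F i' q.1 = 0) ∨
      ∀ i', ‖c2 G i' q.2‖ ≤ q.2 * b * R ^ (i' + q.2) * vv (i' + q.2)) :
    ‖c2 (F * G) i j‖ ≤ j * (128 * a * b) * R ^ (i + j) * vv (i + j) := by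
  rw [c2_mul]
  calc _ ≤ ∑ q ∈ antidiagonal j, ∑ p ∈ antidiagonal i,
        j * a * b * R ^ (i + j) * (vv (p.1 + q.1) * vv (p.2 + q.2)) := by
        refine (norm_sum_le _ _).trans (sum_le_sum fun q hq => (norm_sum_le _ _).trans
          (sum_le_sum fun p hp => ?_))
        have h1 := vv_pos (p.1 + q.1)
        have h2 := vv_pos (p.2 + q.2)
        rcases hG q hq with h | h
        · rw [h, zero_mul, norm_zero]; positivity
        · rw [HasAntidiagonal.mem_antidiagonal] at hp hq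
          have h3 : (q.2 : ℝ) ≤ j := by exact_mod_cast (by omega)
          rw [norm_mul, show i + j = (p.1 + q.1) + (p.2 + q.2) by omega, pow_add]
          calc _ ≤ a * R ^ (p.1 + q.1) * vv (p.1 + q.1) *
                (j * b * R ^ (p.2 + q.2) * vv (p.2 + q.2)) := by
                gcongr
                · exact hF _ _
                · exact (h _).trans (by gcongr)
            _ = _ := by ring
    _ ≤ j * a * b * R ^ (i + j) * (128 * vv (i + j)) := by
        simp only [← mul_sum]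
        gcongr
        exact conv_two i j
    _ = _ := by ring

/-- The Hankel coefficients. -/
def hk (bb : ℕ → ℂ) : ℕ → ℕ → ℂ
  | i + 1, j + 1 => bb (i + j)
  | _, _ => 0

@[simp] lemma hk_succ (bb : ℕ → ℂ) (i j : ℕ) : hk bb (i + 1) (j + 1) = bb (i + j) := rfl

@[simp] lemma hk_zero_left (bb : ℕ → ℂ) (j : ℕ) : hk bb 0 j = 0 := by cases j <;> rfl

@[simp] lemma hk_zero_right (bb : ℕ → ℂ) (i : ℕ) : hk bb i 0 = 0 := by cases i <;> rfl

/-- The Hankel series. -/
noncomputable def sB (bb : ℕ → ℂ) : ℂ⟦X⟧⟦X⟧ :=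
  PowerSeries.mk fun j => PowerSeries.mk fun i => hk bb i j

/-- Its Euler derivative in the second variable. -/
noncomputable def sD (bb : ℕ → ℂ) : ℂ⟦X⟧⟦X⟧ :=
  PowerSeries.mk fun j => PowerSeries.mk fun i => j * hk bb i j

/-- The generating series of the Grunsky coefficients. -/
noncomputable def sA (bb : ℕ → ℂ) : ℂ⟦X⟧⟦X⟧ := invOfUnit (1 - sB bb) 1 * sD bb

@[simp] lemma c2_sB (bb : ℕ → ℂ) (i j : ℕ) : c2 (sB bb) i j = hk bb i j := by simp [c2, sB]

@[simp] lemma c2_sD (bb : ℕ → ℂ) (i j : ℕ) : c2 (sD bb) i j = j * hk bb i j := by simp [c2, sD]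

lemma sA_eq (bb : ℕ → ℂ) : sA bb = sD bb + sB bb * sA bb := by
  have h : (1 - sB bb) * invOfUnit (1 - sB bb) 1 = 1 := mul_invOfUnit _ _ (by
    rw [← coeff_zero_eq_constantCoeff_apply]
    ext i
    simp [sB])
  have h2 : (1 - sB bb) * sA bb = sD bb := by rw [sA, ← mul_assoc, h, one_mul]
  linear_combination h2

/-- The Grunsky coefficients (with shifted indices). -/
noncomputable def gr (bb : ℕ → ℂ) (i j : ℕ) : ℂ := c2 (sA bb) (i + 1) (j + 1) / (j + 1)

lemma c2_sA_zero_right (bb : ℕ → ℂ) (i : ℕ) : c2 (sA bb) i 0 = 0 := by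
  rw [sA_eq, c2_add, c2_mul]; simp

lemma c2_sA_zero_left (bb : ℕ → ℂ) (j : ℕ) : c2 (sA bb) 0 j = 0 := by
  rw [sA_eq, c2_add, c2_mul]; simp

lemma gr_zero_right (bb : ℕ → ℂ) (i : ℕ) : gr bb i 0 = bb i := by
  rw [gr, sA_eq, c2_add, c2_mul]
  simp [Nat.antidiagonal_succ, c2_sA_zero_right]

lemma gr_zero_left (bb : ℕ → ℂ) (j : ℕ) : gr bb 0 j = bb j := by
  rw [gr, sA_eq, c2_add, c2_mul]
  have : (j : ℂ) + 1 ≠ 0 := by exact_mod_cast Nat.succ_ne_zero j
  simp [Nat.antidiagonal_succ, c2_sA_zero_left]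
  field_simp

lemma continuous_hk (i j : ℕ) : Continuous fun bb : ℕ → ℂ => hk bb i j := by
  rcases i with _ | i
  · simpa using continuous_const
  rcases j with _ | j
  · simpa using continuous_const
  · exact continuous_apply _

lemma continuous_c2_sA (j : ℕ) : ∀ i, Continuous fun bb : ℕ → ℂ => c2 (sA bb) i j := by
  induction j using Nat.strong_induction_on with
  | _ j ih =>
    intro i
    have e : (fun bb : ℕ → ℂ => c2 (sA bb) i j) = fun bb => j * hk bb i j +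
        ∑ q ∈ antidiagonal j, ∑ p ∈ antidiagonal i, hk bb p.1 q.1 * c2 (sA bb) p.2 q.2 := by
      ext bb
      conv_lhs => rw [sA_eq, c2_add, c2_mul]
      simp
    rw [e]
    refine (continuous_const.mul (continuous_hk i j)).add (continuous_finsetSum _ fun q hq =>
      continuous_finsetSum _ fun p _ => ?_)
    rcases hq1 : q.1 with _ | m
    · simpa using continuous_const
    · rw [HasAntidiagonal.mem_antidiagonal] at hq
      exact (continuous_hk _ _).mul (ih _ (by omega) _)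

lemma continuous_gr (i j : ℕ) : Continuous fun bb : ℕ → ℂ => gr bb i j :=
  (continuous_c2_sA _ _).div_const _

/-- The weighted bound on the coefficients of the conformal map. -/
def Bb (bb : ℕ → ℂ) (a R : ℝ) : Prop := ∀ n, ‖bb n‖ ≤ a * R ^ (n + 2) * vv (n + 2)

lemma Bb.mono {bb : ℕ → ℂ} {a R a' R' : ℝ} (h : Bb bb a R) (ha : 0 ≤ a) (hR : 0 ≤ R)
    (h1 : a ≤ a') (h2 : R ≤ R') : Bb bb a' R' := fun n => (h n).trans (by
  have := vv_pos (n + 2)
  have : 0 ≤ a' := ha.trans h1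
  gcongr)

section grunsky

variable {bb : ℕ → ℂ} {a R : ℝ} (h : Bb bb a R) (ha : 0 ≤ a) (hR : 0 ≤ R)
include h ha hR

lemma hk_le (i j : ℕ) : ‖hk bb i j‖ ≤ a * R ^ (i + j) * vv (i + j) := by
  have := vv_pos (i + j)
  rcases i with _ | i
  · simp only [hk_zero_left, norm_zero]; positivity
  rcases j with _ | j
  · simp only [hk_zero_right, norm_zero]; positivity
  · rw [hk_succ, show i + 1 + (j + 1) = i + j + 2 by ring]
    exact h _

lemma sD_le (i j : ℕ) : ‖c2 (sD bb) i j‖ ≤ j * a * R ^ (i + j) * vv (i + j) := by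
  rw [c2_sD, norm_mul, Complex.norm_natCast, mul_assoc, mul_assoc, ← mul_assoc a]
  gcongr
  exact hk_le h ha hR i j

lemma sA_le (ha' : a ≤ 1 / 256) (j : ℕ) :
    ∀ i, ‖c2 (sA bb) i j‖ ≤ j * (2 * a) * R ^ (i + j) * vv (i + j) := by
  induction j using Nat.strong_induction_on with
  | _ j ih =>
    intro i
    have h1 := c2_mul_le hR (F := sB bb) (G := sA bb) (b := 2 * a) (i := i) (j := j) ha
      (by positivity) (fun i' j' => by simpa using hk_le h ha hR i' j') (fun q hq => by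
        rcases hq1 : q.1 with _ | m
        · left; simp
        · rw [HasAntidiagonal.mem_antidiagonal] at hq
          exact Or.inr (ih _ (by omega)))
    have h2 := sD_le h ha hR i j
    have h3 : 0 ≤ j * a * R ^ (i + j) * vv (i + j) := by have := vv_pos (i + j); positivity
    rw [sA_eq, c2_add]
    refine (norm_add_le _ _).trans ?_
    linarith only [h1, h2, ha', h3, mul_nonneg_of_nonpos_of_nonpos (Mathlib.Tactic.Linarith.sub_nonpos_of_le ha') (Mathlib.Tactic.Linarith.sub_nonpos_of_le h3)]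

lemma sBA_le (ha' : a ≤ 1 / 256) (i j : ℕ) :
    ‖c2 (sB bb * sA bb) i j‖ ≤ j * (256 * a ^ 2) * R ^ (i + j) * vv (i + j) := by
  refine (c2_mul_le hR (b := 2 * a) ha (by positivity)
    (fun i' j' => by simpa using hk_le h ha hR i' j')
    (fun q _ => Or.inr (sA_le h ha hR ha' _))).trans (le_of_eq ?_)
  ring

omit h ha hR in
lemma norm_div_succ_le {x : ℂ} {j : ℕ} {c : ℝ} (h : ‖x‖ ≤ ((j + 1 : ℕ) : ℝ) * c) :
    ‖x / (j + 1)‖ ≤ c := by
  rw [norm_div, ← Nat.cast_succ, Complex.norm_natCast, div_le_iff₀ (by positivity), mul_comm]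
  exact h

lemma gr_sub_le (ha' : a ≤ 1 / 256) (i j : ℕ) :
    ‖gr bb i j - bb (i + j)‖ ≤ 256 * a ^ 2 * R ^ (i + j + 2) * vv (i + j + 2) := by
  have hj : (j : ℂ) + 1 ≠ 0 := by exact_mod_cast Nat.succ_ne_zero j
  have e : gr bb i j - bb (i + j) = c2 (sB bb * sA bb) (i + 1) (j + 1) / (j + 1) := by
    rw [gr]
    conv_lhs => rw [sA_eq, c2_add]
    simp only [c2_sD, hk_succ, Nat.cast_succ]
    field_simp
    ring
  rw [e]
  refine norm_div_succ_le ((sBA_le h ha hR ha' _ _).trans (le_of_eq ?_))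
  rw [show i + 1 + (j + 1) = i + j + 2 by ring]
  ring

lemma gr_le (ha' : a ≤ 1 / 256) (i j : ℕ) :
    ‖gr bb i j‖ ≤ 2 * a * R ^ (i + j + 2) * vv (i + j + 2) := by
  refine norm_div_succ_le ((sA_le h ha hR ha' _ _).trans (le_of_eq ?_))
  rw [show i + 1 + (j + 1) = i + j + 2 by ring]
  ring

end grunsky

/-- The quadratic correction on the diagonal. -/
noncomputable def cross (bb : ℕ → ℂ) (k : ℕ) : ℂ :=
  if k = 0 then bb 0 ^ 2 / 2 else bb 0 * bb (2 * k)

lemma gr_diag {bb : ℕ → ℂ} {a a' R : ℝ} (h : Bb bb a R) (h' : Bb (Function.update bb 0 0) a' R)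
    (ha : 0 ≤ a) (ha0 : 0 ≤ a') (hR : 0 ≤ R) (ha' : a ≤ 1 / 256) (k : ℕ) :
    ‖gr bb (k + 1) (k + 1) - bb (2 * k + 2) - cross bb k‖ ≤
      (32768 * a ^ 3 + 128 * a' ^ 2) * R ^ (2 * k + 4) * vv (2 * k + 4) := by
  set b' := Function.update bb 0 0 with hb'
  set e : ℂ⟦X⟧⟦X⟧ := X * C (X * C (bb 0)) with he
  have hce : ∀ (Y : ℂ⟦X⟧⟦X⟧) i j, c2 (e * Y) (i + 1) (j + 1) = bb 0 * c2 Y i j := by
    intro Y i j
    simp only [c2, he, mul_assoc, coeff_succ_X_mul, coeff_C_mul]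
  have hce' : ∀ i j, c2 e i j = if i = 1 ∧ j = 1 then bb 0 else 0 := by
    intro i j
    rcases j with _ | j
    · simp [c2, he]
    rcases i with _ | i
    · simp only [c2, he, coeff_succ_X_mul, coeff_C]
      split_ifs <;> simp_all
    · simp only [c2, he, coeff_succ_X_mul, coeff_C]
      by_cases hj : j = 0 <;> by_cases hi : i = 0 <;> simp [hi, hj, coeff_X]
  have hhk : ∀ i j, hk bb i j = c2 e i j + hk b' i j := by
    intro i j
    rw [hce']
    rcases i with _ | i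
    · simp
    rcases j with _ | j
    · simp
    by_cases hij : i + j = 0
    · obtain ⟨rfl, rfl⟩ : i = 0 ∧ j = 0 := by omega
      simp [hb']
    · rw [if_neg (by omega), hk_succ, hk_succ, hb', Function.update_of_ne hij, zero_add]
  have eB : sB bb = e + sB b' := by
    ext j i
    exact (c2_sB bb i j).trans ((hhk i j).trans (by rw [← c2_sB, ← c2_add]; rfl))
  have eD : sD bb = e + sD b' := by
    ext j i
    refine (c2_sD bb i j).trans (Eq.trans ?_ (c2_add e (sD b') i j).symm)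
    rw [hhk, c2_sD, hce']
    split_ifs with hij
    · simp [hij.2]
    · simp
  have eA : sA bb = sD bb + (e * (e + sD b' + sB b') + (sB b' * sD b' +
      sB bb * (sB bb * sA bb))) := by
    have h1 := sA_eq bb
    have h2 : sB bb * sD bb = e * (e + sD b' + sB b') + sB b' * sD b' := by rw [eB, eD]; ring
    linear_combination (1 + sB bb) * h1 + h2
  have hj : ((k + 1 : ℕ) : ℂ) + 1 ≠ 0 := by exact_mod_cast Nat.succ_ne_zero (k + 1)
  have e1 : gr bb (k + 1) (k + 1) - bb (2 * k + 2) - cross bb k =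
      c2 (sB b' * sD b' + sB bb * (sB bb * sA bb)) (k + 1 + 1) (k + 1 + 1) /
        (((k + 1 : ℕ) : ℂ) + 1) := by
    rw [gr]
    conv_lhs => rw [eA, c2_add, c2_add, hce, c2_add, c2_add, hce']
    simp only [c2_sD, c2_sB, hk_succ, cross]
    rw [show k + 1 + (k + 1) = 2 * k + 2 by ring, show k + k = 2 * k by ring]
    rcases k with _ | k
    · simp [hb']
      field_simp
      ring
    · rw [if_neg (by omega), if_neg (by omega), hb', Function.update_of_ne (by omega)]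
      field_simp
      push_cast
      ring
  rw [e1]
  refine norm_div_succ_le ?_
  have h1 := c2_mul_le hR (F := sB b') (G := sD b') (i := k + 1 + 1) (j := k + 1 + 1) ha0 ha0
    (fun i' j' => by simpa using hk_le h' ha0 hR i' j')
    (fun q _ => Or.inr fun i' => sD_le h' ha0 hR i' _)
  have h2 := c2_mul_le hR (F := sB bb) (G := sB bb * sA bb) (b := 256 * a ^ 2) (i := k + 1 + 1)
    (j := k + 1 + 1) ha (by positivity) (fun i' j' => by simpa using hk_le h ha hR i' j')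
    (fun q _ => Or.inr fun i' => sBA_le h ha hR ha' i' _)
  rw [show k + 1 + 1 + (k + 1 + 1) = 2 * k + 4 by ring] at h1 h2
  rw [c2_add]
  refine (norm_add_le _ _).trans ?_
  linarith only [h1, h2]

/-- The denominator of the generating series of the Faber polynomials. -/
noncomputable def sP (bb : ℕ → ℂ) (w : ℂ) : ℂ⟦X⟧ := 1 - X * C w + X * (X * PowerSeries.mk bb)

/-- Its inverse. -/
noncomputable def sE (bb : ℕ → ℂ) (w : ℂ) : ℂ⟦X⟧ := (sP bb w)⁻¹

/-- The numerator of the generating series of the Faber polynomials. -/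
noncomputable def sN (bb : ℕ → ℂ) : ℂ⟦X⟧ :=
  1 - X * (X * PowerSeries.mk fun m => ((m : ℂ) + 1) * bb m)

/-- The normalised Faber polynomials (with shifted index). -/
noncomputable def fab (bb : ℕ → ℂ) (j : ℕ) (w : ℂ) : ℂ :=
  w * (coeff j (sN bb * (sE bb w * sE bb 0)) / (j + 1))

/-- The constant terms of the Faber polynomials. -/
noncomputable def kap (bb : ℕ → ℂ) (j : ℕ) : ℂ := coeff (j + 1) (sN bb * sE bb 0) / (j + 1)

lemma sP_mul_sE (bb : ℕ → ℂ) (w : ℂ) : sP bb w * sE bb w = 1 :=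
  PowerSeries.mul_inv_cancel _ (by simp [sP])

lemma sE_eq (bb : ℕ → ℂ) (w : ℂ) : sE bb w = 1 + (1 - sP bb w) * sE bb w := by
  linear_combination sP_mul_sE bb w

lemma coeff_D_zero (bb : ℕ → ℂ) (w : ℂ) : coeff 0 (1 - sP bb w) = 0 := by simp [sP]

lemma coeff_D_one (bb : ℕ → ℂ) (w : ℂ) : coeff 1 (1 - sP bb w) = w := by
  simp [sP, coeff_succ_X_mul, coeff_one]

lemma coeff_D_two (bb : ℕ → ℂ) (w : ℂ) (m : ℕ) : coeff (m + 2) (1 - sP bb w) = -bb m := by
  simp [sP, coeff_succ_X_mul, coeff_one, coeff_X]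

lemma coeff_zero_sE (bb : ℕ → ℂ) (w : ℂ) : coeff 0 (sE bb w) = 1 := by
  rw [sE_eq, map_add, coeff_mul]; simp [sP]

lemma fab_zero (bb : ℕ → ℂ) (w : ℂ) : fab bb 0 w = w := by
  have := coeff_zero_sE bb
  simp only [coeff_zero_eq_constantCoeff_apply] at this
  simp [fab, sN, this]

lemma fab_eq (bb : ℕ → ℂ) (j : ℕ) (w : ℂ) : fab bb j w =
    (coeff (j + 1) (sN bb * sE bb w) - coeff (j + 1) (sN bb * sE bb 0)) / (j + 1) := by
  have e : sN bb * sE bb w - sN bb * sE bb 0 = X * (C w * (sN bb * (sE bb w * sE bb 0))) := by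
    have h1 := sP_mul_sE bb w
    have h2 := sP_mul_sE bb 0
    simp only [sP, map_zero] at h1 h2
    linear_combination sN bb * sE bb 0 * h1 - sN bb * sE bb w * h2
  rw [← map_sub, e, coeff_succ_X_mul, coeff_C_mul, fab]
  ring

lemma coeff_sE_rec (n : ℕ) (bb : ℕ → ℂ) (w : ℂ) : coeff n (sE bb w) = coeff n (1 : ℂ⟦X⟧) +
    ∑ p ∈ antidiagonal n, coeff p.1 (1 - sP bb w) * coeff p.2 (sE bb w) := by
  conv_lhs => rw [sE_eq, map_add, coeff_mul]

lemma continuous_coeff_D (n : ℕ) :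
    Continuous fun x : (ℕ → ℂ) × ℂ => coeff n (1 - sP x.1 x.2) := by
  rcases n with _ | _ | n
  · simp only [coeff_D_zero]; fun_prop
  · simp only [zero_add, coeff_D_one]; fun_prop
  · simp only [add_assoc, one_add_one_eq_two, coeff_D_two]; fun_prop

lemma continuous_coeff_sE (n : ℕ) :
    Continuous fun x : (ℕ → ℂ) × ℂ => coeff n (sE x.1 x.2) := by
  induction n using Nat.strong_induction_on with
  | _ n ih =>
    simp only [coeff_sE_rec n]
    refine continuous_const.add (continuous_finsetSum _ fun p hp => ?_)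
    rcases hp1 : p.1 with _ | m
    · simpa [coeff_D_zero] using continuous_const
    · rw [HasAntidiagonal.mem_antidiagonal] at hp
      exact (continuous_coeff_D _).mul (ih _ (by omega))

lemma differentiable_coeff_sE (bb : ℕ → ℂ) (n : ℕ) :
    Differentiable ℂ fun w => coeff n (sE bb w) := by
  induction n using Nat.strong_induction_on with
  | _ n ih =>
    simp only [coeff_sE_rec n]
    refine (differentiable_const _).add (Differentiable.fun_sum fun p hp => ?_)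
    rw [HasAntidiagonal.mem_antidiagonal] at hp
    rcases hp1 : p.1 with _ | _ | m
    · simp [coeff_D_zero]
    · simp only [zero_add, coeff_D_one]
      exact differentiable_id.mul (ih _ (by omega))
    · simp only [add_assoc, one_add_one_eq_two, coeff_D_two]
      exact (ih _ (by omega)).const_mul _

lemma coeff_sN_two (bb : ℕ → ℂ) (m : ℕ) : coeff (m + 2) (sN bb) = -((m + 1) * bb m) := by
  simp [sN, coeff_succ_X_mul, coeff_one]

lemma coeff_sN_one (bb : ℕ → ℂ) : coeff 1 (sN bb) = 0 := by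
  simp [sN, coeff_succ_X_mul, coeff_one]

lemma coeff_sN_zero (bb : ℕ → ℂ) : coeff 0 (sN bb) = 1 := by simp [sN]

lemma continuous_fab (j : ℕ) : Continuous fun x : (ℕ → ℂ) × ℂ => fab x.1 j x.2 := by
  simp only [fab, coeff_mul]
  refine continuous_snd.mul (Continuous.div_const (continuous_finsetSum _ fun p _ =>
    Continuous.mul ?_ (continuous_finsetSum _ fun q _ => (continuous_coeff_sE _).mul
      ((continuous_coeff_sE q.2).comp (continuous_fst.prodMk continuous_const)))) _)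
  rcases p.1 with _ | _ | n
  · simp only [coeff_sN_zero]; fun_prop
  · simp only [zero_add, coeff_sN_one]; fun_prop
  · simp only [add_assoc, one_add_one_eq_two, coeff_sN_two]; fun_prop

lemma differentiable_fab (bb : ℕ → ℂ) (j : ℕ) : Differentiable ℂ (fab bb j) := by
  unfold fab
  simp only [coeff_mul]
  exact differentiable_id.mul (Differentiable.div_const (Differentiable.fun_sum fun p _ =>
    Differentiable.const_mul (Differentiable.fun_sum fun q _ =>
      (differentiable_coeff_sE _ _).mul_const _) _) _)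

section faber

variable {bb : ℕ → ℂ} {R : ℝ} (h : Bb bb (1 / 256) R) (hR : 0 ≤ R) {w : ℂ} (hw : ‖w‖ ≤ R / 4096)
include h hR hw

lemma coeff_sE_le (n : ℕ) : ‖coeff n (sE bb w)‖ ≤ 2 * R ^ n * vv n := by
  induction n using Nat.strong_induction_on with
  | _ n ih =>
    have h0 := vv_pos n
    have h1 := coeff_mul_le hR (f := 1 - sP bb w) (g := sE bb w) (a := 1 / 256) (b := 2) (n := n)
      (by norm_num) (by norm_num) (fun m _ => by
        rcases m with _ | _ | m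
        · rw [coeff_D_zero, norm_zero, vv_zero]; positivity
        · rw [zero_add, coeff_D_one, vv]; norm_num; linarith only [hw]
        · rw [add_assoc, one_add_one_eq_two, coeff_D_two, norm_neg]; exact h m)
      (fun p hp => by
        rcases hp1 : p.1 with _ | m
        · exact Or.inl (coeff_D_zero _ _)
        · rw [HasAntidiagonal.mem_antidiagonal] at hp
          exact Or.inr (ih _ (by omega)))
    have h2 : ‖coeff n (1 : ℂ⟦X⟧)‖ ≤ R ^ n * vv n := by
      rw [coeff_one]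
      split_ifs with hn
      · simp [hn, vv_zero]
      · rw [norm_zero]; positivity
    rw [sE_eq, map_add]
    refine (norm_add_le _ _).trans ?_
    linarith only [h1, h2]

omit hw in
lemma coeff_sN_le (j m : ℕ) (hm : m ≤ j) :
    ‖coeff m (sN bb)‖ ≤ ((j + 1 : ℕ) : ℝ) * R ^ m * vv m := by
  rcases m with _ | _ | m
  · rw [coeff_sN_zero, vv_zero]; simp
  · rw [zero_add, coeff_sN_one, norm_zero]; have := vv_pos 1; positivity
  · rw [add_assoc, one_add_one_eq_two, coeff_sN_two, norm_neg, norm_mul, ← Nat.cast_succ,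
      Complex.norm_natCast, mul_assoc]
    have := vv_pos (m + 2)
    gcongr
    · omega
    · refine (h m).trans ?_
      have : 0 ≤ R ^ (m + 2) * vv (m + 2) := by positivity
      linarith only [this]

lemma fab_le (j : ℕ) : ‖fab bb j w‖ ≤ 65536 * ‖w‖ * R ^ j * vv j := by
  have h1 : ∀ m, ‖coeff m (sE bb w * sE bb 0)‖ ≤ 128 * 2 * 2 * R ^ m * vv m := fun m =>
    coeff_mul_le hR (by norm_num) (by norm_num) (fun m _ => coeff_sE_le h hR hw m)
      fun p _ => Or.inr (coeff_sE_le h hR (by rw [norm_zero]; positivity) _)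
  have h2 := coeff_mul_le hR (f := sN bb) (g := sE bb w * sE bb 0) (a := ((j + 1 : ℕ) : ℝ))
    (b := 128 * 2 * 2) (n := j) (by positivity) (by norm_num) (coeff_sN_le h hR j)
    fun p _ => Or.inr (h1 _)
  rw [fab, norm_mul]
  have h3 := norm_div_succ_le (c := 65536 * R ^ j * vv j) (h2.trans (le_of_eq (by ring)))
  calc _ ≤ ‖w‖ * (65536 * R ^ j * vv j) := by gcongr
    _ = _ := by ring

omit hw in
lemma kap_le (hR1 : R ≤ 1) (j : ℕ) : ‖kap bb j‖ ≤ 512 := by
  have h2 := coeff_mul_le hR (f := sN bb) (g := sE bb 0) (a := ((j + 1 + 1 : ℕ) : ℝ))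
    (b := 2) (n := j + 1) (by positivity) (by norm_num) (coeff_sN_le h hR (j + 1))
    fun p _ => Or.inr (coeff_sE_le h hR (by rw [norm_zero]; positivity) _)
  refine norm_div_succ_le (h2.trans ?_)
  have h3 : R ^ (j + 1) ≤ 1 := pow_le_one₀ hR hR1
  have h4 := vv_le_one (j + 1)
  have h5 := vv_pos (j + 1)
  have h6 : (0 : ℝ) ≤ j := Nat.cast_nonneg j
  calc _ ≤ 128 * ((j + 1 + 1 : ℕ) : ℝ) * 2 * 1 * 1 := by gcongr
    _ ≤ _ := by push_cast; linarith

end faber

end Pool.Agent.Work.MP_a6a438_an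
end

-- merged part: Pool.Agent.Work.MP_a6a438_an.Eval
section
/-!
Evaluation of the generating series: the Faber expansion along the conformal map.
-/

set_option autoImplicit false

open Finset PowerSeries

namespace Pool.Agent.Work.MP_a6a438_an

/-- Absolutely convergent evaluation of a power series. -/
def Ev (x : ℂ) (f : ℂ⟦X⟧) (s : ℂ) : Prop :=
  Summable (fun i => ‖coeff i f * x ^ i‖) ∧ HasSum (fun i => coeff i f * x ^ i) s

namespace Ev

variable {x : ℂ} {f g : ℂ⟦X⟧} {s t : ℂ}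

lemma unique (h : Ev x f s) (h' : Ev x f t) : s = t := h.2.unique h'.2

lemma add (h : Ev x f s) (h' : Ev x g t) : Ev x (f + g) (s + t) := by
  refine ⟨Summable.of_nonneg_of_le (fun _ => norm_nonneg _) (fun i => ?_) (h.1.add h'.1), ?_⟩
  · rw [map_add, add_mul]; exact norm_add_le _ _
  · simpa only [map_add, add_mul] using h.2.add h'.2

lemma neg (h : Ev x f s) : Ev x (-f) (-s) :=
  ⟨by simpa only [map_neg, neg_mul, norm_neg] using h.1,
    by simpa only [map_neg, neg_mul] using h.2.neg⟩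

lemma mul (h : Ev x f s) (h' : Ev x g t) : Ev x (f * g) (s * t) := by
  have e : ∀ n, coeff n (f * g) * x ^ n = ∑ p ∈ HasAntidiagonal.antidiagonal n,
      (coeff p.1 f * x ^ p.1) * (coeff p.2 g * x ^ p.2) := by
    intro n
    rw [coeff_mul, sum_mul]
    refine sum_congr rfl fun p hp => ?_
    rw [← HasAntidiagonal.mem_antidiagonal.1 hp, pow_add]
    ring
  have h1 := summable_norm_sum_mul_antidiagonal_of_summable_norm h.1 h'.1
  refine ⟨by simpa only [e] using h1, ?_⟩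
  rw [← h.2.tsum_eq, ← h'.2.tsum_eq,
    tsum_mul_tsum_eq_tsum_sum_antidiagonal_of_summable_norm h.1 h'.1]
  simpa only [e] using h1.of_norm.hasSum

lemma single (n : ℕ) (h : ∀ i, i ≠ n → coeff i f = 0) : Ev x f (coeff n f * x ^ n) :=
  ⟨(hasSum_single n fun i hi => by rw [h i hi, zero_mul, norm_zero]).summable,
    hasSum_single n fun i hi => by rw [h i hi, zero_mul]⟩

lemma const (a : ℂ) : Ev x (C a) a := by
  simpa using single (x := x) (f := C a) 0 fun i hi => by rw [coeff_C, if_neg hi]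

lemma var : Ev x X x := by
  simpa using single (x := x) (f := X) 1 fun i hi => by rw [coeff_X, if_neg hi]

lemma one : Ev x 1 1 := by simpa using const (x := x) 1

lemma sum {ι : Type} (S : Finset ι) {f : ι → ℂ⟦X⟧} {s : ι → ℂ} (h : ∀ i ∈ S, Ev x (f i) (s i)) :
    Ev x (∑ i ∈ S, f i) (∑ i ∈ S, s i) := by
  classical
  induction S using Finset.induction_on with
  | empty => simpa using const (x := x) 0
  | insert a S ha ih =>
    rw [sum_insert ha, sum_insert ha]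
    exact (h a (mem_insert_self _ _)).add (ih fun i hi => h i (mem_insert_of_mem hi))

lemma of_bound {C R : ℝ} (hR : 0 ≤ R) (hx : R * ‖x‖ ≤ 1 / 2) (h : ∀ i, ‖coeff i f‖ ≤ C * R ^ i) :
    Ev x f (∑' i, coeff i f * x ^ i) := by
  have hC : 0 ≤ C := by simpa using (norm_nonneg _).trans (h 0)
  have h1 : Summable fun i => ‖coeff i f * x ^ i‖ := by
    refine Summable.of_nonneg_of_le (fun _ => norm_nonneg _) (fun i => ?_)
      (summable_geometric_two.mul_left C)
    rw [norm_mul, norm_pow]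
    calc _ ≤ C * R ^ i * ‖x‖ ^ i := by gcongr; exact h i
      _ = C * (R * ‖x‖) ^ i := by rw [mul_pow, mul_assoc]
      _ ≤ _ := by gcongr
  exact ⟨h1, h1.of_norm.hasSum⟩

end Ev

/-- The tails of the series of the conformal map. -/
noncomputable def tl (bb : ℕ → ℂ) (j : ℕ) (x : ℂ) : ℂ := ∑' m, bb (m + j) * x ^ m

/-- The conformal map. -/
noncomputable def gg (bb : ℕ → ℂ) (z : ℂ) : ℂ := z + z⁻¹ * tl bb 0 z⁻¹

section

variable {bb : ℕ → ℂ} {R : ℝ} (h : Bb bb (1 / 256) R) (hR : 0 ≤ R)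
include h hR

lemma bb_le (m j : ℕ) : ‖bb (m + j)‖ ≤ R ^ (j + 2) * R ^ m := by
  refine (h _).trans ?_
  have h1 := vv_le_one (m + j + 2)
  have h2 : 0 ≤ R ^ (m + j + 2) := by positivity
  rw [← pow_add, show j + 2 + m = m + j + 2 by ring]
  linarith only [h2, h1, mul_nonneg_of_nonpos_of_nonpos (Mathlib.Tactic.Linarith.sub_nonpos_of_le h1) (Mathlib.Tactic.Linarith.sub_nonpos_of_le h2)]

lemma ev_tl {x : ℂ} (hx : R * ‖x‖ ≤ 1 / 2) (j : ℕ) :
    Ev x (PowerSeries.mk fun m => bb (m + j)) (tl bb j x) := by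
  simpa only [coeff_mk, tl] using Ev.of_bound (f := PowerSeries.mk fun m => bb (m + j)) hR hx
    (fun i => by simpa only [coeff_mk] using bb_le h hR i j)

lemma tl_succ {x : ℂ} (hx : R * ‖x‖ ≤ 1 / 2) (j : ℕ) : tl bb j x = bb j + x * tl bb (j + 1) x := by
  refine (ev_tl h hR hx j).unique ?_
  convert (Ev.const (bb j)).add (Ev.var.mul (ev_tl h hR hx (j + 1))) using 1
  ext n
  rcases n with _ | n
  · simp
  · simp [coeff_succ_X_mul, add_assoc, add_comm 1 j]

lemma hasSum_sE {z w : ℂ} (hz : z ≠ 0) (hx : R * ‖z⁻¹‖ ≤ 1 / 2) (hw : ‖w‖ ≤ R / 4096) :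
    HasSum (fun i => coeff i (sE bb w) * z⁻¹ ^ (i + 1)) (gg bb z - w)⁻¹ := by
  have h1 := Ev.of_bound (f := sE bb w) (C := 2) hR hx fun i =>
    (coeff_sE_le h hR hw i).trans (mul_le_of_le_one_right (by positivity) (vv_le_one i))
  have h2 : Ev z⁻¹ (sP bb w) (1 + -(z⁻¹ * w) + z⁻¹ * (z⁻¹ * tl bb 0 z⁻¹)) := by
    rw [sP, sub_eq_add_neg]
    exact (Ev.one.add (Ev.var.mul (Ev.const w)).neg).add
      (Ev.var.mul (Ev.var.mul (ev_tl h hR hx 0)))
  have h3 := h2.mul h1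
  rw [sP_mul_sE] at h3
  have h4 := h3.unique Ev.one
  have h5 : (∑' i, coeff i (sE bb w) * z⁻¹ ^ i) * z⁻¹ = (gg bb z - w)⁻¹ := by
    refine eq_inv_of_mul_eq_one_left ?_
    rw [← h4, gg]
    field_simp
    ring
  rw [← h5]
  simpa only [pow_succ, mul_assoc] using h1.2.mul_right z⁻¹

lemma hasSum_gr {z : ℂ} (hz : z ≠ 0) (hx : R * ‖z⁻¹‖ ≤ 1 / 2) (j : ℕ) :
    HasSum (fun i => gr bb i j * z⁻¹ ^ (i + 1))
      (fab bb j (gg bb z) + kap bb j - z ^ (j + 1) / (j + 1)) := by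
  set x := z⁻¹ with hxd
  have hzx : z * x = 1 := mul_inv_cancel₀ hz
  set Bz : ℂ⟦X⟧ := X * PowerSeries.mk fun j => x * tl bb j x with hBz
  set Dz : ℂ⟦X⟧ := X * PowerSeries.mk fun j => ((j : ℂ) + 1) * (x * tl bb j x) with hDz
  set Az : ℂ⟦X⟧ := PowerSeries.mk fun j => ∑' i, c2 (sA bb) i j * x ^ i with hAz
  have evA : ∀ j, Ev x (coeff j (sA bb)) (coeff j Az) := fun j => by
    rw [hAz, coeff_mk]
    refine Ev.of_bound (C := j * (2 * (1 / 256)) * R ^ j) hR hx fun i => ?_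
    refine (sA_le h (by norm_num) hR le_rfl j i).trans ?_
    rw [mul_assoc _ (R ^ j), ← pow_add, add_comm j i]
    exact mul_le_of_le_one_right (by positivity) (vv_le_one _)
  have evB : ∀ j, Ev x (coeff j (sB bb)) (coeff j Bz) := fun j => by
    rcases j with _ | j
    · convert Ev.const (x := x) 0 using 1
      · ext i; simp [sB]
      · simp [hBz]
    · rw [hBz, coeff_succ_X_mul, coeff_mk]
      convert Ev.var.mul (ev_tl h hR hx j) using 1
      ext i
      rcases i with _ | i <;> simp [sB, coeff_succ_X_mul]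
  have evD : ∀ j, Ev x (coeff j (sD bb)) (coeff j Dz) := fun j => by
    have e1 : coeff j (sD bb) = C (j : ℂ) * coeff j (sB bb) := by
      ext i; rw [coeff_C_mul]; simp [sB, sD]
    have e2 : coeff j Dz = j * coeff j Bz := by
      rcases j with _ | j <;> simp [hBz, hDz, coeff_succ_X_mul]
    rw [e1, e2]
    exact (Ev.const _).mul (evB j)
  have hA : Az = Dz + Bz * Az := by
    ext j
    refine (evA j).unique ?_
    rw [map_add, coeff_mul j Bz]
    conv => arg 2; rw [sA_eq, map_add, coeff_mul]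
    exact (evD j).add (Ev.sum _ fun p _ => (evB _).mul (evA _))
  have ht : ∀ m, z * (x * tl bb m x) = bb m + x * tl bb (m + 1) x := fun m => by
    rw [← mul_assoc, hzx, one_mul, tl_succ h hR hx m]
  have hP : sP bb (gg bb z) = (1 - X * C z) * (1 - Bz) := by
    have e : (1 - X * C z) * (1 - Bz) = 1 - X * C z - Bz + X * (C z * Bz) := by ring
    rw [e]
    ext n
    rcases n with _ | _ | n
    · simp [sP, hBz]
    · simp [sP, hBz, coeff_succ_X_mul, gg, hxd, coeff_one]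
      ring
    · simp only [sP, hBz, map_add, map_sub, coeff_succ_X_mul, coeff_C_mul, coeff_mk, ht, coeff_C,
        if_neg (Nat.succ_ne_zero n)]
      ring
  have hN : sN bb = (1 - Bz) + (1 - X * C z) * Dz := by
    have e : (1 - Bz) + (1 - X * C z) * Dz = 1 - Bz + Dz - X * (C z * Dz) := by ring
    rw [e]
    ext n
    rcases n with _ | _ | n
    · simp [sN, hBz, hDz]
    · simp [sN, hBz, hDz, coeff_succ_X_mul, coeff_one]
    · simp only [sN, hBz, hDz, map_add, map_sub, coeff_succ_X_mul, coeff_C_mul, coeff_mk]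
      push_cast
      linear_combination ((n : ℂ) + 1) * ht n
  have hG : (PowerSeries.mk fun n => z ^ n) * (1 - X * C z) = 1 := by
    have e : (PowerSeries.mk fun n => z ^ n) * (1 - X * C z) =
        (PowerSeries.mk fun n => z ^ n) - X * (C z * PowerSeries.mk fun n => z ^ n) := by ring
    rw [e]
    ext n
    rcases n with _ | n
    · simp
    · simp [coeff_succ_X_mul, coeff_one, pow_succ']
  have hF : sN bb * sE bb (gg bb z) = (PowerSeries.mk fun n => z ^ n) + Az := by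
    have h1 := sP_mul_sE bb (gg bb z)
    rw [hP] at h1
    rw [hN]
    linear_combination ((PowerSeries.mk fun n => z ^ n) + Az) * h1 -
      (1 - Bz) * sE bb (gg bb z) * hG - (1 - X * C z) * sE bb (gg bb z) * hA
  have e : fab bb j (gg bb z) + kap bb j - z ^ (j + 1) / (j + 1) = coeff (j + 1) Az / (j + 1) := by
    rw [fab_eq, kap, hF, map_add, coeff_mk]
    ring
  rw [e]
  have h1 := (hasSum_nat_add_iff' 1).2 (evA (j + 1)).2
  simp only [range_one, sum_singleton] at h1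
  rw [show coeff 0 (coeff (j + 1) (sA bb)) = 0 from c2_sA_zero_left bb _, zero_mul, sub_zero] at h1
  have e2 : (fun i => gr bb i j * x ^ (i + 1)) = fun i =>
      coeff (i + 1) (coeff (j + 1) (sA bb)) * x ^ (i + 1) / ((j : ℂ) + 1) := by
    ext i
    rw [gr, c2]
    ring
  rw [e2]
  exact h1.div_const _

end

end Pool.Agent.Work.MP_a6a438_an
end

-- merged part: Pool.Agent.Work.MP_a6a438_an.Pencil
section
/-!
Infinite real-linear systems with exponentially small kernels, and the reduction of the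
eigenvalue pencil to one complex coordinate.
-/

set_option autoImplicit false

open Filter Topology BoundedContinuousFunction

namespace Pool.Agent.Work.MP_a6a438_an

section res

variable {E : Type} [NormedAddCommGroup E] [NormedSpace ℝ E] [CompleteSpace E]

/-- The Neumann series. -/
noncomputable def res (T : E →L[ℝ] E) : E →L[ℝ] E := ∑' n, T ^ n

lemma res_eq {T : E →L[ℝ] E} (hT : ‖T‖ ≤ 1 / 2) (v : E) : res T v = v + T (res T v) := by
  have h := congrArg (fun A : E →L[ℝ] E => A v) (mul_neg_geom_series T (by linarith only [hT]))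
  simp only [mul_apply_eq_comp, _root_.sub_apply, one_apply_eq_self] at h
  rw [res, ← sub_eq_iff_eq_add]
  exact h

omit [CompleteSpace E] in
lemma norm_le_of_fix {T : E →L[ℝ] E} (hT : ‖T‖ ≤ 1 / 2) {v y : E} (h : y = v + T y) :
    ‖y‖ ≤ 2 * ‖v‖ := by
  have h1 : ‖y‖ ≤ ‖v‖ + ‖T y‖ := by
    conv_lhs => rw [h]
    exact norm_add_le _ _
  have h2 := T.le_opNorm y
  have h3 : ‖T‖ * ‖y‖ ≤ 1 / 2 * ‖y‖ := by gcongr
  linarith only [h1, h2, h3]

lemma norm_res_le {T : E →L[ℝ] E} (hT : ‖T‖ ≤ 1 / 2) (v : E) : ‖res T v‖ ≤ 2 * ‖v‖ :=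
  norm_le_of_fix hT (res_eq hT v)

lemma eq_res {T : E →L[ℝ] E} (hT : ‖T‖ ≤ 1 / 2) {v y : E} (h : y = v + T y) : y = res T v := by
  have h1 : y - res T v = 0 + T (y - res T v) := by
    rw [map_sub, zero_add]
    conv_lhs => rw [h, res_eq hT v]
    abel
  have h2 := norm_le_of_fix hT h1
  rw [norm_zero, mul_zero, norm_le_zero_iff, sub_eq_zero] at h2
  exact h2

lemma continuous_res {Λ : Type} [TopologicalSpace Λ] {T : Λ → E →L[ℝ] E} (hc : Continuous T)
    (hT : ∀ l, ‖T l‖ ≤ 1 / 2) : Continuous fun l => res (T l) := by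
  refine continuous_tsum (u := fun n => (1 / 2 : ℝ) ^ n) (fun n => hc.pow n)
    summable_geometric_two fun n l => ?_
  rcases Nat.eq_zero_or_pos n with rfl | hn
  · rw [pow_zero, pow_zero]
    exact ContinuousLinearMap.norm_id_le
  · exact (norm_pow_le' _ hn).trans (pow_le_pow_left₀ (norm_nonneg _) (hT l) n)

end res

/-- Bounded complex sequences. -/
abbrev Seq : Type := ℕ →ᵇ ℂ

/-- Real-linear maps of the complex numbers. -/
abbrev Ent : Type := ℂ →L[ℝ] ℂ

/-- A bounded sequence from a bound. -/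
noncomputable def mkSeq (y : ℕ → ℂ) (C : ℝ) (h : ∀ i, ‖y i‖ ≤ C) : Seq :=
  ofNormedAddCommGroupDiscrete y C h

@[simp] lemma mkSeq_apply (y : ℕ → ℂ) (C : ℝ) (h : ∀ i, ‖y i‖ ≤ C) (i : ℕ) :
    mkSeq y C h i = y i := rfl

/-- The coordinate embeddings. -/
noncomputable def sgl (i : ℕ) : ℂ →L[ℝ] Seq :=
  (ContinuousLinearMap.id ℝ ℂ).smulRight
    (mkSeq (fun j => if j = i then 1 else 0) 1 fun j => by split_ifs <;> simp)

lemma sgl_apply (i : ℕ) (x : ℂ) (j : ℕ) : sgl i x j = if j = i then x else 0 := by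
  simp [sgl]

lemma norm_sgl_le (i : ℕ) (x : ℂ) : ‖sgl i x‖ ≤ ‖x‖ :=
  (norm_le (norm_nonneg _)).2 fun j => by
    rw [sgl_apply]; split_ifs <;> simp

lemma opNorm_sgl_le (i : ℕ) : ‖sgl i‖ ≤ 1 :=
  ContinuousLinearMap.opNorm_le_bound _ zero_le_one fun x => by
    simpa using norm_sgl_le i x

lemma opNorm_eval_le (j : ℕ) : ‖(evalCLM ℝ j : Seq →L[ℝ] ℂ)‖ ≤ 1 :=
  ContinuousLinearMap.opNorm_le_bound _ zero_le_one fun x => by
    simpa using x.norm_coe_le_norm j

lemma hasSum_quarter : HasSum (fun j : ℕ => (1 / 4 : ℝ) ^ j) (4 / 3) := by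
  have := hasSum_geometric_of_lt_one (r := 1 / 4) (by norm_num) (by norm_num)
  norm_num at this ⊢
  exact this

lemma sq_mul_quarter (i : ℕ) : ((i : ℝ) + 1) ^ 2 * (1 / 4) ^ i ≤ 1 := by
  induction i with
  | zero => simp
  | succ i ih =>
    have h0 : (0 : ℝ) ≤ i := Nat.cast_nonneg i
    have h1 : (0 : ℝ) < (1 / 4) ^ i := by positivity
    have h2 : ((i : ℝ) + 1 + 1) ^ 2 ≤ 4 * ((i : ℝ) + 1) ^ 2 := by linarith only [mul_nonneg_of_nonpos_of_nonpos (Mathlib.Tactic.Linarith.sub_nonpos_of_le (Mathlib.Tactic.Linarith.natCast_nonneg ℝ i)) (Mathlib.Tactic.Linarith.sub_nonpos_of_le (Mathlib.Tactic.Linarith.natCast_nonneg ℝ i))]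
    push_cast
    rw [pow_succ (1 / 4 : ℝ)]
    linarith only [ih, h1, h2, mul_nonneg_of_nonpos_of_nonpos (le_of_lt (Mathlib.Tactic.Linarith.sub_neg_of_lt h1)) (Mathlib.Tactic.Linarith.sub_nonpos_of_le h2)]

/-- The rows of a kernel. -/
noncomputable def row (B : ℕ → ℕ → Ent) (i : ℕ) : Seq →L[ℝ] ℂ :=
  ∑' j, (B i j).comp (evalCLM ℝ j)

/-- The operator of a kernel with multipliers. -/
noncomputable def opT (B : ℕ → ℕ → Ent) (μ : ℕ → ℝ) : Seq →L[ℝ] Seq :=
  ∑' i, (sgl i).comp (μ i • row B i)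

/-- Exponentially small kernels. -/
structure KB (B : ℕ → ℕ → Ent) (β ρ : ℝ) : Prop where
  β_nonneg : 0 ≤ β
  β_le : β ≤ 1 / 24
  ρ_nonneg : 0 ≤ ρ
  ρ_le : ρ ≤ 1 / 4
  bound : ∀ i j, ‖B i j‖ ≤ β * ρ ^ i * ρ ^ j

/-- Admissible multipliers. -/
def Mu (μ : ℕ → ℝ) : Prop := ∀ i : ℕ, |μ i| ≤ 6 * ((i : ℝ) + 1) ^ 2

namespace KB

variable {B : ℕ → ℕ → Ent} {β ρ : ℝ} (h : KB B β ρ)
include h

lemma term_le (i j : ℕ) :
    ‖(B i j).comp (evalCLM ℝ j : Seq →L[ℝ] ℂ)‖ ≤ β * ρ ^ i * (1 / 4) ^ j := by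
  have h1 := h.β_nonneg
  have h2 := h.ρ_nonneg
  calc _ ≤ ‖B i j‖ * 1 := (ContinuousLinearMap.opNorm_comp_le _ _).trans
        (mul_le_mul_of_nonneg_left (opNorm_eval_le j) (norm_nonneg _))
    _ ≤ β * ρ ^ i * ρ ^ j := by rw [mul_one]; exact h.bound i j
    _ ≤ _ := by gcongr; exact h.ρ_le

lemma summable_row (i : ℕ) : Summable fun j => (B i j).comp (evalCLM ℝ j : Seq →L[ℝ] ℂ) :=
  Summable.of_norm_bounded (hasSum_quarter.mul_left (β * ρ ^ i)).summable (h.term_le i)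

lemma hasSum_row (i : ℕ) (y : Seq) : HasSum (fun j => B i j (y j)) (row B i y) := by
  have h1 := (ContinuousLinearMap.apply ℝ ℂ y).hasSum (h.summable_row i).hasSum
  simp only [ContinuousLinearMap.apply_apply, ContinuousLinearMap.comp_apply, evalCLM_apply] at h1
  exact h1

lemma norm_row_le (i : ℕ) : ‖row B i‖ ≤ 2 * β * ρ ^ i := by
  have h1 := h.β_nonneg
  have h2 := h.ρ_nonneg
  have h3 := tsum_of_norm_bounded (hasSum_quarter.mul_left (β * ρ ^ i)) (h.term_le i)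
  have h4 : 0 ≤ β * ρ ^ i := by positivity
  unfold row
  linarith only [h3, h4]

lemma row_le_of {i : ℕ} {y : Seq} {c : ℝ} (hc : ∀ j, ‖B i j (y j)‖ ≤ c * (1 / 4) ^ j) :
    ‖row B i y‖ ≤ 4 / 3 * c := by
  rw [← (h.hasSum_row i y).tsum_eq, mul_comm]
  exact tsum_of_norm_bounded (hasSum_quarter.mul_left c) hc

lemma row_apply_le (i : ℕ) (y : Seq) : ‖row B i y‖ ≤ 2 * β * (1 / 4) ^ i * ‖y‖ := by
  have h1 := h.β_nonneg
  have h2 := h.ρ_nonneg
  refine ((row B i).le_opNorm y).trans ?_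
  gcongr
  refine (h.norm_row_le i).trans ?_
  gcongr
  exact h.ρ_le

lemma opT_term_le {μ : ℕ → ℝ} (hμ : Mu μ) (i : ℕ) :
    ‖(sgl i).comp (μ i • row B i)‖ ≤ 12 * β * (((i : ℝ) + 1) ^ 2 * (1 / 4) ^ i) := by
  have h1 := h.β_nonneg
  have h2 := h.ρ_nonneg
  calc _ ≤ 1 * (|μ i| * ‖row B i‖) := by
        refine (ContinuousLinearMap.opNorm_comp_le _ _).trans ?_
        rw [norm_smul, Real.norm_eq_abs]
        gcongr
        exact opNorm_sgl_le i
    _ ≤ 1 * (6 * ((i : ℝ) + 1) ^ 2 * (2 * β * (1 / 4) ^ i)) := by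
        gcongr
        · exact hμ i
        · refine (h.norm_row_le i).trans ?_
          gcongr
          exact h.ρ_le
    _ = _ := by ring

omit h in
lemma summable_sq_quarter : Summable fun i : ℕ => ((i : ℝ) + 1) ^ 2 * (1 / 4) ^ i := by
  have h1 := summable_pow_mul_geometric_of_norm_lt_one (r := (1 / 4 : ℝ)) 2 (by norm_num)
  have h2 := (summable_nat_add_iff 1).2 h1
  refine (h2.mul_left 4).congr fun i => ?_
  push_cast
  ring

lemma opT_apply {μ : ℕ → ℝ} (hμ : Mu μ) (y : Seq) (i : ℕ) :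
    opT B μ y i = μ i • row B i y := by
  have hs : Summable fun i => (sgl i).comp (μ i • row B i) :=
    Summable.of_norm_bounded (summable_sq_quarter.mul_left _) (h.opT_term_le hμ)
  have h1 := ((evalCLM ℝ i : Seq →L[ℝ] ℂ).comp (ContinuousLinearMap.apply ℝ Seq y)).hasSum
    hs.hasSum
  refine (h1.unique (hasSum_single i fun j hj => ?_)).trans ?_
  · simp [sgl_apply, Ne.symm hj]
  · simp [sgl_apply]

lemma norm_opT_le {μ : ℕ → ℝ} (hμ : Mu μ) : ‖opT B μ‖ ≤ 12 * β := by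
  have h1 := h.β_nonneg
  refine ContinuousLinearMap.opNorm_le_bound _ (by positivity) fun y => ?_
  refine (norm_le (by positivity)).2 fun i => ?_
  rw [h.opT_apply hμ, norm_smul, Real.norm_eq_abs]
  calc _ ≤ 6 * ((i : ℝ) + 1) ^ 2 * (2 * β * (1 / 4) ^ i * ‖y‖) := by
        gcongr
        · exact hμ i
        · exact h.row_apply_le i y
    _ = 12 * β * ‖y‖ * (((i : ℝ) + 1) ^ 2 * (1 / 4) ^ i) := by ring
    _ ≤ 12 * β * ‖y‖ * 1 := by gcongr; exact sq_mul_quarter i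
    _ = _ := mul_one _

lemma norm_opT_le_half {μ : ℕ → ℝ} (hμ : Mu μ) : ‖opT B μ‖ ≤ 1 / 2 := by
  have := h.norm_opT_le hμ
  have := h.β_le
  linarith

lemma eq_zero_of {μ : ℕ → ℝ} (hμ : Mu μ) {y : Seq} (hy : ∀ i, y i = μ i • row B i y) : y = 0 := by
  have h1 : y = 0 + opT B μ y := by
    ext i
    rw [zero_add, h.opT_apply hμ, hy]
  simpa using norm_le_of_fix (h.norm_opT_le_half hμ) h1

end KB

lemma continuous_row {Λ : Type} [TopologicalSpace Λ] {B : Λ → ℕ → ℕ → Ent} {β ρ : ℝ}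
    (h : ∀ l, KB (B l) β ρ) (hc : ∀ i j, Continuous fun l => B l i j) (i : ℕ) :
    Continuous fun l => row (B l) i := by
  unfold row
  exact continuous_tsum (f := fun j l => (B l i j).comp (evalCLM ℝ j : Seq →L[ℝ] ℂ))
    (fun j => (hc i j).clm_comp continuous_const)
    (hasSum_quarter.mul_left (β * ρ ^ i)).summable fun j l => (h l).term_le i j

lemma continuous_opT {Λ : Type} [TopologicalSpace Λ] {B : Λ → ℕ → ℕ → Ent} {β ρ : ℝ}
    (h : ∀ l, KB (B l) β ρ) (hc : ∀ i j, Continuous fun l => B l i j) {μ : ℕ → ℝ} (hμ : Mu μ) :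
    Continuous fun l => opT (B l) μ := by
  unfold opT
  exact continuous_tsum (f := fun i l => (sgl i).comp (μ i • row (B l) i))
    (fun i => continuous_const.clm_comp ((continuous_row h hc i).const_smul (μ i)))
    (KB.summable_sq_quarter.mul_left _) fun i l => (h l).opT_term_le hμ i

/-- The multipliers of the pencil. -/
noncomputable def mu (σ : ℝ) (i : ℕ) : ℝ := ((i : ℝ) + 1) * (i + 1 + σ) / (i + 1 - σ)

/-- The multipliers off one coordinate. -/
noncomputable def muk (k : ℕ) (σ : ℝ) (i : ℕ) : ℝ := if i = k then 0 else mu σ i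

/-- The window about the mode `k + 1`. -/
def Win (k : ℕ) (σ : ℝ) : Prop := (k : ℝ) + 1 / 2 ≤ σ ∧ σ ≤ k + 3 / 2

lemma Win.half_le {k : ℕ} {σ : ℝ} (hσ : Win k σ) {i : ℕ} (hi : i ≠ k) :
    1 / 2 ≤ |(i : ℝ) + 1 - σ| := by
  obtain ⟨h1, h2⟩ := hσ
  rcases lt_or_gt_of_ne hi with h | h
  · have : (i : ℝ) + 1 ≤ k := by exact_mod_cast h
    rw [le_abs]; right; linarith only [h1, this]
  · have : (k : ℝ) + 1 ≤ i := by exact_mod_cast h
    rw [le_abs]; left; linarith only [h2, this]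

lemma abs_mu_le {σ : ℝ} {i : ℕ} (h : 1 / 2 ≤ |(i : ℝ) + 1 - σ|) :
    |mu σ i| ≤ 6 * ((i : ℝ) + 1) ^ 2 := by
  have h0 : (0 : ℝ) ≤ i := Nat.cast_nonneg i
  rw [mu, abs_div, div_le_iff₀ (by linarith only [h]), abs_mul, abs_of_pos (by positivity)]
  have h1 : |(i : ℝ) + 1 + σ| ≤ |(i : ℝ) + 1 - σ| + 2 * (i + 1) := by
    have e : (i : ℝ) + 1 + σ = -((i : ℝ) + 1 - σ) + 2 * (i + 1) := by ring
    rw [e]
    refine (abs_add_le _ _).trans ?_
    rw [abs_neg, abs_of_pos (by positivity : (0 : ℝ) < 2 * (i + 1))]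
  have h2 : |(i : ℝ) + 1 + σ| ≤ 6 * (i + 1) * |(i : ℝ) + 1 - σ| := by linarith only [h, h1, mul_nonneg_of_nonpos_of_nonpos (Mathlib.Tactic.Linarith.sub_nonpos_of_le (Mathlib.Tactic.Linarith.natCast_nonneg ℝ i)) (Mathlib.Tactic.Linarith.sub_nonpos_of_le h)]
  calc _ ≤ ((i : ℝ) + 1) * (6 * (i + 1) * |(i : ℝ) + 1 - σ|) := by gcongr
    _ = _ := by ring

lemma Win.mu_muk {k : ℕ} {σ : ℝ} (hσ : Win k σ) : Mu (muk k σ) := fun i => by
  unfold muk
  split_ifs with hi
  · simp only [abs_zero]; positivity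
  · exact abs_mu_le (hσ.half_le hi)

lemma Win.muk_sub {k : ℕ} {σ σ' : ℝ} (hσ : Win k σ) (hσ' : Win k σ') (i : ℕ) :
    |muk k σ i - muk k σ' i| ≤ 8 * ((i : ℝ) + 1) ^ 2 * |σ - σ'| := by
  unfold muk
  split_ifs with hi
  · simp only [sub_self, abs_zero]; positivity
  · have h1 := hσ.half_le hi
    have h2 := hσ'.half_le hi
    have h3 : (i : ℝ) + 1 - σ ≠ 0 := abs_pos.1 (by linarith only [h1])
    have h4 : (i : ℝ) + 1 - σ' ≠ 0 := abs_pos.1 (by linarith only [h2])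
    have e : mu σ i - mu σ' i =
        2 * ((i : ℝ) + 1) ^ 2 * (σ - σ') / (((i : ℝ) + 1 - σ) * ((i : ℝ) + 1 - σ')) := by
      unfold mu; field_simp; ring
    have h5 : 1 / 4 ≤ |(i : ℝ) + 1 - σ| * |(i : ℝ) + 1 - σ'| := by linarith only [h1, h2, mul_nonneg_of_nonpos_of_nonpos (Mathlib.Tactic.Linarith.sub_nonpos_of_le h1) (Mathlib.Tactic.Linarith.sub_nonpos_of_le h2)]
    rw [e, abs_div, abs_mul, abs_mul ((i : ℝ) + 1 - σ), abs_of_nonneg (by positivity),
      div_le_iff₀ (by linarith only [h5])]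
    have h6 : 0 ≤ ((i : ℝ) + 1) ^ 2 * |σ - σ'| := by positivity
    linarith only [h5, h6, mul_nonneg_of_nonpos_of_nonpos (Mathlib.Tactic.Linarith.sub_nonpos_of_le h5) (Mathlib.Tactic.Linarith.sub_nonpos_of_le h6)]

/-- The solution of the pencil off the coordinate `k`. -/
noncomputable def sol (B : ℕ → ℕ → Ent) (k : ℕ) (σ : ℝ) : ℂ →L[ℝ] Seq :=
  (res (opT B (muk k σ))).comp (sgl k)

/-- The effective two by two matrix. -/
noncomputable def eff (B : ℕ → ℕ → Ent) (k : ℕ) (σ : ℝ) : Ent := (row B k).comp (sol B k σ)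

lemma continuous_eff {Λ : Type} [TopologicalSpace Λ] {B : Λ → ℕ → ℕ → Ent} {β ρ : ℝ}
    (h : ∀ l, KB (B l) β ρ) (hc : ∀ i j, Continuous fun l => B l i j) {k : ℕ} {σ : ℝ}
    (hσ : Win k σ) : Continuous fun l => eff (B l) k σ :=
  (continuous_row h hc k).clm_comp ((continuous_res (continuous_opT h hc hσ.mu_muk)
    fun l => (h l).norm_opT_le_half hσ.mu_muk).clm_comp continuous_const)

/-- The pencil. -/
def Pen (B : ℕ → ℕ → Ent) (σ : ℝ) (y : Seq) : Prop :=
  ∀ i : ℕ, ((i : ℝ) + 1 - σ) • y i = (((i : ℝ) + 1) * (i + 1 + σ)) • row B i y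

/-- The diagonal coefficient. -/
noncomputable def dd (k : ℕ) (σ : ℝ) : ℝ := ((k : ℝ) + 1 - σ) / (((k : ℝ) + 1) * (k + 1 + σ))

namespace KB

variable {B : ℕ → ℕ → Ent} {β ρ : ℝ} (h : KB B β ρ) {k : ℕ} {σ : ℝ} (hσ : Win k σ)
include h hσ

lemma sol_apply (x : ℂ) (j : ℕ) :
    sol B k σ x j = (if j = k then x else 0) + muk k σ j • row B j (sol B k σ x) := by
  have h1 := res_eq (h.norm_opT_le_half hσ.mu_muk) (sgl k x)
  have h2 : sol B k σ x = res (opT B (muk k σ)) (sgl k x) := rfl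
  rw [← h2] at h1
  rw [← sgl_apply, ← h.opT_apply hσ.mu_muk]
  conv_lhs => rw [h1]
  rfl

lemma sol_self (x : ℂ) : sol B k σ x k = x := by
  rw [h.sol_apply hσ]; simp [muk]

lemma pen_iff (y : Seq) :
    Pen B σ y ↔ y = sol B k σ (y k) ∧ dd k σ • y k = eff B k σ (y k) := by
  have hk : (0 : ℝ) ≤ k := Nat.cast_nonneg k
  have hs : 0 < σ := by linarith only [hσ, hσ.1]
  have h0 : ((k : ℝ) + 1) * (k + 1 + σ) ≠ 0 := by positivity
  have hne : ∀ i : ℕ, i ≠ k → (i : ℝ) + 1 - σ ≠ 0 := fun i hi =>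
    abs_pos.1 (by linarith only [hσ, hi, hσ.half_le hi])
  constructor
  · intro hy
    have h1 : y = sol B k σ (y k) := by
      refine eq_res (v := sgl k (y k)) (h.norm_opT_le_half hσ.mu_muk) ?_
      ext i
      rw [BoundedContinuousFunction.add_apply, h.opT_apply hσ.mu_muk, sgl_apply, muk]
      split_ifs with hi
      · simp [hi]
      · rw [zero_add, mu, div_eq_inv_mul, mul_smul, ← hy i, inv_smul_smul₀ (hne i hi)]
    refine ⟨h1, ?_⟩
    rw [eff, ContinuousLinearMap.comp_apply, ← h1, dd, div_eq_inv_mul, mul_smul, hy k,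
      inv_smul_smul₀ h0]
  · rintro ⟨h1, h2⟩ i
    by_cases hi : i = k
    · subst hi
      rw [eff, ContinuousLinearMap.comp_apply, ← h1] at h2
      rw [← h2, dd, smul_smul, mul_div_cancel₀ _ h0]
    · have h3 := h.sol_apply hσ (y k) i
      rw [← h1, if_neg hi, zero_add, muk, if_neg hi] at h3
      rw [h3, mu, smul_smul, mul_div_cancel₀ _ (hne i hi)]

variable {ω : ℝ} (hω : 0 ≤ ω) (hr : ∀ j, j ≠ k → ‖B k j‖ ≤ ω * (1 / 4) ^ j)
  (hc : ∀ j, j ≠ k → ‖B j k‖ ≤ ω * (1 / 4) ^ j)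

omit hσ in
lemma row_sgl (j : ℕ) (x : ℂ) : row B j (sgl k x) = B j k x := by
  refine ((h.hasSum_row j _).unique (hasSum_single k
    fun m hm => by rw [sgl_apply, if_neg hm, map_zero])).trans ?_
  rw [sgl_apply, if_pos rfl]

include hω hc in
lemma norm_sol_sub_le (x : ℂ) : ‖sol B k σ x - sgl k x‖ ≤ 12 * ω * ‖x‖ := by
  have h1 : sol B k σ x - sgl k x =
      opT B (muk k σ) (sgl k x) + opT B (muk k σ) (sol B k σ x - sgl k x) := by
    rw [← map_add, add_sub_cancel, sub_eq_iff_eq_add']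
    exact res_eq (h.norm_opT_le_half hσ.mu_muk) (sgl k x)
  have h2 : ‖opT B (muk k σ) (sgl k x)‖ ≤ 6 * ω * ‖x‖ := by
    refine (norm_le (by positivity)).2 fun j => ?_
    rw [h.opT_apply hσ.mu_muk, h.row_sgl, norm_smul, Real.norm_eq_abs]
    by_cases hj : j = k
    · simp only [muk, hj, if_true, abs_zero, zero_mul]; positivity
    · calc _ ≤ 6 * ((j : ℝ) + 1) ^ 2 * (ω * (1 / 4) ^ j * ‖x‖) := by
            gcongr
            · exact hσ.mu_muk j
            · exact ((B j k).le_opNorm x).trans (by gcongr; exact hc j hj)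
        _ = 6 * ω * ‖x‖ * (((j : ℝ) + 1) ^ 2 * (1 / 4) ^ j) := by ring
        _ ≤ 6 * ω * ‖x‖ * 1 := by gcongr; exact sq_mul_quarter j
        _ = _ := mul_one _
  linarith only [h2, h, hσ, h1, norm_le_of_fix (h.norm_opT_le_half hσ.mu_muk) h1]

omit hσ in
include hω hr in
lemma row_off_le {y : Seq} (hy : y k = 0) : ‖row B k y‖ ≤ 4 / 3 * (ω * ‖y‖) := by
  refine h.row_le_of fun j => ?_
  by_cases hj : j = k
  · rw [hj, hy, map_zero, norm_zero]; positivity
  · calc _ ≤ ω * (1 / 4) ^ j * ‖y‖ := ((B k j).le_opNorm _).trans (by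
          gcongr
          · exact hr j hj
          · exact y.norm_coe_le_norm j)
      _ = _ := by ring

omit hσ in
lemma eff_eq (x : ℂ) : eff B k σ x = B k k x + row B k (sol B k σ x - sgl k x) := by
  rw [map_sub, h.row_sgl, add_sub_cancel]
  rfl

lemma sol_sub_self (x : ℂ) : (sol B k σ x - sgl k x) k = 0 := by
  rw [BoundedContinuousFunction.sub_apply, h.sol_self hσ, sgl_apply, if_pos rfl, sub_self]

include hω hr hc in
lemma eff_crude : ‖eff B k σ - B k k‖ ≤ 16 * ω ^ 2 := by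
  refine ContinuousLinearMap.opNorm_le_bound _ (by positivity) fun x => ?_
  rw [_root_.sub_apply, h.eff_eq, add_sub_cancel_left]
  refine (h.row_off_le hω hr (h.sol_sub_self hσ x)).trans ?_
  have := mul_le_mul_of_nonneg_left (h.norm_sol_sub_le hσ hω hc x) hω
  linarith only [this]

include hω hc in
lemma eff_fine (hk : k ≠ 0) (hr' : ∀ j, j ≠ k → ‖B k j‖ ≤ ω * ρ ^ j) :
    ‖eff B k σ - B k k - mu σ 0 • (B k 0).comp (B 0 k)‖ ≤ (144 * β + 64 * ρ) * ω ^ 2 := by
  have hβ := h.β_nonneg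
  have hρ := h.ρ_nonneg
  refine ContinuousLinearMap.opNorm_le_bound _ (by positivity) fun x => ?_
  set y := sol B k σ x - sgl k x with hy
  have hyn : ‖y‖ ≤ 12 * ω * ‖x‖ := h.norm_sol_sub_le hσ hω hc x
  have hy0 : y 0 = mu σ 0 • B 0 k x + mu σ 0 • row B 0 y := by
    rw [hy, map_sub, h.row_sgl, BoundedContinuousFunction.sub_apply, h.sol_apply hσ, sgl_apply,
      muk, if_neg hk.symm, if_neg hk.symm, smul_sub]
    abel
  have hsplit : row B k y = B k 0 (y 0) + row B k (y - sgl 0 (y 0)) := by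
    rw [map_sub (row B k) y, h.row_sgl, add_sub_cancel]
  have e : (eff B k σ - B k k - mu σ 0 • (B k 0).comp (B 0 k)) x =
      B k 0 (mu σ 0 • row B 0 y) + row B k (y - sgl 0 (y 0)) := by
    rw [_root_.sub_apply, _root_.sub_apply, h.eff_eq, ← hy, hsplit]
    have e2 : B k 0 (y 0) = mu σ 0 • B k 0 (B 0 k x) + B k 0 (mu σ 0 • row B 0 y) := by
      rw [hy0, map_add, map_smul]
    rw [e2, _root_.smul_apply, ContinuousLinearMap.comp_apply]
    abel
  have h1 : ‖B k 0 (mu σ 0 • row B 0 y)‖ ≤ ω * (6 * (2 * β * (12 * ω * ‖x‖))) := by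
    refine ((B k 0).le_opNorm _).trans ?_
    have h2 := hr' 0 hk.symm
    have h3 := hσ.mu_muk 0
    have h4 := h.row_apply_le 0 y
    simp only [pow_zero, mul_one, muk, if_neg hk.symm, Nat.cast_zero, zero_add, one_pow] at h2 h3 h4
    rw [norm_smul, Real.norm_eq_abs]
    gcongr
    exact h4.trans (by gcongr)
  have h2 : ‖row B k (y - sgl 0 (y 0))‖ ≤ 4 / 3 * (4 * ρ * ω * (12 * ω * ‖x‖)) := by
    refine h.row_le_of fun j => ?_
    rw [BoundedContinuousFunction.sub_apply, sgl_apply]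
    by_cases hj : j = k
    · rw [hj, if_neg hk, hy, h.sol_sub_self hσ, sub_zero, map_zero, norm_zero]; positivity
    rcases j with _ | j
    · simp only [if_true, sub_self, map_zero, norm_zero]; positivity
    · rw [if_neg (Nat.succ_ne_zero j), sub_zero]
      calc _ ≤ ω * ρ ^ (j + 1) * (12 * ω * ‖x‖) := ((B k (j + 1)).le_opNorm _).trans (by
            gcongr
            · exact hr' _ hj
            · exact (y.norm_coe_le_norm _).trans hyn)
        _ = ρ * ω * (12 * ω * ‖x‖) * ρ ^ j := by ring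
        _ ≤ ρ * ω * (12 * ω * ‖x‖) * (1 / 4) ^ j := by gcongr; exact h.ρ_le
        _ = _ := by ring
  rw [e]
  refine (norm_add_le _ _).trans ?_
  linarith only [h1, h2]

include hω hr hc in
lemma eff_lip {σ' : ℝ} (hσ' : Win k σ') :
    ‖eff B k σ - eff B k σ'‖ ≤ 43 * ω ^ 2 * |σ - σ'| := by
  have hβ := h.β_nonneg
  have hβ' := h.β_le
  refine ContinuousLinearMap.opNorm_le_bound _ (by positivity) fun x => ?_
  set D := sol B k σ x - sol B k σ' x with hD
  set v := opT B (muk k σ) (sol B k σ' x) - opT B (muk k σ') (sol B k σ' x) with hv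
  have h1 : D = v + opT B (muk k σ) D := by
    have e1 := res_eq (h.norm_opT_le_half hσ.mu_muk) (sgl k x)
    have e2 := res_eq (h.norm_opT_le_half hσ'.mu_muk) (sgl k x)
    change sol B k σ x = sgl k x + opT B (muk k σ) (sol B k σ x) at e1
    change sol B k σ' x = sgl k x + opT B (muk k σ') (sol B k σ' x) at e2
    rw [hv, hD, map_sub]
    conv_lhs => rw [e1, e2]
    abel
  have h2 : ‖v‖ ≤ 16 * ω * |σ - σ'| * ‖x‖ := by
    refine (norm_le (by positivity)).2 fun j => ?_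
    rw [hv, BoundedContinuousFunction.sub_apply, h.opT_apply hσ.mu_muk, h.opT_apply hσ'.mu_muk,
      ← sub_smul, norm_smul, Real.norm_eq_abs]
    by_cases hj : j = k
    · simp only [muk, hj, if_true, sub_self, abs_zero, zero_mul]; positivity
    have h3 : ‖row B j (sol B k σ' x)‖ ≤ 2 * ω * ‖x‖ * (1 / 4) ^ j := by
      have e : row B j (sol B k σ' x) = B j k x + row B j (sol B k σ' x - sgl k x) := by
        rw [map_sub, h.row_sgl, add_sub_cancel]
      have h4 : ‖B j k x‖ ≤ ω * (1 / 4) ^ j * ‖x‖ :=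
        ((B j k).le_opNorm x).trans (by gcongr; exact hc j hj)
      have h5 : ‖row B j (sol B k σ' x - sgl k x)‖ ≤
          2 * (1 / 24) * (1 / 4) ^ j * (12 * ω * ‖x‖) :=
        (h.row_apply_le j _).trans (by gcongr; exact h.norm_sol_sub_le hσ' hω hc x)
      rw [e]
      refine (norm_add_le _ _).trans ?_
      linarith only [h4, h5]
    calc _ ≤ 8 * ((j : ℝ) + 1) ^ 2 * |σ - σ'| * (2 * ω * ‖x‖ * (1 / 4) ^ j) := by
          gcongr
          exact hσ.muk_sub hσ' j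
      _ = 16 * ω * |σ - σ'| * ‖x‖ * (((j : ℝ) + 1) ^ 2 * (1 / 4) ^ j) := by ring
      _ ≤ 16 * ω * |σ - σ'| * ‖x‖ * 1 := by gcongr; exact sq_mul_quarter j
      _ = _ := mul_one _
  have h3 := norm_le_of_fix (h.norm_opT_le_half hσ.mu_muk) h1
  have h4 : D k = 0 := by
    rw [hD, BoundedContinuousFunction.sub_apply, h.sol_self hσ, h.sol_self hσ', sub_self]
  have e : (eff B k σ - eff B k σ') x = row B k D := by
    rw [hD, map_sub]; rfl
  rw [e]
  refine (h.row_off_le hω hr h4).trans ?_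
  have h5 : ω * ‖D‖ ≤ ω * (2 * (16 * ω * |σ - σ'| * ‖x‖)) := by gcongr; linarith only [h2, h3]
  have h6 : 0 ≤ ω ^ 2 * |σ - σ'| * ‖x‖ := by positivity
  linarith only [h5, h6]

end KB

end Pool.Agent.Work.MP_a6a438_an
end

-- merged part: Pool.Agent.Work.MP_a6a438_an.Handles
section
/-!
Harmonic functions invariant under the gluing maps of small handles.
-/

set_option autoImplicit false

open Complex Metric Finset InnerProductSpace
open scoped Real

namespace Pool.Agent.Work.MP_a6a438_an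

/-- Continuous functions on a closed disc. -/
abbrev YY (ρ : ℝ) : Type := C(closedBall (0 : ℂ) ρ, ℂ)

/-- The radial retraction onto a closed disc. -/
noncomputable def ret {ρ : ℝ} (hρ : 0 < ρ) : C(ℂ, closedBall (0 : ℂ) ρ) where
  toFun w := ⟨(ρ / max ρ ‖w‖) • w, by
    have h : 0 < max ρ ‖w‖ := lt_max_of_lt_left hρ
    rw [mem_closedBall_zero_iff, norm_smul, Real.norm_eq_abs, abs_of_pos (by positivity),
      div_mul_eq_mul_div, div_le_iff₀ h]
    gcongr
    exact le_max_right _ _⟩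
  continuous_toFun := by
    refine Continuous.subtype_mk (Continuous.smul (continuous_const.div (by fun_prop)
      fun w => (lt_max_of_lt_left hρ).ne') continuous_id) _

lemma ret_eq {ρ : ℝ} (hρ : 0 < ρ) {w : ℂ} (hw : ‖w‖ ≤ ρ) : (ret hρ w : ℂ) = w := by
  change (ρ / max ρ ‖w‖) • w = w
  rw [max_eq_left hw, div_self hρ.ne', one_smul]

lemma quarter_pos : (0 : ℝ) < 1 / 4 := by norm_num

/-- Functions on the small disc, extended to the plane. -/
noncomputable def evX (Γ : YY (1 / 4)) (w : ℂ) : ℂ := Γ (ret quarter_pos w)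

/-- Functions on the large disc, extended to the plane. -/
noncomputable def evY (φ : YY 2) (w : ℂ) : ℂ := φ (ret two_pos w)

lemma continuous_evX (Γ : YY (1 / 4)) : Continuous (evX Γ) :=
  Γ.continuous.comp (ret quarter_pos).continuous

lemma continuous_evY (φ : YY 2) : Continuous (evY φ) :=
  φ.continuous.comp (ret two_pos).continuous

lemma norm_evY_le (φ : YY 2) (w : ℂ) : ‖evY φ w‖ ≤ ‖φ‖ := φ.norm_coe_le_norm _

/-- Integration over the small circle against a kernel. -/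
noncomputable def ci (k : ℂ → ℂ) (Γ : YY (1 / 4)) : ℂ :=
  (2 * π * I : ℂ)⁻¹ • ∮ ξ in C(0, 1 / 4), k ξ * evX Γ ξ

lemma ci_int {k : ℂ → ℂ} (hk : ContinuousOn k (sphere 0 (1 / 4))) (Γ : YY (1 / 4)) :
    CircleIntegrable (fun ξ => k ξ * evX Γ ξ) 0 (1 / 4) :=
  (hk.mul (continuous_evX Γ).continuousOn).circleIntegrable quarter_pos.le

lemma ci_add {k : ℂ → ℂ} (hk : ContinuousOn k (sphere 0 (1 / 4))) (Γ Γ' : YY (1 / 4)) :
    ci k (Γ + Γ') = ci k Γ + ci k Γ' := by
  rw [ci, ci, ci, ← smul_add, ← circleIntegral.integral_add (ci_int hk Γ) (ci_int hk Γ')]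
  simp only [evX, ContinuousMap.add_apply, mul_add]

lemma ci_smul (k : ℂ → ℂ) (r : ℝ) (Γ : YY (1 / 4)) : ci k (r • Γ) = r • ci k Γ := by
  simp only [ci, evX, ContinuousMap.smul_apply, mul_smul_comm, circleIntegral.integral_smul]
  rw [smul_comm]

lemma ci_kadd {k k' : ℂ → ℂ} (hk : ContinuousOn k (sphere 0 (1 / 4)))
    (hk' : ContinuousOn k' (sphere 0 (1 / 4))) (Γ : YY (1 / 4)) :
    ci (fun ξ => k ξ + k' ξ) Γ = ci k Γ + ci k' Γ := by
  rw [ci, ci, ci, ← smul_add, ← circleIntegral.integral_add (ci_int hk Γ) (ci_int hk' Γ)]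
  simp only [add_mul]

lemma ci_ksmul (k : ℂ → ℂ) (r : ℝ) (Γ : YY (1 / 4)) :
    ci (fun ξ => r • k ξ) Γ = r • ci k Γ := by
  simp only [ci, smul_mul_assoc, circleIntegral.integral_smul]
  rw [smul_comm]

lemma ci_congr {k k' : ℂ → ℂ} (h : ∀ ξ ∈ sphere (0 : ℂ) (1 / 4), k ξ = k' ξ) (Γ : YY (1 / 4)) :
    ci k Γ = ci k' Γ := by
  rw [ci, ci, circleIntegral.integral_congr quarter_pos.le fun ξ hξ => by rw [h ξ hξ]]

lemma norm_ci_le {k : ℂ → ℂ} {M : ℝ} (h : ∀ ξ ∈ sphere (0 : ℂ) (1 / 4), ‖k ξ‖ ≤ M)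
    (Γ : YY (1 / 4)) : ‖ci k Γ‖ ≤ M / 4 * ‖Γ‖ := by
  have := circleIntegral.norm_two_pi_i_inv_smul_integral_le_of_norm_le_const
    (f := fun ξ => k ξ * evX Γ ξ) (c := 0) (C := M * ‖Γ‖) quarter_pos.le fun ξ hξ => by
      rw [norm_mul]
      exact mul_le_mul (h ξ hξ) (Γ.norm_coe_le_norm _) (norm_nonneg _)
        ((norm_nonneg _).trans (h ξ hξ))
  rw [ci]
  linarith only [this]

/-- The Cauchy integral. -/
noncomputable def cau (Γ : YY (1 / 4)) (ξ' : ℂ) : ℂ := ci (fun ξ => (ξ - ξ')⁻¹) Γ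

lemma cau_ker {ξ' : ℂ} (h : ‖ξ'‖ < 1 / 4) :
    ContinuousOn (fun ξ : ℂ => (ξ - ξ')⁻¹) (sphere 0 (1 / 4)) :=
  ContinuousOn.inv₀ (by fun_prop) fun ξ hξ h0 => by
    rw [mem_sphere_zero_iff_norm, sub_eq_zero.1 h0] at hξ
    linarith only [h, hξ]

lemma cau_analytic (Γ : YY (1 / 4)) {ξ' : ℂ} (h : ‖ξ'‖ < 1 / 4) : AnalyticAt ℂ (cau Γ) ξ' := by
  have h1 := hasFPowerSeriesOn_cauchy_integral (f := evX Γ) (c := 0) (R := ⟨1 / 4, quarter_pos.le⟩)
    ((continuous_evX Γ).continuousOn.circleIntegrable quarter_pos.le) quarter_pos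
  refine h1.analyticAt_of_mem ?_
  rw [Metric.eball_coe]
  exact mem_ball_zero_iff.2 h

lemma cau_eq {Γ : YY (1 / 4)} {g : ℂ → ℂ} (hg : ∀ ξ, ‖ξ‖ ≤ 1 / 4 → DifferentiableAt ℂ g ξ)
    (h : ∀ ξ, Γ ξ = g ξ) {ξ' : ℂ} (h' : ‖ξ'‖ < 1 / 4) : cau Γ ξ' = g ξ' := by
  rw [← two_pi_I_inv_smul_circleIntegral_sub_inv_smul_of_differentiable_on_off_countable
    (R := 1 / 4) (c := 0) Set.countable_empty (by simpa using h')
    (fun ξ hξ => (hg ξ (by simpa using hξ)).continuousAt.continuousWithinAt)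
    (fun ξ hξ => hg ξ (le_of_lt (by simpa using hξ))), cau, ci,
    circleIntegral.integral_congr quarter_pos.le]
  intro ξ hξ
  simp only [evX, h, smul_eq_mul]
  rw [ret_eq _ (mem_sphere_zero_iff_norm.1 hξ).le]

lemma norm_cau_zero_le (Γ : YY (1 / 4)) : ‖cau Γ 0‖ ≤ ‖Γ‖ := by
  have := norm_ci_le (k := fun ξ => (ξ - 0)⁻¹) (M := 4) (fun ξ hξ => by
    rw [sub_zero, norm_inv, mem_sphere_zero_iff_norm.1 hξ]; norm_num) Γ
  rw [cau]
  linarith only [this]

/-- A configuration of small handles. -/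
structure Cfg (P : Type) [Fintype P] where
  bar : P → P
  bar_bar : ∀ p, bar (bar p) = p
  c : P → ℂ
  norm_c : ∀ p, ‖c p‖ ≤ 1
  sep : ∀ p q, p ≠ q → 5 / 4 ≤ ‖c p - c q‖
  card : Fintype.card P ≤ 4
  ε : ℝ
  τ : ℝ
  ε_pos : 0 < ε
  τ_pos : 0 < τ
  τ_le : τ ≤ 1 / 100
  log_ε : 2 * τ * Real.log ε = -1
  ε_sq : ε ^ 2 ≤ 2 * τ ^ 2

namespace Cfg

variable {P : Type} [Fintype P] [DecidableEq P] (C : Cfg P)

omit [DecidableEq P] in
lemma ε_sq_le : C.ε ^ 2 ≤ 1 / 5000 := by (refine le_of_not_gt fun h_nl => ?_; linarith only [h_nl, C.ε_sq, C.τ_le, C.τ_pos, mul_nonneg_of_nonpos_of_nonpos (Mathlib.Tactic.Linarith.sub_nonpos_of_le (sq_nonneg C.ε)) (Mathlib.Tactic.Linarith.sub_nonpos_of_le C.τ_le), mul_pos_of_neg_of_neg (Mathlib.Tactic.Linarith.sub_neg_of_lt h_nl) (Mathlib.Tactic.Linarith.sub_neg_of_lt C.τ_pos), mul_nonneg_of_nonpos_of_nonpos (Mathlib.Tactic.Linarith.sub_nonpos_of_le C.τ_le) (le_of_lt (Mathlib.Tactic.Linarith.sub_neg_of_lt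 C.τ_pos))])

omit [DecidableEq P] in
lemma ε_le : C.ε ≤ 1 / 64 := by (refine le_of_not_gt fun h_nl => ?_; linarith only [h_nl, C.ε_sq_le, C.ε_pos, mul_pos_of_neg_of_neg (Mathlib.Tactic.Linarith.sub_neg_of_lt h_nl) (Mathlib.Tactic.Linarith.sub_neg_of_lt h_nl)])

omit [DecidableEq P] in
include C in
lemma sum_le {f : P → ℝ} {S : Finset P} {M : ℝ} (hM : 0 ≤ M) (h : ∀ p ∈ S, f p ≤ M) :
    ∑ p ∈ S, f p ≤ 4 * M := by
  refine (sum_le_card_nsmul S f M h).trans ?_
  rw [nsmul_eq_mul]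
  gcongr
  exact_mod_cast (card_le_univ S).trans C.card

/-- The part of the correction that is holomorphic outside a small disc. -/
noncomputable def hh (p : P) (Γ : P → YY (1 / 4)) (w : ℂ) : ℂ :=
  cau (Γ (C.bar p)) ((C.ε : ℂ) ^ 2 / (w - C.c p)) - cau (Γ (C.bar p)) 0

/-- The flux through a handle. -/
noncomputable def ee (p : P) (Γ : P → YY (1 / 4)) : ℝ :=
  C.τ * ((cau (Γ p) 0).re - (cau (Γ (C.bar p)) 0).re)

/-- A holomorphic logarithm. -/
noncomputable def ell (p q : P) (ξ : ℂ) : ℂ :=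
  Real.log ‖C.c p - C.c q‖ + log (1 + ξ / (C.c p - C.c q))

/-- The interaction between the handles. -/
noncomputable def kfun (Γ : P → YY (1 / 4)) (p : P) (ξ : ℂ) : ℂ :=
  ∑ q ∈ univ.erase p, (C.hh q Γ (C.c p + ξ) + C.ee q Γ * C.ell p q ξ)

/-- The correction. -/
noncomputable def vh (Γ : P → YY (1 / 4)) (w : ℂ) : ℝ :=
  ∑ p, ((C.hh p Γ w).re + C.ee p Γ * Real.log ‖w - C.c p‖)

omit [DecidableEq P] in
lemma small {u : ℂ} (hu : 4 * C.ε ^ 2 < ‖u‖) : ‖(C.ε : ℂ) ^ 2 / u‖ < 1 / 4 := by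
  have h0 : 0 < ‖u‖ := lt_of_le_of_lt (by positivity) hu
  rw [norm_div, norm_pow, norm_real, Real.norm_eq_abs, sq_abs, div_lt_iff₀ h0]
  linarith only [hu]

omit [DecidableEq P] in
lemma hh_analytic (p : P) (Γ : P → YY (1 / 4)) {w : ℂ} (hw : 4 * C.ε ^ 2 < ‖w - C.c p‖) :
    AnalyticAt ℂ (C.hh p Γ) w := by
  have h0 : w - C.c p ≠ 0 := norm_pos_iff.1 (lt_of_le_of_lt (by positivity) hw)
  have h1 : AnalyticAt ℂ (fun w => (C.ε : ℂ) ^ 2 / (w - C.c p)) w :=
    analyticAt_const.div (analyticAt_id.sub analyticAt_const) h0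
  have h2 : AnalyticAt ℂ (fun w => cau (Γ (C.bar p)) ((C.ε : ℂ) ^ 2 / (w - C.c p))) w :=
    AnalyticAt.comp (f := fun w => (C.ε : ℂ) ^ 2 / (w - C.c p)) (cau_analytic _ (C.small hw)) h1
  exact h2.sub analyticAt_const

omit [DecidableEq P] in
lemma hh_add (p : P) (Γ Γ' : P → YY (1 / 4)) {w : ℂ} (hw : 4 * C.ε ^ 2 < ‖w - C.c p‖) :
    C.hh p (Γ + Γ') w = C.hh p Γ w + C.hh p Γ' w := by
  simp only [hh, cau, Pi.add_apply]
  rw [ci_add (cau_ker (C.small hw)), ci_add (cau_ker (by norm_num))]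
  ring

omit [DecidableEq P] in
lemma hh_smul (p : P) (r : ℝ) (Γ : P → YY (1 / 4)) (w : ℂ) :
    C.hh p (r • Γ) w = r • C.hh p Γ w := by
  simp only [hh, cau, Pi.smul_apply, ci_smul, smul_sub]

omit [DecidableEq P] in
lemma ee_add (p : P) (Γ Γ' : P → YY (1 / 4)) : C.ee p (Γ + Γ') = C.ee p Γ + C.ee p Γ' := by
  simp only [ee, cau, Pi.add_apply]
  rw [ci_add (cau_ker (by norm_num)), ci_add (cau_ker (by norm_num)), add_re, add_re]
  ring

omit [DecidableEq P] in
lemma ee_smul (p : P) (r : ℝ) (Γ : P → YY (1 / 4)) : C.ee p (r • Γ) = r * C.ee p Γ := by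
  simp only [ee, cau, Pi.smul_apply, ci_smul, smul_re, smul_eq_mul]
  ring

omit [DecidableEq P] in
lemma ee_bar (p : P) (Γ : P → YY (1 / 4)) : C.ee (C.bar p) Γ = -C.ee p Γ := by
  simp only [ee, C.bar_bar]; ring

omit [DecidableEq P] in
lemma abs_ee_le (p : P) (Γ : P → YY (1 / 4)) : |C.ee p Γ| ≤ 2 * C.τ * ‖Γ‖ := by
  have h : ∀ q, |(cau (Γ q) 0).re| ≤ ‖Γ‖ := fun q =>
    (abs_re_le_norm _).trans ((norm_cau_zero_le _).trans (norm_le_pi_norm Γ q))
  have h1 := abs_sub (cau (Γ p) 0).re (cau (Γ (C.bar p)) 0).re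
  rw [ee, abs_mul, abs_of_pos C.τ_pos]
  linarith only [h1, h, h p, h (C.bar p), C.τ_pos, mul_nonneg_of_nonpos_of_nonpos (Mathlib.Tactic.Linarith.sub_nonpos_of_le h1) (le_of_lt (Mathlib.Tactic.Linarith.sub_neg_of_lt C.τ_pos)), mul_nonneg_of_nonpos_of_nonpos (Mathlib.Tactic.Linarith.sub_nonpos_of_le (h p)) (le_of_lt (Mathlib.Tactic.Linarith.sub_neg_of_lt C.τ_pos)), mul_nonneg_of_nonpos_of_nonpos (Mathlib.Tactic.Linarith.sub_nonpos_of_le (h (C.bar p))) (le_of_lt (Mathlib.Tactic.Linarith.sub_neg_of_lt C.τ_pos))]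

omit [DecidableEq P] in
lemma hh_eq (p : P) (Γ : P → YY (1 / 4)) {w : ℂ} (hw : 4 * C.ε ^ 2 < ‖w - C.c p‖) :
    C.hh p Γ w = ci (fun ξ => (C.ε : ℂ) ^ 2 / ξ ^ 2 * (w - (C.c p + (C.ε : ℂ) ^ 2 / ξ))⁻¹)
      (Γ (C.bar p)) := by
  have h1 := ci_kadd (cau_ker (C.small hw)) (cau_ker (ξ' := 0) (by norm_num)).neg (Γ (C.bar p))
  have h2 := ci_ksmul (fun ξ => (ξ - 0)⁻¹) (-1) (Γ (C.bar p))
  simp only [neg_smul, one_smul] at h2
  rw [hh, cau, cau, sub_eq_add_neg, ← h2]
  refine h1.symm.trans (ci_congr (fun ξ hξ => ?_) _)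
  have hξ' := mem_sphere_zero_iff_norm.1 hξ
  have h0 : w - C.c p ≠ 0 := norm_pos_iff.1 (lt_of_le_of_lt (by positivity) hw)
  have h3 : ξ ≠ 0 := norm_pos_iff.1 (by rw [hξ']; norm_num)
  have h4 : ξ * (w - C.c p) - (C.ε : ℂ) ^ 2 ≠ 0 := by
    intro h
    have := congrArg norm (sub_eq_zero.1 h)
    rw [norm_mul, hξ', norm_pow, norm_real, Real.norm_eq_abs, sq_abs] at this
    linarith only [hw, this]
  have e1 : ξ - (C.ε : ℂ) ^ 2 / (w - C.c p) = (ξ * (w - C.c p) - (C.ε : ℂ) ^ 2) / (w - C.c p) := by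
    field_simp
  have e2 : w - (C.c p + (C.ε : ℂ) ^ 2 / ξ) = (ξ * (w - C.c p) - (C.ε : ℂ) ^ 2) / ξ := by
    field_simp; ring
  simp only [Pi.neg_apply, e1, e2, inv_div, sub_zero]
  rw [div_add' _ _ _ h4, ← mul_div_assoc]
  congr 1
  field_simp
  ring

omit [DecidableEq P] in
lemma norm_ker {ξ : ℂ} (hξ : ξ ∈ sphere (0 : ℂ) (1 / 4)) :
    ‖(C.ε : ℂ) ^ 2 / ξ ^ 2‖ = 16 * C.ε ^ 2 ∧ ‖(C.ε : ℂ) ^ 2 / ξ‖ = 4 * C.ε ^ 2 := by
  simp only [norm_div, norm_pow, mem_sphere_zero_iff_norm.1 hξ, norm_real, Real.norm_eq_abs,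
    sq_abs]
  constructor <;> ring

omit [DecidableEq P] in
lemma norm_hh_le (p : P) (Γ : P → YY (1 / 4)) {w : ℂ} (hw : 1 ≤ ‖w - C.c p‖) :
    ‖C.hh p Γ w‖ ≤ 8 * C.ε ^ 2 * ‖Γ‖ := by
  have h0 := C.ε_sq_le
  rw [C.hh_eq p Γ (by linarith only [hw, h0])]
  refine (norm_ci_le (M := 32 * C.ε ^ 2) (fun ξ hξ => ?_) _).trans ?_
  · obtain ⟨h1, h2⟩ := C.norm_ker hξ
    have h3 : 1 / 2 ≤ ‖w - (C.c p + (C.ε : ℂ) ^ 2 / ξ)‖ := by
      have := norm_sub_norm_le (w - C.c p) ((C.ε : ℂ) ^ 2 / ξ)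
      rw [sub_sub] at this
      linarith only [hw, h0, h2, this]
    have h4 : ‖w - (C.c p + (C.ε : ℂ) ^ 2 / ξ)‖⁻¹ ≤ 2 := inv_le_of_inv_le₀ two_pos (by linarith only [h3])
    rw [norm_mul, h1, norm_inv]
    linarith only [h4, sq_nonneg C.ε, mul_nonneg_of_nonpos_of_nonpos (Mathlib.Tactic.Linarith.sub_nonpos_of_le (sq_nonneg C.ε)) (Mathlib.Tactic.Linarith.sub_nonpos_of_le h4)]
  · have := norm_le_pi_norm Γ (C.bar p)
    linarith only [this, sq_nonneg C.ε, mul_nonneg_of_nonpos_of_nonpos (Mathlib.Tactic.Linarith.sub_nonpos_of_le (sq_nonneg C.ε)) (Mathlib.Tactic.Linarith.sub_nonpos_of_le this)]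

omit [DecidableEq P] in
lemma far {p q : P} (hq : q ≠ p) {ξ : ℂ} (hξ : ‖ξ‖ ≤ 1 / 4) : 1 ≤ ‖C.c p + ξ - C.c q‖ := by
  have h1 := C.sep p q hq.symm
  have h2 := norm_sub_le (C.c p + ξ - C.c q) ξ
  rw [show C.c p + ξ - C.c q - ξ = C.c p - C.c q by ring] at h2
  linarith only [hξ, h1, h2]

omit [DecidableEq P] in
lemma norm_div_le {p q : P} (hq : q ≠ p) {ξ : ℂ} (hξ : ‖ξ‖ ≤ 1 / 4) :
    ‖ξ / (C.c p - C.c q)‖ ≤ 1 / 2 := by
  have h1 := C.sep p q hq.symm
  rw [norm_div, div_le_iff₀ (by linarith only [h1])]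
  linarith only [hξ, h1]

omit [DecidableEq P] in
lemma norm_ell_le {p q : P} (hq : q ≠ p) {ξ : ℂ} (hξ : ‖ξ‖ ≤ 1 / 4) : ‖C.ell p q ξ‖ ≤ 2 := by
  have h1 := C.sep p q hq.symm
  have h2 := norm_sub_le (C.c p) (C.c q)
  have h3 := norm_log_one_add_half_le_self (C.norm_div_le hq hξ)
  have h4 := Real.log_le_sub_one_of_pos (x := ‖C.c p - C.c q‖) (by linarith only [h1])
  have h5 := Real.log_nonneg (x := ‖C.c p - C.c q‖) (by linarith only [h1])
  refine (norm_add_le _ _).trans ?_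
  rw [norm_real, Real.norm_eq_abs, abs_of_nonneg h5]
  linarith only [h2, h3, h4, hq, hξ, C.norm_c p, C.norm_c q, C.norm_div_le hq hξ]

omit [DecidableEq P] in
lemma re_ell {p q : P} (hq : q ≠ p) {ξ : ℂ} (hξ : ‖ξ‖ ≤ 1 / 4) :
    (C.ell p q ξ).re = Real.log ‖C.c p + ξ - C.c q‖ := by
  have h1 : C.c p - C.c q ≠ 0 := norm_pos_iff.1 (by linarith only [hq, C.sep p q hq.symm])
  have h2 : 1 + ξ / (C.c p - C.c q) ≠ 0 :=
    slitPlane_ne_zero (mem_slitPlane_of_norm_lt_one (by linarith only [hq, hξ, C.norm_div_le hq hξ]))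
  rw [ell, add_re, ofReal_re, log_re, ← Real.log_mul (norm_ne_zero_iff.2 h1)
    (norm_ne_zero_iff.2 h2), ← norm_mul]
  congr 2
  field_simp
  ring

lemma kfun_diff (Γ : P → YY (1 / 4)) (p : P) {ξ : ℂ} (hξ : ‖ξ‖ ≤ 1 / 4) :
    DifferentiableAt ℂ (C.kfun Γ p) ξ := by
  unfold kfun
  refine DifferentiableAt.fun_sum fun q hq => DifferentiableAt.add ?_ (DifferentiableAt.const_mul
    ((differentiableAt_const _).add (DifferentiableAt.clog (by fun_prop) ?_)) _)
  · have h1 := C.far (ne_of_mem_erase hq) hξ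
    exact (C.hh_analytic q Γ (by linarith only [h1, C.ε_sq_le])).differentiableAt.comp ξ (by fun_prop)
  · exact mem_slitPlane_of_norm_lt_one (by linarith only [hq, hξ, C.norm_div_le (ne_of_mem_erase hq) hξ])

lemma norm_kfun_le (Γ : P → YY (1 / 4)) (p : P) {ξ : ℂ} (hξ : ‖ξ‖ ≤ 1 / 4) :
    ‖C.kfun Γ p ξ‖ ≤ 17 * C.τ * ‖Γ‖ := by
  have h0 := C.τ_pos
  refine (norm_sum_le _ _).trans ((C.sum_le (M := 8 * C.ε ^ 2 * ‖Γ‖ + 2 * C.τ * ‖Γ‖ * 2)
    (by positivity) fun q hq => (norm_add_le _ _).trans ?_).trans ?_)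
  · rw [norm_mul, norm_real, Real.norm_eq_abs]
    gcongr
    exacts [C.norm_hh_le q Γ (C.far (ne_of_mem_erase hq) hξ), C.abs_ee_le q Γ,
      C.norm_ell_le (ne_of_mem_erase hq) hξ]
  · have h1 : 32 * C.ε ^ 2 ≤ C.τ := by (refine le_of_not_gt fun h_nl => ?_; linarith only [h_nl, h0, C.ε_sq, C.τ_le, mul_nonneg_of_nonpos_of_nonpos (Mathlib.Tactic.Linarith.sub_nonpos_of_le (sq_nonneg C.ε)) (Mathlib.Tactic.Linarith.sub_nonpos_of_le C.τ_le), mul_pos_of_neg_of_neg (Mathlib.Tactic.Linarith.sub_neg_of_lt h0) (Mathlib.Tactic.Linarith.sub_neg_of_lt h0), mul_pos_of_neg_of_neg (Mathlib.Tactic.Linarith.sub_neg_of_lt h0) (Mathlib.Tactic.Linarith.sub_neg_of_lt h_nl)])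
    linarith only [h1, norm_nonneg Γ, mul_nonneg_of_nonpos_of_nonpos (Mathlib.Tactic.Linarith.sub_nonpos_of_le h1) (Mathlib.Tactic.Linarith.sub_nonpos_of_le (norm_nonneg Γ))]

/-- The interaction operator. -/
noncomputable def kop : (P → YY (1 / 4)) →L[ℝ] (P → YY (1 / 4)) :=
  LinearMap.mkContinuous
    { toFun := fun Γ p => ⟨fun ξ => C.kfun Γ p ξ, continuous_iff_continuousAt.2 fun ξ =>
        (C.kfun_diff Γ p (mem_closedBall_zero_iff.1 ξ.2)).continuousAt.comp
          continuous_subtype_val.continuousAt⟩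
      map_add' := fun Γ Γ' => by
        ext p ξ
        simp only [kfun, ContinuousMap.coe_mk, Pi.add_apply, ContinuousMap.add_apply,
          ← sum_add_distrib]
        refine sum_congr rfl fun q hq => ?_
        have h1 := C.far (ne_of_mem_erase hq) (mem_closedBall_zero_iff.1 ξ.2)
        rw [C.hh_add q Γ Γ' (by linarith [C.ε_sq_le]), ee_add]
        push_cast
        ring
      map_smul' := fun r Γ => by
        ext p ξ
        simp only [kfun, ContinuousMap.coe_mk, Pi.smul_apply, ContinuousMap.smul_apply,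
          RingHom.id_apply, smul_sum, hh_smul, ee_smul, real_smul]
        refine sum_congr rfl fun q _ => ?_
        push_cast
        ring } (17 * C.τ) fun Γ => by
    have h0 := C.τ_pos
    refine (pi_norm_le_iff_of_nonneg (by positivity)).2 fun p => ?_
    exact (ContinuousMap.norm_le _ (by positivity)).2 fun ξ =>
      C.norm_kfun_le Γ p (mem_closedBall_zero_iff.1 ξ.2)

lemma norm_kop_le : ‖C.kop‖ ≤ 17 * C.τ :=
  LinearMap.mkContinuous_norm_le _ (by have := C.τ_pos; positivity) _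

lemma norm_kop_le_half : ‖C.kop‖ ≤ 1 / 2 := by linarith only [C.norm_kop_le, C.τ_le]

/-- Restriction to the small discs. -/
noncomputable def rho : YY 2 →L[ℝ] (P → YY (1 / 4)) :=
  LinearMap.mkContinuous
    { toFun := fun F p => ⟨fun ξ => evY F (C.c p + ξ), (continuous_evY F).comp (by fun_prop)⟩
      map_add' := fun _ _ => rfl
      map_smul' := fun _ _ => rfl } 1 fun F => by
    rw [one_mul]
    exact (pi_norm_le_iff_of_nonneg (norm_nonneg _)).2 fun p =>
      (ContinuousMap.norm_le _ (norm_nonneg _)).2 fun ξ => norm_evY_le F _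

omit [DecidableEq P] in
lemma norm_rho_le (F : YY 2) : ‖C.rho F‖ ≤ ‖F‖ :=
  (pi_norm_le_iff_of_nonneg (norm_nonneg _)).2 fun _ =>
    (ContinuousMap.norm_le _ (norm_nonneg _)).2 fun _ => norm_evY_le F _

/-- The solution of the interaction equation. -/
noncomputable def gam : YY 2 →L[ℝ] (P → YY (1 / 4)) := (res C.kop).comp C.rho

lemma gam_eq (F : YY 2) : C.gam F = C.rho F + C.kop (C.gam F) := res_eq C.norm_kop_le_half _

lemma norm_gam_le (F : YY 2) : ‖C.gam F‖ ≤ 2 * ‖F‖ :=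
  (norm_res_le C.norm_kop_le_half (C.rho F)).trans (by linarith only [C.norm_rho_le F])

omit [DecidableEq P] in
lemma vh_harmonic (Γ : P → YY (1 / 4)) {w : ℂ} (hw : ∀ p, 4 * C.ε ^ 2 < ‖w - C.c p‖) :
    HarmonicAt (C.vh Γ) w := by
  classical
  have key : ∀ S : Finset P, HarmonicAt (fun w => ∑ p ∈ S, ((C.hh p Γ w).re +
      C.ee p Γ * Real.log ‖w - C.c p‖)) w := by
    intro S
    induction S using Finset.induction_on with
    | empty => simp
    | insert p S hp ih =>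
      simp only [sum_insert hp]
      have h0 : w - C.c p ≠ 0 := norm_pos_iff.1 (lt_of_le_of_lt (by positivity) (hw p))
      have h1 := ((analyticAt_id.sub analyticAt_const).harmonicAt_log_norm
        (f := fun w => w - C.c p) h0).const_smul (c := C.ee p Γ)
      exact ((C.hh_analytic p Γ (hw p)).harmonicAt_re.add h1).add ih
  exact key univ

lemma local_form {f : ℂ → ℂ} (hf : ∀ w, ‖w‖ ≤ 2 → DifferentiableAt ℂ f w) {F : YY 2}
    (hF : ∀ w, F w = f w) (p : P) {ξ : ℂ} (hξ : ‖ξ‖ < 1 / 4) :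
    (f (C.c p + ξ)).re + C.vh (C.gam F) (C.c p + ξ) = (cau (C.gam F p) ξ).re +
      (C.hh p (C.gam F) (C.c p + ξ)).re + C.ee p (C.gam F) * Real.log ‖ξ‖ := by
  have hn : ∀ ξ : ℂ, ‖ξ‖ ≤ 1 / 4 → ‖C.c p + ξ‖ ≤ 2 := fun ξ hξ => by
    linarith only [hξ, norm_add_le (C.c p) ξ, C.norm_c p]
  have h1 : cau (C.gam F p) ξ = f (C.c p + ξ) + C.kfun (C.gam F) p ξ := by
    refine cau_eq (g := fun ξ => f (C.c p + ξ) + C.kfun (C.gam F) p ξ) (fun ξ hξ =>
      ((hf _ (hn ξ hξ)).comp ξ (by fun_prop)).add (C.kfun_diff _ p hξ)) (fun ξ => ?_) hξ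
    conv_lhs => rw [C.gam_eq]
    change evY F (C.c p + ξ) + C.kfun (C.gam F) p ξ = _
    rw [evY, hF, ret_eq _ (hn _ (mem_closedBall_zero_iff.1 ξ.2))]
  rw [h1, vh, ← add_sum_erase _ _ (mem_univ p), add_re, kfun, re_sum, add_sub_cancel_left]
  have h2 : ∑ q ∈ univ.erase p, (C.hh q (C.gam F) (C.c p + ξ) +
      C.ee q (C.gam F) * C.ell p q ξ).re = ∑ q ∈ univ.erase p,
      ((C.hh q (C.gam F) (C.c p + ξ)).re + C.ee q (C.gam F) * Real.log ‖C.c p + ξ - C.c q‖) :=
    sum_congr rfl fun q hq => by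
      rw [add_re, re_ofReal_mul, C.re_ell (ne_of_mem_erase hq) hξ.le]
  rw [h2]
  ring

lemma glue_inv {f : ℂ → ℂ} (hf : ∀ w, ‖w‖ ≤ 2 → DifferentiableAt ℂ f w) {F : YY 2}
    (hF : ∀ w, F w = f w) (p : P) {w : ℂ} (h1 : 4 * C.ε ^ 2 < ‖w - C.c p‖)
    (h2 : ‖w - C.c p‖ < 1 / 4) :
    (f (glue (C.c p) (C.c (C.bar p)) C.ε w)).re +
      C.vh (C.gam F) (glue (C.c p) (C.c (C.bar p)) C.ε w) = (f w).re + C.vh (C.gam F) w := by
  have h0 : w - C.c p ≠ 0 := norm_pos_iff.1 (lt_of_le_of_lt (by positivity) h1)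
  have hε : (C.ε : ℂ) ≠ 0 := by exact_mod_cast C.ε_pos.ne'
  have e1 := C.local_form hf hF p h2
  rw [add_sub_cancel] at e1
  rw [e1, glue, C.local_form hf hF (C.bar p) (C.small h1), ee_bar]
  simp only [hh, C.bar_bar, add_sub_cancel_left, sub_re]
  rw [show (C.ε : ℂ) ^ 2 / ((C.ε : ℂ) ^ 2 / (w - C.c p)) = w - C.c p by field_simp, norm_div,
    Real.log_div (by simpa using C.ε_pos.ne') (by simpa using h0), norm_pow, Real.log_pow,
    norm_real, Real.norm_eq_abs, abs_of_pos C.ε_pos]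
  simp only [ee]
  push_cast
  linear_combination ((cau (C.gam F (C.bar p)) 0).re - (cau (C.gam F p) 0).re) * C.log_ε

/-- The pairing that gives the expansion of the correction at infinity. -/
noncomputable def pairF (Γ : P → YY (1 / 4)) (φ : YY 2) : ℂ :=
  ∑ p, (ci (fun ξ => (C.ε : ℂ) ^ 2 / ξ ^ 2 * evY φ (C.c p + (C.ε : ℂ) ^ 2 / ξ)) (Γ (C.bar p)) -
    C.ee p Γ * ∫ s in (0 : ℝ)..1, C.c p * evY φ (s * C.c p))

omit [DecidableEq P] in
lemma pair_ker (φ : YY 2) (p : P) : ContinuousOn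
    (fun ξ : ℂ => (C.ε : ℂ) ^ 2 / ξ ^ 2 * evY φ (C.c p + (C.ε : ℂ) ^ 2 / ξ)) (sphere 0 (1 / 4)) := by
  have h : ∀ ξ ∈ sphere (0 : ℂ) (1 / 4), ξ ≠ 0 := fun ξ hξ =>
    norm_pos_iff.1 (by rw [mem_sphere_zero_iff_norm.1 hξ]; norm_num)
  exact (continuousOn_const.div (by fun_prop) fun ξ hξ => pow_ne_zero 2 (h ξ hξ)).mul
    ((continuous_evY φ).comp_continuousOn
      (continuousOn_const.add (continuousOn_const.div continuousOn_id h)))

omit [DecidableEq P] in
lemma norm_ci_pair_le (Γ : P → YY (1 / 4)) (φ : YY 2) (p : P) :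
    ‖ci (fun ξ => (C.ε : ℂ) ^ 2 / ξ ^ 2 * evY φ (C.c p + (C.ε : ℂ) ^ 2 / ξ)) (Γ (C.bar p))‖ ≤
      4 * C.ε ^ 2 * ‖φ‖ * ‖Γ‖ := by
  refine (norm_ci_le (M := 16 * C.ε ^ 2 * ‖φ‖) (fun ξ hξ => ?_) _).trans ?_
  · rw [norm_mul, (C.norm_ker hξ).1]
    gcongr
    exact norm_evY_le _ _
  · calc _ ≤ 16 * C.ε ^ 2 * ‖φ‖ / 4 * ‖Γ‖ := by gcongr; exact norm_le_pi_norm Γ _
      _ = _ := by ring

omit [DecidableEq P] in
lemma norm_pairF_le (Γ : P → YY (1 / 4)) (φ : YY 2) : ‖C.pairF Γ φ‖ ≤ 9 * C.τ * ‖Γ‖ * ‖φ‖ := by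
  have h0 := C.τ_pos
  refine (norm_sum_le _ _).trans ((C.sum_le (M := 4 * C.ε ^ 2 * ‖φ‖ * ‖Γ‖ + 2 * C.τ * ‖Γ‖ * ‖φ‖)
    (by positivity) fun p _ => (norm_sub_le _ _).trans ?_).trans ?_)
  · rw [norm_mul, norm_real, Real.norm_eq_abs]
    gcongr
    · exact C.norm_ci_pair_le Γ φ p
    · exact C.abs_ee_le p Γ
    · have := intervalIntegral.norm_integral_le_of_norm_le_const (a := 0) (b := 1) (C := ‖φ‖)
        (f := fun s : ℝ => C.c p * evY φ (s * C.c p)) fun s _ => by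
          rw [norm_mul]
          exact (mul_le_of_le_one_left (norm_nonneg _) (C.norm_c p)).trans (norm_evY_le _ _)
      simpa using this
  · have h1 : 16 * C.ε ^ 2 ≤ C.τ := by (refine le_of_not_gt fun h_nl => ?_; linarith only [h_nl, h0, C.ε_sq, C.τ_le, mul_nonneg_of_nonpos_of_nonpos (Mathlib.Tactic.Linarith.sub_nonpos_of_le (sq_nonneg C.ε)) (Mathlib.Tactic.Linarith.sub_nonpos_of_le C.τ_le), mul_pos_of_neg_of_neg (Mathlib.Tactic.Linarith.sub_neg_of_lt h0) (Mathlib.Tactic.Linarith.sub_neg_of_lt h0), mul_pos_of_neg_of_neg (Mathlib.Tactic.Linarith.sub_neg_of_lt h0) (Mathlib.Tactic.Linarith.sub_neg_of_lt h_nl)])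
    have h2 : 0 ≤ ‖Γ‖ * ‖φ‖ := by positivity
    linarith only [h1, h2, mul_nonneg_of_nonpos_of_nonpos (Mathlib.Tactic.Linarith.sub_nonpos_of_le h1) (Mathlib.Tactic.Linarith.sub_nonpos_of_le h2)]

/-- The pairing as a bounded bilinear map. -/
noncomputable def pairL : (P → YY (1 / 4)) →L[ℝ] YY 2 →L[ℝ] ℂ :=
  LinearMap.mkContinuous₂ (LinearMap.mk₂ ℝ C.pairF
    (fun Γ Γ' φ => by
      simp only [pairF, ← sum_add_distrib, Pi.add_apply, ci_add (C.pair_ker φ _), ee_add]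
      refine sum_congr rfl fun p _ => ?_
      push_cast
      ring)
    (fun r Γ φ => by
      simp only [pairF, Pi.smul_apply, ci_smul, ee_smul, real_smul, mul_sum]
      refine sum_congr rfl fun p _ => ?_
      push_cast
      ring)
    (fun Γ φ φ' => by
      simp only [pairF, ← sum_add_distrib]
      refine sum_congr rfl fun p _ => ?_
      have h : ∀ φ : YY 2, IntervalIntegrable (fun s : ℝ => C.c p * evY φ (s * C.c p))
          MeasureTheory.volume 0 1 := fun φ =>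
        (continuous_const.mul ((continuous_evY φ).comp (by fun_prop))).intervalIntegrable _ _
      have h1 := ci_kadd (C.pair_ker φ p) (C.pair_ker φ' p) (Γ (C.bar p))
      have h2 := intervalIntegral.integral_add (h φ) (h φ')
      simp only [evY, ContinuousMap.add_apply, mul_add] at h1 h2 ⊢
      rw [h1, h2]
      ring)
    (fun r Γ φ => by
      simp only [pairF, smul_sum]
      refine sum_congr rfl fun p _ => ?_
      have h1 := ci_ksmul
        (fun ξ => (C.ε : ℂ) ^ 2 / ξ ^ 2 * evY φ (C.c p + (C.ε : ℂ) ^ 2 / ξ)) r (Γ (C.bar p))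
      simp only [evY, ContinuousMap.smul_apply, mul_smul_comm, intervalIntegral.integral_smul,
        smul_sub] at h1 ⊢
      rw [h1])) (9 * C.τ) C.norm_pairF_le

omit [DecidableEq P] in
lemma pairL_apply (Γ : P → YY (1 / 4)) (φ : YY 2) : C.pairL Γ φ = C.pairF Γ φ := rfl

omit [DecidableEq P] in
lemma pairL_csmul (Γ : P → YY (1 / 4)) (a : ℂ) (φ : YY 2) :
    C.pairL Γ (a • φ) = a * C.pairL Γ φ := by
  simp only [pairL_apply, pairF, mul_sum]
  refine sum_congr rfl fun p _ => ?_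
  simp only [ci, evY, ContinuousMap.smul_apply, smul_eq_mul, mul_left_comm _ a, mul_assoc a,
    intervalIntegral.integral_const_mul, circleIntegral.integral_const_mul, mul_sub]

omit [DecidableEq P] in
lemma sum_ee (Γ : P → YY (1 / 4)) : ∑ p, C.ee p Γ = 0 := by
  have h := Equiv.sum_comp (Function.Involutive.toPerm C.bar C.bar_bar) fun p => C.ee p Γ
  simp only [Function.Involutive.coe_toPerm, ee_bar, sum_neg_distrib] at h
  linarith only [h]

omit [DecidableEq P] in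
lemma vh_ext (Γ : P → YY (1 / 4)) {w : ℂ} (hw : 2 < ‖w‖) {Φ : YY 2}
    (hΦ : ∀ η, Φ η = (w - η)⁻¹) : C.vh Γ w = (C.pairL Γ Φ).re := by
  have h0 := C.ε_sq_le
  have hw0 : w ≠ 0 := norm_pos_iff.1 (by linarith only [hw])
  have e : C.vh Γ w = ∑ p, ((C.hh p Γ w).re +
      C.ee p Γ * (Real.log ‖w - C.c p‖ - Real.log ‖w‖)) := by
    simp only [vh, mul_sub, sum_add_distrib, sum_sub_distrib, ← sum_mul, sum_ee, zero_mul,
      sub_zero]
  rw [e, pairL_apply, pairF, re_sum]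
  refine sum_congr rfl fun p _ => ?_
  have h1 := C.norm_c p
  have h2 : 1 ≤ ‖w - C.c p‖ := by linarith only [hw, h1, norm_sub_norm_le w (C.c p)]
  have hs : ∀ s : ℝ, s ∈ Set.uIcc (0 : ℝ) 1 → ‖(s : ℂ) * C.c p‖ ≤ 1 := fun s hs => by
    rw [Set.uIcc_of_le zero_le_one] at hs
    rw [norm_mul, norm_real, Real.norm_eq_abs, abs_of_nonneg hs.1]
    exact mul_le_one₀ hs.2 (norm_nonneg _) h1
  have h3 : ∫ s in (0 : ℝ)..1, C.c p * evY Φ (s * C.c p) = -log (1 + -(C.c p) / w) := by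
    have h4 := intervalIntegral.integral_eq_sub_of_hasDerivAt (a := 0) (b := 1)
      (f := fun s : ℝ => -log (1 + -((s : ℂ) * C.c p) / w))
      (f' := fun s : ℝ => C.c p * evY Φ (s * C.c p)) (fun s hs' => by
        have h5 := hs s hs'
        have h6 : HasDerivAt (fun s : ℝ => 1 + -((s : ℂ) * C.c p) / w) (-(1 * C.c p) / w) s :=
          ((((hasDerivAt_id s).ofReal_comp).mul_const _).neg.div_const w).const_add 1
        have h7 : 1 + -((s : ℂ) * C.c p) / w ∈ slitPlane := mem_slitPlane_of_norm_lt_one (by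
          rw [norm_div, norm_neg, div_lt_one (by linarith only [hw])]; linarith only [hw, h5])
        have h8 : w - s * C.c p ≠ 0 := by
          intro h
          rw [sub_eq_zero.1 h] at hw
          linarith only [hw, h5]
        refine (h6.clog_real h7).neg.congr_deriv ?_
        rw [evY, hΦ, ret_eq _ (by linarith only [h5]), show 1 + -((s : ℂ) * C.c p) / w =
          (w - s * C.c p) / w by field_simp; ring]
        field_simp)
      ((continuous_const.mul ((continuous_evY Φ).comp (by fun_prop))).intervalIntegrable _ _)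
    simpa using h4
  rw [h3, C.hh_eq p Γ (by linarith only [h0, h2]), sub_re, re_ofReal_mul, neg_re, log_re,
    ← Real.log_div (by linarith only [h2]) (by linarith only [hw]), ← norm_div, ci_congr (k' := fun ξ =>
      (C.ε : ℂ) ^ 2 / ξ ^ 2 * evY Φ (C.c p + (C.ε : ℂ) ^ 2 / ξ)) fun ξ hξ => by
        rw [evY, hΦ, ret_eq]
        linarith only [h0, h1, hξ, norm_add_le (C.c p) ((C.ε : ℂ) ^ 2 / ξ), (C.norm_ker hξ).2],
    show (w - C.c p) / w = 1 + -C.c p / w by field_simp; ring]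
  ring

lemma pair_leading {x : ℂ} {F : YY 2} (hF : ∀ w, F w = x * w) :
    ‖C.pairL (C.gam F) 1 + ∑ p, (C.τ * (x * (C.c p - C.c (C.bar p))).re : ℝ) * C.c p‖ ≤
      700 * C.τ ^ 2 * ‖x‖ := by
  have h0 := C.τ_pos
  have hF2 : ‖F‖ ≤ 2 * ‖x‖ := (ContinuousMap.norm_le _ (by positivity)).2 fun w => by
    rw [hF, norm_mul, mul_comm]
    gcongr
    exact mem_closedBall_zero_iff.1 w.2
  have hΓ : ‖C.gam F‖ ≤ 4 * ‖x‖ := by linarith only [hF2, C.norm_gam_le F]
  have hK : ‖C.kop (C.gam F)‖ ≤ 17 * C.τ * (4 * ‖x‖) :=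
    (C.kop.le_opNorm _).trans (by gcongr; exact C.norm_kop_le)
  have hc : ∀ p, cau (C.rho F p) 0 = x * C.c p := fun p => by
    have := cau_eq (Γ := C.rho F p) (g := fun ξ => x * (C.c p + ξ)) (fun ξ _ => by fun_prop)
      (fun ξ => by
        change evY F (C.c p + ξ) = _
        rw [evY, hF, ret_eq]
        linarith only [norm_add_le (C.c p) ξ, C.norm_c p, mem_closedBall_zero_iff.1 ξ.2])
      (ξ' := 0) (by norm_num)
    simpa using this
  have he : ∀ p, C.ee p (C.gam F) = C.τ * (x * (C.c p - C.c (C.bar p))).re +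
      C.ee p (C.kop (C.gam F)) := fun p => by
    conv_lhs => rw [C.gam_eq, ee_add, ee, hc, hc]
    rw [mul_sub x, sub_re]
  rw [pairL_apply, pairF, ← sum_add_distrib]
  refine (norm_sum_le _ _).trans ((C.sum_le (M := 4 * C.ε ^ 2 * 1 * (4 * ‖x‖) +
    2 * C.τ * (17 * C.τ * (4 * ‖x‖)) * 1) (by positivity) fun p _ => ?_).trans ?_)
  · have e : ∫ s in (0 : ℝ)..1, C.c p * evY 1 (s * C.c p) = C.c p := by simp [evY]
    rw [e, he]
    push_cast
    rw [add_mul, ← sub_sub, sub_right_comm, sub_add_cancel]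
    refine (norm_sub_le _ _).trans ?_
    rw [norm_mul, norm_real, Real.norm_eq_abs]
    gcongr
    · refine (C.norm_ci_pair_le _ _ p).trans ?_
      gcongr
      exact (ContinuousMap.norm_le _ zero_le_one).2 fun _ => by simp
    · exact (C.abs_ee_le p _).trans (by gcongr)
    · exact C.norm_c p
  · linarith only [C.ε_sq, norm_nonneg x, mul_le_mul_of_nonneg_right C.ε_sq (norm_nonneg x),
      mul_nonneg (sq_nonneg C.τ) (norm_nonneg x), sq_nonneg C.τ]

end Cfg

end Pool.Agent.Work.MP_a6a438_an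
end

-- merged part: Pool.Agent.Work.MP_a6a438_an.Geometry
section
/-!
The exterior conformal map, the plane region and the metric.
-/

set_option autoImplicit false

open Complex Metric Set Filter Topology
open scoped ContDiff Manifold

namespace Pool.Agent.Work.MP_a6a438_an

/-- The properties of the exterior map that are used. -/
structure Conf (G : ℂ → ℂ) (S : ℝ) : Prop where
  S_ge : 8 ≤ S
  diff : ∀ z, 1 / 2 < ‖z‖ → DifferentiableAt ℂ G z
  inj : InjOn G {z | 1 / 2 < ‖z‖}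
  deriv_ne : ∀ z, 1 / 2 < ‖z‖ → deriv G z ≠ 0
  near : ∀ z, 1 / 2 < ‖z‖ → ‖G z - S * z‖ ≤ S / 8
  surj : ∀ w : ℂ, 3 / 4 * S ≤ ‖w‖ → ∃ z : ℂ, ‖S * z - w‖ ≤ S / 8 ∧ G z = w

section gg

variable {bb : ℕ → ℂ} {R : ℝ} (h : Bb bb (1 / 256) R) (hR : 0 ≤ R) (hR' : R ≤ 1 / 64)
include h hR hR'

lemma tl_term {x : ℂ} (hx : ‖x‖ ≤ 4) (m : ℕ) : ‖bb (m + 0) * x ^ m‖ ≤ R ^ 2 * (1 / 2) ^ m := by
  rw [norm_mul, norm_pow]
  calc _ ≤ R ^ (0 + 2) * R ^ m * 4 ^ m := by gcongr; exact bb_le h hR m 0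
    _ = R ^ 2 * (R * 4) ^ m := by rw [mul_pow, mul_assoc]
    _ ≤ _ := by gcongr; linarith only [hR']

lemma tl_lip {x y : ℂ} (hx : ‖x‖ ≤ 2) (hy : ‖y‖ ≤ 2) :
    ‖y * tl bb 0 y - x * tl bb 0 x‖ ≤ 1 / 512 * ‖y - x‖ ∧ DifferentiableAt ℂ (tl bb 0) x := by
  have hd : DifferentiableOn ℂ (tl bb 0) (ball 0 4) :=
    differentiableOn_tsum_of_summable_norm (summable_geometric_two.mul_left (R ^ 2))
      (fun i => by fun_prop) isOpen_ball fun i w hw =>
        tl_term h hR hR' (mem_ball_zero_iff.1 hw).le i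
  have hda : ∀ x : ℂ, ‖x‖ < 4 → DifferentiableAt ℂ (tl bb 0) x := fun x hx =>
    hd.differentiableAt (isOpen_ball.mem_nhds (mem_ball_zero_iff.2 hx))
  have hb : ∀ x : ℂ, ‖x‖ ≤ 4 → ‖x * tl bb 0 x‖ ≤ 1 / 512 := fun x hx => by
    have h1 : ‖tl bb 0 x‖ ≤ R ^ 2 * 2 :=
      tsum_of_norm_bounded (hasSum_geometric_two.mul_left (R ^ 2)) (tl_term h hR hR' hx)
    rw [norm_mul]
    calc _ ≤ 4 * (R ^ 2 * 2) := by gcongr
      _ ≤ 4 * ((1 / 64) ^ 2 * 2) := by gcongr
      _ = _ := by norm_num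
  refine ⟨Convex.norm_image_sub_le_of_norm_deriv_le (f := fun x => x * tl bb 0 x)
    (s := closedBall 0 2) (fun x hx => differentiableAt_id.mul (hda x (by
      linarith only [hx, mem_closedBall_zero_iff.1 hx]))) (fun x hx => ?_) (convex_closedBall _ _)
    (mem_closedBall_zero_iff.2 hx) (mem_closedBall_zero_iff.2 hy), hda x (by linarith)⟩
  have hx' := mem_closedBall_zero_iff.1 hx
  have hn : ∀ z ∈ closedBall x 1, ‖z‖ ≤ 3 := fun z hz => by
    have := norm_sub_norm_le z x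
    rw [mem_closedBall_iff_norm] at hz
    linarith only [hx', hz, this]
  have := norm_deriv_le_of_forall_mem_sphere_norm_le (c := x) (f := fun x => x * tl bb 0 x)
    one_pos (DifferentiableOn.diffContOnCl (fun z hz => (differentiableAt_id.mul (hda z (by
      rw [closure_ball _ one_ne_zero] at hz
      linarith [hn z hz]))).differentiableWithinAt))
    fun z hz => hb z (by linarith [hn z (sphere_subset_closedBall hz)])
  simpa using this

omit h hR hR' in
lemma norm_inv_le_two {z : ℂ} (hz : 1 / 2 < ‖z‖) : ‖z⁻¹‖ ≤ 2 := by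
  rw [norm_inv]
  exact inv_le_of_inv_le₀ two_pos (by linarith only [hz])

lemma gg_lip {z ζ : ℂ} (hz : 1 / 2 < ‖z‖) (hζ : 1 / 2 < ‖ζ‖) :
    ‖(gg bb ζ - ζ) - (gg bb z - z)‖ ≤ 1 / 128 * ‖ζ - z‖ := by
  have h1 := (tl_lip h hR hR' (norm_inv_le_two hz) (norm_inv_le_two hζ)).1
  have hz0 : z ≠ 0 := norm_pos_iff.1 (by linarith only [hz])
  have hζ0 : ζ ≠ 0 := norm_pos_iff.1 (by linarith only [hζ])
  have h2 : ‖ζ⁻¹ - z⁻¹‖ ≤ ‖ζ - z‖ * 2 * 2 := by
    rw [show ζ⁻¹ - z⁻¹ = -(ζ - z) * ζ⁻¹ * z⁻¹ by field_simp; ring, norm_mul, norm_mul, norm_neg]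
    gcongr
    exacts [norm_inv_le_two hζ, norm_inv_le_two hz]
  simp only [gg, add_sub_cancel_left]
  linarith only [h1, h2]

lemma gg_near {z : ℂ} (hz : 1 / 2 < ‖z‖) : ‖gg bb z - z‖ ≤ 1 / 8 := by
  have h1 := (tl_lip h hR hR' (x := 0) (by simp) (norm_inv_le_two hz)).1
  simp only [zero_mul, sub_zero] at h1
  simp only [gg, add_sub_cancel_left]
  linarith only [h1, hz, norm_inv_le_two hz]

lemma gg_diff {z : ℂ} (hz : 1 / 2 < ‖z‖) : DifferentiableAt ℂ (gg bb) z := by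
  have hz0 : z ≠ 0 := norm_pos_iff.1 (by linarith only [hz])
  have h1 := differentiableAt_inv (𝕜 := ℂ) hz0
  exact differentiableAt_id.add (h1.mul
    ((tl_lip h hR hR' (norm_inv_le_two hz) (norm_inv_le_two hz)).2.comp z h1))

lemma conf_gg {S : ℝ} (hS : 8 ≤ S) : Conf (fun z => S * gg bb z) S := by
  have hS0 : (S : ℂ) ≠ 0 := by exact_mod_cast (by linarith only [hS] : S ≠ 0)
  have hSn : ‖(S : ℂ)‖ = S := by rw [norm_real, Real.norm_eq_abs, abs_of_pos (by linarith only [hS])]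
  refine ⟨hS, fun z hz => (gg_diff h hR hR' hz).const_mul _, fun z hz ζ hζ e => ?_,
    fun z hz => ?_, fun z hz => ?_, fun w hw => ?_⟩
  · have h1 := gg_lip h hR hR' hz hζ
    rw [mul_left_cancel₀ hS0 e, sub_sub_sub_cancel_left, norm_sub_rev] at h1
    exact (sub_eq_zero.1 (norm_le_zero_iff.1 (by linarith only [h1]))).symm
  · have h1 : ‖deriv (fun z => gg bb z - z) z‖ ≤ 1 / 128 := by
      refine norm_deriv_le_of_lip' (by norm_num) ?_
      filter_upwards [(isOpen_lt continuous_const continuous_norm).mem_nhds hz] with ζ hζ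
      exact gg_lip h hR hR' hz hζ
    rw [deriv_fun_sub (gg_diff h hR hR' hz) differentiableAt_fun_id, deriv_id''] at h1
    rw [deriv_const_mul _ (gg_diff h hR hR' hz)]
    refine mul_ne_zero hS0 fun h0 => ?_
    rw [h0] at h1
    norm_num at h1
  · rw [← mul_sub, norm_mul, hSn]
    have := gg_near h hR hR' hz
    linarith only [this, hS, mul_nonneg_of_nonpos_of_nonpos (Mathlib.Tactic.Linarith.sub_nonpos_of_le hS) (Mathlib.Tactic.Linarith.sub_nonpos_of_le this)]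
  · have hw' : 3 / 4 ≤ ‖w / S‖ := by rw [norm_div, hSn, le_div_iff₀ (by linarith only [hS])]; exact hw
    have hn : ∀ z ∈ closedBall (w / S) (1 / 8), 1 / 2 < ‖z‖ := fun z hz => by
      rw [mem_closedBall_iff_norm'] at hz
      linarith only [hw', hz, norm_sub_norm_le (w / S) z]
    have hm : MapsTo (fun z => w / S - (gg bb z - z)) (closedBall (w / S) (1 / 8))
        (closedBall (w / S) (1 / 8)) := fun z hz => by
      rw [mem_closedBall_iff_norm', sub_sub_cancel]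
      exact gg_near h hR hR' (hn z hz)
    have hc : ContractingWith ⟨1 / 128, by norm_num⟩ (hm.restrict _ _ _) := by
      refine ⟨show (1 / 128 : ℝ) < 1 by norm_num, LipschitzWith.of_dist_le_mul fun z ζ => ?_⟩
      simp only [Subtype.dist_eq, MapsTo.val_restrict_apply, dist_eq_norm,
        sub_sub_sub_cancel_left]
      rw [norm_sub_rev (z : ℂ)]
      exact gg_lip h hR hR' (hn z z.2) (hn ζ ζ.2)
    obtain ⟨z, hz, hfix, -⟩ := ContractingWith.exists_fixedPoint' isClosed_closedBall.isComplete hm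
      hc (mem_closedBall_self (by norm_num)) (edist_ne_top _ _)
    refine ⟨z, ?_, ?_⟩
    · rw [show S * z - w = S * (z - w / S) by field_simp, norm_mul, hSn]
      rw [mem_closedBall_iff_norm] at hz
      linarith only [hz, hS, mul_nonneg_of_nonpos_of_nonpos (Mathlib.Tactic.Linarith.sub_nonpos_of_le hS) (Mathlib.Tactic.Linarith.sub_nonpos_of_le hz)]
    · have : w / S - (gg bb z - z) = z := hfix
      rw [show gg bb z = w / S by linear_combination -this]
      field_simp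

end gg

namespace Conf

variable {G : ℂ → ℂ} {S : ℝ} (h : Conf G S)
include h

lemma norm_S : ‖(S : ℂ)‖ = S := by
  rw [norm_real, Real.norm_eq_abs, abs_of_pos (by linarith [h.S_ge])]

lemma lower {z : ℂ} (hz : 1 / 2 < ‖z‖) : S * ‖z‖ - S / 8 ≤ ‖G z‖ := by
  have h1 := h.near z hz
  have h2 := norm_sub_norm_le (S * z) (G z)
  rw [norm_mul, h.norm_S, norm_sub_rev] at h2
  linarith only [h1, h2]

lemma two_lt {z : ℂ} (hz : 1 / 2 < ‖z‖) : 2 < ‖G z‖ := by
  linarith only [hz, h, h.lower hz, h.S_ge, mul_nonneg_of_nonpos_of_nonpos (le_of_lt (Mathlib.Tactic.Linarith.sub_neg_of_lt hz)) (Mathlib.Tactic.Linarith.sub_nonpos_of_le h.S_ge)]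

lemma analyticAt {z : ℂ} (hz : 1 / 2 < ‖z‖) : AnalyticAt ℂ G z :=
  DifferentiableOn.analyticAt (s := {z | 1 / 2 < ‖z‖})
    (fun z hz => (h.diff z hz).differentiableWithinAt)
    ((isOpen_lt continuous_const continuous_norm).mem_nhds hz)

lemma infty : Tendsto G (Bornology.cobounded ℂ) (Bornology.cobounded ℂ) := by
  rw [← tendsto_norm_atTop_iff_cobounded]
  have h1 : Tendsto (fun z : ℂ => S * ‖z‖ - S / 8) (Bornology.cobounded ℂ) atTop :=
    tendsto_atTop_add_const_right _ _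
      (tendsto_norm_cobounded_atTop.const_mul_atTop (by linarith [h.S_ge]))
  refine tendsto_atTop_mono' _ ?_ h1
  filter_upwards [tendsto_norm_cobounded_atTop.eventually_gt_atTop (1 / 2)] with z hz
  exact h.lower hz

lemma mem_image {w : ℂ} (hw : 9 / 8 * S < ‖w‖) : w ∈ G '' {z | 1 < ‖z‖} := by
  have hS := h.S_ge
  obtain ⟨z, h1, h2⟩ := h.surj w (by linarith only [hw, hS])
  refine ⟨z, ?_, h2⟩
  have h3 := norm_sub_norm_le w (S * z)
  rw [norm_mul, h.norm_S, norm_sub_rev] at h3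
  have : S * 1 < S * ‖z‖ := by linarith only [hw, h1, h3]
  exact lt_of_mul_lt_mul_left this (by linarith only [hS])

lemma isOpen_image : IsOpen (G '' {z | 1 < ‖z‖}) := by
  rw [isOpen_iff_mem_nhds]
  rintro _ ⟨z, hz, rfl⟩
  have hz' : 1 / 2 < ‖z‖ := by have : 1 < ‖z‖ := hz; linarith only [this]
  rw [← (h.analyticAt hz').hasStrictDerivAt.map_nhds_eq (h.deriv_ne z hz')]
  exact image_mem_map ((isOpen_lt continuous_const continuous_norm).mem_nhds hz)

lemma isCompact_image {K : Set ℂ} (hK : IsCompact K) (h1 : ∀ z ∈ K, 1 / 2 < ‖z‖) :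
    IsCompact (G '' K) :=
  hK.image_of_continuousOn fun z hz => (h.diff z (h1 z hz)).continuousAt.continuousWithinAt

lemma isClosed_image : IsClosed (G '' {z | 1 ≤ ‖z‖}) := by
  have hS := h.S_ge
  have e : G '' {z | 1 ≤ ‖z‖} =
      G '' (closedBall 0 2 ∩ {z | 1 ≤ ‖z‖}) ∪ {w | 3 / 2 * S ≤ ‖w‖} := by
    apply Subset.antisymm
    · rintro _ ⟨z, hz, rfl⟩
      have hz' : 1 ≤ ‖z‖ := hz
      rcases le_total ‖z‖ 2 with h1 | h1
      · exact Or.inl ⟨z, ⟨mem_closedBall_zero_iff.2 h1, hz⟩, rfl⟩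
      · right
        have := h.lower (z := z) (by linarith only [h1])
        change 3 / 2 * S ≤ ‖G z‖
        linarith only [h1, this, hS, hz', mul_nonneg_of_nonpos_of_nonpos (Mathlib.Tactic.Linarith.sub_nonpos_of_le hS) (Mathlib.Tactic.Linarith.sub_nonpos_of_le hz'), mul_nonneg_of_nonpos_of_nonpos (Mathlib.Tactic.Linarith.sub_nonpos_of_le hS) (Mathlib.Tactic.Linarith.sub_nonpos_of_le h1)]
    · refine union_subset (image_mono inter_subset_right) fun w hw => ?_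
      have hw' : 3 / 2 * S ≤ ‖w‖ := hw
      exact image_mono (fun z (hz : 1 < ‖z‖) => hz.le) (h.mem_image (by linarith only [hS, hw']))
  rw [e]
  refine (h.isCompact_image ((isCompact_closedBall _ _).inter_right
    (isClosed_le continuous_const continuous_norm)) fun z hz => ?_).isClosed.union
    (isClosed_le continuous_const continuous_norm)
  have : 1 ≤ ‖z‖ := hz.2
  linarith

lemma exists_lam {P : Type} [Fintype P] (C : Cfg P) : ∃ lam : ℂ → ℝ, ContDiff ℝ ∞ lam ∧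
    (∀ w, 0 < lam w) ∧ (∀ z, ‖z‖ = 1 → lam (G z) = ‖deriv G z‖⁻¹) ∧
    ∀ p w, C.ε / 2 ≤ ‖w - C.c p‖ → ‖w - C.c p‖ ≤ 2 * C.ε → lam w = ‖w - C.c p‖⁻¹ := by
  have hε := C.ε_le
  have hε0 := C.ε_pos
  have hin : ∀ p w, ‖w - C.c p‖ < 1 / 4 → ‖w‖ ≤ 2 := fun p w hw => by
    linarith only [hε, hε0, hw, norm_sub_norm_le w (C.c p), C.norm_c p]
  obtain ⟨lam, hlam⟩ := exists_contMDiffMap_forall_mem_convex_of_local (n := ⊤) 𝓘(ℝ, ℂ)
    (t := fun w => {y : ℝ | 0 < y ∧ (∀ z, ‖z‖ = 1 → G z = w → y = ‖deriv G z‖⁻¹) ∧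
      ∀ p, C.ε / 2 ≤ ‖w - C.c p‖ → ‖w - C.c p‖ ≤ 2 * C.ε → y = ‖w - C.c p‖⁻¹})
    (fun w => by
      rw [convex_iff_ordConnected]
      refine ⟨fun a ha b hb y hy => ⟨ha.1.trans_le hy.1, fun z h1 h2 => ?_, fun p h1 h2 => ?_⟩⟩
      · exact le_antisymm (hb.2.1 z h1 h2 ▸ hy.2) (ha.2.1 z h1 h2 ▸ hy.1)
      · exact le_antisymm (hb.2.2 p h1 h2 ▸ hy.2) (ha.2.2 p h1 h2 ▸ hy.1))
    (fun w => by
      simp only [contMDiffOn_iff_contDiffOn]
      by_cases h1 : w ∈ G '' sphere 0 1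
      · obtain ⟨z, hz, rfl⟩ := h1
        have hz' : 1 / 2 < ‖z‖ := by rw [mem_sphere_zero_iff_norm.1 hz]; norm_num
        have ha := h.analyticAt hz'
        set g := ha.hasStrictDerivAt.localInverse _ _ _ (h.deriv_ne z hz') with hg
        have h2 : AnalyticAt ℂ g (G z) := ha.analyticAt_localInverse (h.deriv_ne z hz')
        have h3 : g (G z) = z :=
          (ha.hasStrictDerivAt.eventually_left_inverse (h.deriv_ne z hz')).self_of_nhds
        have h4 : ∀ᶠ w in 𝓝 (G z), 1 / 2 < ‖g w‖ :=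
          h2.continuousAt.norm.eventually (lt_mem_nhds (by simp only [h3]; exact hz'))
        have h5 : ∀ᶠ w in 𝓝 (G z), 2 < ‖w‖ :=
          (isOpen_lt continuous_const continuous_norm).mem_nhds (h.two_lt hz')
        refine ⟨_, h2.eventually_analyticAt.and (h4.and (h5.and
          (ha.hasStrictDerivAt.eventually_right_inverse (h.deriv_ne z hz')))),
          fun w => ‖deriv G (g w)‖⁻¹, fun w hw => ?_, fun w hw => ⟨?_, fun ζ e1 e2 => ?_,
            fun p e1 e2 => ?_⟩⟩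
        · have h6 : ContDiffAt ℝ ∞ (fun w => deriv G (g w)) w :=
            ((h.analyticAt hw.2.1).deriv.comp hw.1).contDiffAt.restrict_scalars ℝ
          exact ((h6.norm ℂ (h.deriv_ne _ hw.2.1)).inv
            (norm_ne_zero_iff.2 (h.deriv_ne _ hw.2.1))).contDiffWithinAt
        · exact inv_pos.2 (norm_pos_iff.2 (h.deriv_ne _ hw.2.1))
        · simp only
          rw [h.inj hw.2.1 (show 1 / 2 < ‖ζ‖ by rw [e1]; norm_num) (hw.2.2.2.trans e2.symm)]
        · linarith only [hin, hε, hε0, e2, ha, h, hz', hw, hin p w (by linarith), hw.2.2.1]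
      by_cases h2 : ∃ p, C.ε / 2 ≤ ‖w - C.c p‖ ∧ ‖w - C.c p‖ ≤ 2 * C.ε
      · obtain ⟨p, e1, e2⟩ := h2
        have hc : Continuous fun w => ‖w - C.c p‖ := by fun_prop
        refine ⟨{w | 0 < ‖w - C.c p‖ ∧ ‖w - C.c p‖ < 1 / 4},
          ((isOpen_lt continuous_const hc).inter (isOpen_lt hc continuous_const)).mem_nhds
            ⟨by simp only [mem_ofPred_eq]; linarith only [hε0, e1], by simp only [mem_ofPred_eq]; linarith only [hε, hε0, e2]⟩,
          fun w => ‖w - C.c p‖⁻¹, fun w hw => ?_, fun w hw => ⟨inv_pos.2 hw.1,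
            fun ζ e1 e2 => ?_, fun q e1 e2 => ?_⟩⟩
        · exact (((contDiffAt_id.sub contDiffAt_const).norm ℂ (norm_pos_iff.1 hw.1)).inv
            hw.1.ne').contDiffWithinAt
        · have := h.two_lt (z := ζ) (by rw [e1]; norm_num)
          linarith only [hin, hw, this, e2, hin p w hw.2, e2 ▸ this]
        · by_cases hq : q = p
          · rw [hq]
          · have := C.far hq (ξ := w - C.c p) hw.2.le
            rw [add_sub_cancel] at this
            linarith only [hε, hε0, e2, this]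
      · push Not at h2
        have h3 : ∀ᶠ w' in 𝓝 w, w' ∉ G '' sphere 0 1 :=
          (h.isCompact_image (isCompact_sphere 0 1) fun z hz => by
            rw [mem_sphere_zero_iff_norm.1 hz]; norm_num).isClosed.isOpen_compl.mem_nhds h1
        have h4 : ∀ᶠ w' in 𝓝 w, ∀ p, C.ε / 2 ≤ ‖w' - C.c p‖ → 2 * C.ε < ‖w' - C.c p‖ := by
          refine eventually_all.2 fun p => ?_
          have hc : Continuous fun w => ‖w - C.c p‖ := by fun_prop
          rcases lt_or_ge ‖w - C.c p‖ (C.ε / 2) with h5 | h5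
          · filter_upwards [(isOpen_lt hc continuous_const).mem_nhds h5] with w' hw' h6
            exact absurd hw' (not_lt.2 h6)
          · filter_upwards [(isOpen_lt continuous_const hc).mem_nhds (h2 p h5)] with w' hw' _
            exact hw'
        refine ⟨_, h3.and h4, fun _ => 1, contDiffOn_const, fun w' hw' => ⟨one_pos,
          fun ζ e1 e2 => absurd ⟨ζ, mem_sphere_zero_iff_norm.2 e1, e2⟩ hw'.1,
          fun p e1 e2 => absurd (hw'.2 p e1) (not_lt.2 e2)⟩⟩)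
  exact ⟨lam, lam.contMDiff.contDiff, fun w => (hlam w).1, fun z hz => (hlam _).2.1 z hz rfl,
    fun p w => (hlam w).2.2 p⟩

end Conf

end Pool.Agent.Work.MP_a6a438_an
end

-- merged part: Pool.Agent.Work.MP_a6a438_an.Fourier
section
/-!
Fourier coefficients of real functions on the circle.
-/

set_option autoImplicit false

open Complex Set Filter Topology MeasureTheory
open scoped Real ComplexConjugate

namespace Pool.Agent.Work.MP_a6a438_an

lemma hs_congr {ι E : Type} [AddCommMonoid E] [TopologicalSpace E] {f g : ι → E} {a b : E}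
    (h : HasSum f a) (hf : ∀ i, g i = f i) (hab : b = a) : HasSum g b := by
  rw [funext hf, hab]; exact h

/-- The characters of the circle. -/
noncomputable def ex (n : ℤ) (θ : ℝ) : ℂ := exp (n * θ * I)

/-- The Fourier coefficients. -/
noncomputable def cf (U : ℝ → ℝ) (n : ℤ) : ℂ :=
  (2 * π)⁻¹ • ∫ θ in (0 : ℝ)..2 * π, ex (-n) θ * U θ

lemma continuous_ex (n : ℤ) : Continuous (ex n) := by unfold ex; fun_prop

lemma norm_ex (n : ℤ) (θ : ℝ) : ‖ex n θ‖ = 1 := by
  rw [ex, ← ofReal_intCast, ← ofReal_mul, norm_exp_ofReal_mul_I]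

lemma ex_add (m n : ℤ) (θ : ℝ) : ex (m + n) θ = ex m θ * ex n θ := by
  rw [ex, ex, ex, ← exp_add]; push_cast; ring_nf

lemma conj_ex (n : ℤ) (θ : ℝ) : conj (ex n θ) = ex (-n) θ := by
  rw [ex, ex, ← exp_conj]; simp

lemma ex_zero (θ : ℝ) : ex 0 θ = 1 := by simp [ex]

lemma ex_two_pi (n : ℤ) : ex n (2 * π) = 1 := by
  rw [ex, ← exp_int_mul_two_pi_mul_I n]; push_cast; ring_nf

lemma integral_ex (n : ℤ) :
    (2 * π)⁻¹ • ∫ θ in (0 : ℝ)..2 * π, ex n θ = if n = 0 then 1 else 0 := by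
  split_ifs with hn
  · have : (π : ℂ) ≠ 0 := by exact_mod_cast Real.pi_ne_zero
    simp only [hn, ex_zero, intervalIntegral.integral_const, sub_zero, smul_smul]
    rw [inv_mul_cancel₀ (by positivity), one_smul]
  · have h1 : ∀ θ : ℝ, ex n θ = exp ((n * I) * θ) := fun θ => by rw [ex]; ring_nf
    simp only [h1]
    rw [integral_exp_mul_complex (by simp [hn]), ← h1, ← h1, ex_two_pi]
    simp [ex]

lemma cf_neg (U : ℝ → ℝ) (n : ℤ) : cf U (-n) = conj (cf U n) := by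
  rw [cf, cf, real_smul, real_smul, map_mul, conj_ofReal, ← intervalIntegral.intervalIntegral_conj]
  simp [conj_ex]

lemma cf_series {α : ℕ → ℂ} (hα : Summable fun j => ‖α j‖) {U : ℝ → ℝ} {c : ℝ}
    (h : ∀ θ, HasSum (fun j : ℕ => (α j * ex (j + 1) θ).re) (U θ - c)) :
    cf U 0 = c ∧ ∀ k : ℕ, cf U (k + 1) = α k / 2 := by
  have key : ∀ n : ℤ, HasSum (fun j : ℕ => α j / 2 * (if (j : ℤ) + 1 = n then 1 else 0) +
      conj (α j) / 2 * (if -((j : ℤ) + 1) = n then 1 else 0))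
      (cf U n - c * if n = 0 then 1 else 0) := by
    intro n
    have h1 := (intervalIntegral.hasSum_integral_of_dominated_convergence (a := 0) (b := 2 * π)
      (μ := volume) (F := fun (j : ℕ) θ => ex (-n) θ * ((α j * ex (j + 1) θ).re : ℂ))
      (f := fun θ => ex (-n) θ * ((U θ - c : ℝ) : ℂ)) (fun j _ => ‖α j‖)
      (fun j => ((continuous_ex _).mul (continuous_ofReal.comp (continuous_re.comp
        (continuous_const.mul (continuous_ex _))))).aestronglyMeasurable)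
      (fun j => .of_forall fun θ _ => by
        rw [norm_mul, norm_ex, one_mul, norm_real]
        exact (abs_re_le_norm _).trans (by rw [norm_mul, norm_ex, mul_one]))
      (.of_forall fun _ _ => hα) (by simp)
      (.of_forall fun θ _ => (hasSum_ofReal.2 (h θ)).mul_left _)).const_smul (2 * π)⁻¹
    have hU : Continuous fun θ => U θ - c := by
      have : (fun θ => U θ - c) = fun θ => ∑' j : ℕ, (α j * ex (j + 1) θ).re := by
        ext θ; exact (h θ).tsum_eq.symm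
      rw [this]
      exact continuous_tsum (fun j => continuous_re.comp (continuous_const.mul (continuous_ex _)))
        hα fun j θ => (abs_re_le_norm _).trans (by rw [norm_mul, norm_ex, mul_one])
    have hU' : Continuous U := (hU.add (continuous_const (y := c))).congr fun θ => by simp
    refine hs_congr h1 (fun j => ?_) ?_
    · have e : ∀ θ, ex (-n) θ * ((α j * ex (j + 1) θ).re : ℂ) =
          α j / 2 * ex (j + 1 - n) θ + conj (α j) / 2 * ex (-(j + 1) - n) θ := fun θ => by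
        rw [re_eq_add_conj, map_mul, conj_ex, sub_eq_add_neg, sub_eq_add_neg, ex_add _ (-n),
          ex_add _ (-n)]
        ring
      simp only [e]
      have hi : ∀ (a : ℂ) (m : ℤ), IntervalIntegrable (fun θ => a * ex m θ) volume 0 (2 * π) :=
        fun a m => (continuous_const.mul (continuous_ex _)).intervalIntegrable _ _
      rw [intervalIntegral.integral_add (hi _ _) (hi _ _),
        intervalIntegral.integral_const_mul, intervalIntegral.integral_const_mul, smul_add,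
        ← mul_smul_comm, ← mul_smul_comm, integral_ex, integral_ex]
      simp only [sub_eq_zero]
    · simp only [ofReal_sub, mul_sub]
      have h2 : IntervalIntegrable (fun θ => ex (-n) θ * U θ) volume 0 (2 * π) :=
        ((continuous_ex _).mul (continuous_ofReal.comp hU')).intervalIntegrable _ _
      have h3 : IntervalIntegrable (fun θ => ex (-n) θ * c) volume 0 (2 * π) :=
        ((continuous_ex _).mul continuous_const).intervalIntegrable _ _
      rw [intervalIntegral.integral_sub h2 h3, smul_sub,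
        intervalIntegral.integral_mul_const, ← smul_mul_assoc, integral_ex, cf, mul_comm (c : ℂ)]
      simp only [neg_eq_zero]
  constructor
  · have h1 := key 0
    have e : ∀ j : ℕ, ¬ ((j : ℤ) + 1 = 0) ∧ ¬ (-((j : ℤ) + 1) = 0) := fun j => by omega
    simp only [e, if_false, mul_zero, add_zero, if_true, mul_one] at h1
    exact sub_eq_zero.1 (h1.unique hasSum_zero)
  · intro k
    have h1 := key (k + 1)
    have e : ∀ j : ℕ, ¬ (-((j : ℤ) + 1) = k + 1) := fun j => by omega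
    have e' : ¬ ((k : ℤ) + 1 = 0) := by omega
    simp only [e, e', if_false, mul_zero, add_zero, sub_zero] at h1
    refine (h1.unique (hasSum_single k fun j hj => by rw [if_neg (by omega), mul_zero])).trans ?_
    simp

lemma cf_deriv {U : ℝ → ℝ} (hU : ContDiff ℝ 1 U) (hp : U (2 * π) = U 0) (n : ℤ) :
    cf (deriv U) n = I * n * cf U n := by
  have hd : ∀ θ, HasDerivAt (fun θ => (U θ : ℂ)) ((deriv U θ : ℝ) : ℂ) θ := fun θ =>
    (hU.differentiable one_ne_zero θ).hasDerivAt.ofReal_comp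
  have he : ∀ θ, HasDerivAt (ex (-n)) (-(I * n) * ex (-n) θ) θ := fun θ => by
    unfold ex
    refine ((((hasDerivAt_id θ).ofReal_comp).const_mul _).mul_const I).cexp.congr_deriv ?_
    simp only [id]
    push_cast
    ring
  have h1 := intervalIntegral.integral_mul_deriv_eq_deriv_mul (a := 0) (b := 2 * π)
    (fun θ _ => he θ) (fun θ _ => hd θ)
    ((continuous_const.mul (continuous_ex _)).intervalIntegrable _ _)
    ((continuous_ofReal.comp (hU.continuous_deriv le_rfl)).intervalIntegrable _ _)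
  rw [cf, cf, h1, ex_two_pi, hp]
  simp only [mul_assoc (-(I * (n : ℂ))), intervalIntegral.integral_const_mul, mul_smul_comm]
  simp [ex]

lemma cf_inversion {U : ℝ → ℝ} (hU : ContDiff ℝ 2 U) (hp : Function.Periodic U (2 * π)) :
    ∃ C, (∀ k : ℕ, ‖cf U (k + 1)‖ ≤ C / ((k : ℝ) + 1) ^ 2) ∧
      ∀ θ, HasSum (fun j : ℕ => (2 * cf U (j + 1) * ex (j + 1) θ).re) (U θ - (cf U 0).re) := by
  have hU1 : ContDiff ℝ 1 (deriv U) := hU.deriv' (n := 1)
  have hp1 : deriv U (2 * π) = deriv U 0 := by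
    have : (fun x => U (x + 2 * π)) = U := funext hp
    rw [← zero_add (2 * π), ← deriv_comp_add_const, this]
  set C := (2 * π)⁻¹ * ∫ θ in (0 : ℝ)..2 * π, |deriv (deriv U) θ| with hC
  have hb : ∀ k : ℕ, ‖cf U (k + 1)‖ ≤ C / ((k : ℝ) + 1) ^ 2 := by
    intro k
    have h1 := cf_deriv hU1 hp1 (k + 1)
    rw [cf_deriv (hU.of_le (by norm_num)) (by simpa using hp 0)] at h1
    have h2 : ‖cf (deriv (deriv U)) (k + 1)‖ ≤ C := by
      rw [cf, norm_smul, Real.norm_eq_abs, abs_of_pos (by positivity), hC]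
      gcongr
      refine (intervalIntegral.norm_integral_le_integral_norm (by positivity)).trans (le_of_eq ?_)
      simp only [norm_mul, norm_ex, one_mul, norm_real, Real.norm_eq_abs]
    have h3 : ‖I * (((k : ℤ) + 1 : ℤ) : ℂ)‖ = k + 1 := by
      rw [norm_mul, norm_I, one_mul, norm_intCast]
      push_cast
      exact abs_of_pos (by positivity)
    rw [h1, norm_mul, h3, norm_mul, h3] at h2
    rw [le_div_iff₀ (by positivity)]
    linarith only [h2]
  refine ⟨C, hb, fun θ => ?_⟩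
  have : Fact (0 < 2 * π) := ⟨by positivity⟩
  have hpc : Function.Periodic (fun θ => (U θ : ℂ)) (2 * π) := fun θ => by simp only [hp θ]
  set V : C(AddCircle (2 * π), ℂ) := ⟨hpc.lift, continuous_coinduced_dom.2
    (continuous_ofReal.comp hU.continuous)⟩ with hV
  have hfo : ∀ (n : ℤ) (x : ℝ), fourier n (x : AddCircle (2 * π)) = ex n x := fun n x => by
    have : (π : ℂ) ≠ 0 := by exact_mod_cast Real.pi_ne_zero
    rw [fourier_coe_apply, ex]
    congr 1
    push_cast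
    field_simp
  have hcf : ∀ n, fourierCoeff V n = cf U n := fun n => by
    rw [fourierCoeff_eq_intervalIntegral _ _ 0, zero_add, one_div, cf]
    simp only [hfo, smul_eq_mul]
    rfl
  have hs : Summable fun k : ℕ => ‖cf U (k + 1)‖ :=
    Summable.of_nonneg_of_le (fun _ => norm_nonneg _) hb (by
      have := (summable_nat_add_iff 1).2 (Real.summable_one_div_nat_pow.2 one_lt_two)
      simpa [div_eq_mul_inv] using this.mul_left C)
  have hsum : Summable (fourierCoeff V) := by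
    refine Summable.of_norm (Summable.of_nat_of_neg_add_one ?_ ?_)
    · rw [← summable_nat_add_iff 1]
      simpa only [hcf, Nat.cast_succ] using hs
    · simpa only [hcf, cf_neg, Complex.norm_conj] using hs
  have h1 := (has_pointwise_sum_fourier_series_of_summable hsum θ).nat_add_neg
  have h2 := (hasSum_nat_add_iff' 1).2 (hasSum_re h1)
  simp only [hcf, hfo, cf_neg, ← conj_ex, smul_eq_mul, ← map_mul, add_re, conj_re,
    Finset.range_one, Finset.sum_singleton, Nat.cast_zero, ex_zero, mul_one] at h2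
  refine hs_congr h2 (fun j => ?_) ?_
  · rw [mul_assoc, two_mul, add_re]
    push_cast
    rfl
  · have : (V θ).re = U θ := rfl
    rw [this]
    ring

lemma hasDerivAt_cf {H : ℝ × ℝ → ℝ} (hH : ∀ θ, ContDiffAt ℝ 1 H (1, θ)) (n : ℤ) :
    HasDerivAt (fun r => cf (fun θ => H (r, θ)) n)
      (cf (fun θ => deriv (fun r => H (r, θ)) 1) n) 1 := by
  have ho : IsOpen {p | ContDiffAt ℝ 1 H p} :=
    isOpen_iff_mem_nhds.2 fun p hp => ContDiffAt.eventually hp (by simp)
  obtain ⟨u, v, hu, -, h1, h2, h3⟩ := generalized_tube_lemma (s := {(1 : ℝ)})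
    (t := Icc (0 : ℝ) (2 * π)) isCompact_singleton isCompact_Icc ho
    (by rintro ⟨r, θ⟩ ⟨rfl, -⟩; exact hH θ)
  obtain ⟨δ, hδ, hb⟩ := Metric.nhds_basis_closedBall.mem_iff.1 (hu.mem_nhds (h1 rfl))
  have hW : ∀ r ∈ Metric.closedBall (1 : ℝ) δ, ∀ θ ∈ Icc (0 : ℝ) (2 * π),
      ContDiffAt ℝ 1 H (r, θ) := fun r hr θ hθ => h3 (mk_mem_prod (hb hr) (h2 hθ))
  have hc : ContinuousOn (fun p : ℝ × ℝ => fderiv ℝ H p (1, 0))
      (Metric.closedBall 1 δ ×ˢ Icc 0 (2 * π)) := fun p hp =>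
    (((hW p.1 hp.1 p.2 hp.2).continuousAt_fderiv one_ne_zero).clm_apply
      continuousAt_const).continuousWithinAt
  obtain ⟨M, hM⟩ := ((isCompact_closedBall _ _).prod isCompact_Icc).exists_bound_of_continuousOn hc
  have hd : ∀ r θ, ContDiffAt ℝ 1 H (r, θ) →
      HasDerivAt (fun r => H (r, θ)) (fderiv ℝ H (r, θ) (1, 0)) r := fun r θ h =>
    (h.differentiableAt one_ne_zero).hasFDerivAt.comp_hasDerivAt r
      ((hasDerivAt_id r).prodMk (hasDerivAt_const r θ))
  have hI : uIoc (0 : ℝ) (2 * π) ⊆ Icc 0 (2 * π) := by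
    rw [uIoc_of_le (by positivity)]; exact Ioc_subset_Icc_self
  have hcH : ∀ r ∈ Metric.closedBall (1 : ℝ) δ,
      ContinuousOn (fun θ => ex (-n) θ * H (r, θ)) (Icc 0 (2 * π)) := fun r hr =>
    (continuous_ex _).continuousOn.mul (continuous_ofReal.comp_continuousOn fun θ hθ =>
      ((hW r hr θ hθ).continuousAt.comp (f := fun θ => (r, θ)) (by fun_prop)).continuousWithinAt)
  have key := (intervalIntegral.hasDerivAt_integral_of_dominated_loc_of_deriv_le (μ := volume)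
    (F := fun r θ => ex (-n) θ * H (r, θ))
    (F' := fun r θ => ex (-n) θ * (fderiv ℝ H (r, θ) (1, 0) : ℝ)) (bound := fun _ => M)
    (Metric.closedBall_mem_nhds 1 hδ)
    (by
      filter_upwards [Metric.closedBall_mem_nhds 1 hδ] with r hr
      exact ((hcH r hr).mono hI).aestronglyMeasurable measurableSet_uIoc)
    ((hcH 1 (Metric.mem_closedBall_self hδ.le)).intervalIntegrable_of_Icc (by positivity))
    ((((continuous_ex _).continuousOn.mul (continuous_ofReal.comp_continuousOn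
      (hc.comp (f := fun θ => ((1 : ℝ), θ)) (by fun_prop) fun θ hθ =>
        ⟨Metric.mem_closedBall_self hδ.le, hθ⟩))).mono hI).aestronglyMeasurable measurableSet_uIoc)
    (.of_forall fun θ hθ r hr => by
      rw [norm_mul, norm_ex, one_mul, norm_real]
      exact hM (r, θ) ⟨hr, hI hθ⟩) (by simp)
    (.of_forall fun θ hθ r hr => (hd r θ (hW r hr θ (hI hθ))).ofReal_comp.const_mul _)).2
  unfold cf
  simp only [fun θ => (hd 1 θ (hH θ)).deriv]
  exact key.const_smul (2 * π)⁻¹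

lemma cf_const_mul (σ : ℝ) (U : ℝ → ℝ) (n : ℤ) : cf (fun θ => σ * U θ) n = σ * cf U n := by
  simp only [cf, ofReal_mul, mul_left_comm _ (σ : ℂ), intervalIntegral.integral_const_mul,
    mul_smul_comm]

end Pool.Agent.Work.MP_a6a438_an
end

-- merged part: Pool.Agent.Work.MP_a6a438_an.Kernel
section
/-!
The kernel of the Steklov pencil of a surface with small handles, and the harmonic functions with
prescribed Faber coefficients.
-/

set_option autoImplicit false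

open Complex Metric Set Filter Topology InnerProductSpace
open scoped ComplexConjugate

namespace Pool.Agent.Work.MP_a6a438_an

variable {P : Type} [Fintype P] [DecidableEq P]

/-- The Faber polynomials near the handles. -/
noncomputable def FY (bb : ℕ → ℂ) (S : ℝ) (j : ℕ) : YY 2 :=
  ⟨fun w => fab bb j (w / S), (differentiable_fab bb j).continuous.comp (by fun_prop)⟩

/-- The coefficients of the Cauchy kernel near the handles. -/
noncomputable def EY (bb : ℕ → ℂ) (S : ℝ) (i : ℕ) : YY 2 :=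
  ⟨fun w => PowerSeries.coeff i (sE bb (w / S)) / S,
    ((differentiable_coeff_sE bb i).continuous.comp (by fun_prop)).div_const _⟩

/-- The contribution of the handles. -/
noncomputable def HH (C : Cfg P) (bb : ℕ → ℂ) (S : ℝ) (i j : ℕ) : Ent :=
  (conjCLE : ℂ →L[ℝ] ℂ).comp ((C.pairL.flip (EY bb S i)).comp
    (C.gam.comp ((ContinuousLinearMap.id ℝ ℂ).smulRight (FY bb S j))))

/-- The antilinear map with a given coefficient. -/
noncomputable def anti (a : ℂ) : Ent := (conjCLE : ℂ →L[ℝ] ℂ).comp (ContinuousLinearMap.mul ℝ ℂ a)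

/-- The kernel of the pencil. -/
noncomputable def BB (C : Cfg P) (bb : ℕ → ℂ) (S : ℝ) (i j : ℕ) : Ent :=
  anti (gr bb i j) + HH C bb S i j

lemma anti_apply (a x : ℂ) : anti a x = conj (a * x) := rfl

lemma HH_apply (C : Cfg P) (bb : ℕ → ℂ) (S : ℝ) (i j : ℕ) (x : ℂ) :
    HH C bb S i j x = conj (C.pairL (C.gam (x • FY bb S j)) (EY bb S i)) := rfl

lemma norm_anti_le (a : ℂ) : ‖anti a‖ ≤ ‖a‖ :=
  ContinuousLinearMap.opNorm_le_bound _ (norm_nonneg _) fun x => by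
    rw [anti_apply, Complex.norm_conj, norm_mul]

lemma continuous_BB (C : Cfg P) {Λ : Type} [TopologicalSpace Λ] {bb : Λ → ℕ → ℂ} {S : Λ → ℝ}
    (hb : Continuous bb) (hS : Continuous S) (hS0 : ∀ l, S l ≠ 0) (i j : ℕ) :
    Continuous fun l => BB C (bb l) (S l) i j := by
  have hS' : Continuous fun p : Λ × closedBall (0 : ℂ) 2 => ((S p.1 : ℝ) : ℂ) := by fun_prop
  have hS0' : ∀ p : Λ × closedBall (0 : ℂ) 2, ((S p.1 : ℝ) : ℂ) ≠ 0 := fun p => by
    exact_mod_cast hS0 p.1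
  have h0 : Continuous fun p : Λ × closedBall (0 : ℂ) 2 => (bb p.1, (p.2 : ℂ) / S p.1) :=
    (hb.comp continuous_fst).prodMk ((continuous_subtype_val.comp continuous_snd).div hS' hS0')
  have h1 : Continuous fun l => FY (bb l) (S l) j :=
    ContinuousMap.continuous_of_continuous_uncurry _ ((continuous_fab j).comp h0)
  have h2 : Continuous fun l => EY (bb l) (S l) i :=
    ContinuousMap.continuous_of_continuous_uncurry _
      (((continuous_coeff_sE i).comp h0).div hS' hS0')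
  rw [continuous_clm_apply]
  intro x
  have h3 := (continuous_gr i j).comp hb
  exact (continuous_conj.comp (h3.mul continuous_const)).add (continuous_conj.comp
    ((C.pairL.continuous.comp (C.gam.continuous.comp (h1.const_smul x))).clm_apply h2))

/-- The standing assumptions on the parameters. -/
structure Par (bb : ℕ → ℂ) (a R S : ℝ) : Prop where
  a_nonneg : 0 ≤ a
  a_le : a ≤ 1 / 256
  bound : Bb bb a R
  R_pos : 0 < R
  R_le : R ≤ 1 / 65536
  S_ge : 8192 ≤ S * R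

/-- The boundary coefficients on the circle of radius `r`. -/
noncomputable def al (y ψ : ℕ → ℂ) (r : ℝ) (j : ℕ) : ℂ :=
  y j * r ^ (j + 1) / (j + 1) + ψ j * (r⁻¹ : ℝ) ^ (j + 1)

namespace Par

variable {bb : ℕ → ℂ} {a R S : ℝ} (h : Par bb a R S) (C : Cfg P)
include h

lemma bound' : Bb bb (1 / 256) R := h.bound.mono h.a_nonneg h.R_pos.le h.a_le le_rfl

lemma S_big : 8192 * 65536 ≤ S := by (refine le_of_not_gt fun h_nl => ?_; linarith only [h_nl, h, h.S_ge, h.R_pos, h.R_le, mul_pos_of_neg_of_neg (Mathlib.Tactic.Linarith.sub_neg_of_lt h_nl) (Mathlib.Tactic.Linarith.sub_neg_of_lt h.R_pos)])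

lemma S_pos : 0 < S := by linarith [h.S_big]

lemma conf : Conf (fun z => S * gg bb z) S :=
  conf_gg h.bound' h.R_pos.le (by linarith only [h, h.R_le]) (by linarith [h.S_big])

lemma norm_div_S {w : ℂ} (hw : ‖w‖ ≤ 2) : ‖w / S‖ ≤ 2 / S ∧ ‖w / S‖ ≤ R / 4096 := by
  have h1 : ‖w / S‖ ≤ 2 / S := by
    rw [norm_div, h.conf.norm_S]
    gcongr
    exact h.S_pos.le
  refine ⟨h1, h1.trans ?_⟩
  rw [div_le_div_iff₀ h.S_pos (by norm_num)]
  linarith [h.S_ge]

lemma norm_FY_le (j : ℕ) : ‖FY bb S j‖ ≤ 131072 / S * R ^ j * vv j := by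
  have h1 := vv_pos j
  have h2 := h.S_pos
  have h3 := h.R_pos
  refine (ContinuousMap.norm_le _ (by positivity)).2 fun w => ?_
  obtain ⟨h4, h5⟩ := h.norm_div_S (mem_closedBall_zero_iff.1 w.2)
  calc _ ≤ 65536 * ‖(w : ℂ) / S‖ * R ^ j * vv j := fab_le h.bound' h3.le h5 j
    _ ≤ 65536 * (2 / S) * R ^ j * vv j := by gcongr
    _ = _ := by ring

lemma norm_EY_le (i : ℕ) : ‖EY bb S i‖ ≤ 2 / S * R ^ i * vv i := by
  have h1 := vv_pos i
  have h2 := h.S_pos
  have h3 := h.R_pos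
  refine (ContinuousMap.norm_le _ (by positivity)).2 fun w => ?_
  obtain ⟨-, h5⟩ := h.norm_div_S (mem_closedBall_zero_iff.1 w.2)
  change ‖PowerSeries.coeff i (sE bb (w / S)) / S‖ ≤ _
  rw [norm_div, h.conf.norm_S]
  calc _ ≤ 2 * R ^ i * vv i / S := by gcongr; exact coeff_sE_le h.bound' h3.le h5 i
    _ = _ := by ring

lemma norm_HH_le (i j : ℕ) :
    ‖HH C bb S i j‖ ≤ 5000000 * (C.τ / S ^ 2) * R ^ (i + j) * (vv i * vv j) := by
  have h1 := vv_pos i
  have h1' := vv_pos j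
  have h2 := h.S_pos
  have h3 := h.R_pos
  have h4 := C.τ_pos
  refine ContinuousLinearMap.opNorm_le_bound _ (by positivity) fun x => ?_
  rw [HH_apply, Complex.norm_conj, Cfg.pairL_apply]
  refine (C.norm_pairF_le _ _).trans ?_
  calc _ ≤ 9 * C.τ * (2 * (‖x‖ * (131072 / S * R ^ j * vv j))) * (2 / S * R ^ i * vv i) := by
        gcongr
        · refine (C.norm_gam_le _).trans ?_
          rw [norm_smul]
          gcongr
          exact h.norm_FY_le j
        · exact h.norm_EY_le i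
    _ = 4718592 * (C.τ / S ^ 2 * R ^ (i + j) * (vv i * vv j) * ‖x‖) := by ring
    _ ≤ 5000000 * (C.τ / S ^ 2 * R ^ (i + j) * (vv i * vv j) * ‖x‖) := by gcongr; norm_num
    _ = _ := by ring

lemma kb : KB (BB C bb S) (2 * a * R ^ 2 + 5000000 * (C.τ / S ^ 2)) R := by
  have h0 := h.a_nonneg
  have h2 := h.S_pos
  have h3 := h.R_pos
  have h4 := C.τ_pos
  have h5 := h.R_le
  refine ⟨by positivity, ?_, h3.le, by linarith only [h3, h5], fun i j => ?_⟩
  · have h6 : C.τ / S ^ 2 ≤ (1 / 100) / (8192 * 65536) ^ 2 := by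
      gcongr
      exacts [C.τ_le, h.S_big]
    have h7 : a * R ^ 2 ≤ 1 / 256 * (1 / 65536) ^ 2 := by gcongr; exact h.a_le
    norm_num at h6 h7 ⊢
    linarith only [h3, h5, h6, h7]
  · have h6 := (norm_anti_le _).trans (gr_le h.bound h0 h3.le h.a_le i j)
    have h7 := h.norm_HH_le C i j
    have h8 : 2 * a * R ^ (i + j + 2) * vv (i + j + 2) ≤ 2 * a * R ^ (i + j + 2) :=
      mul_le_of_le_one_right (by positivity) (vv_le_one _)
    have h9 : 5000000 * (C.τ / S ^ 2) * R ^ (i + j) * (vv i * vv j) ≤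
        5000000 * (C.τ / S ^ 2) * R ^ (i + j) :=
      mul_le_of_le_one_right (by positivity)
        (mul_le_one₀ (vv_le_one _) (vv_pos _).le (vv_le_one _))
    refine (norm_add_le _ _).trans ?_
    rw [mul_assoc, ← pow_add, add_mul, mul_assoc (2 * a), ← pow_add, add_comm 2]
    linarith only [h6, h7, h8, h9]

theorem exists_harm {y : Seq} (hy : Summable fun j => ‖y j‖ * 8192 ^ j) : ∃ u : ℂ → ℝ,
    (∀ w, ‖w‖ < 2 * S → (∀ p, 4 * C.ε ^ 2 < ‖w - C.c p‖) → HarmonicAt u w) ∧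
    (∀ p w, 4 * C.ε ^ 2 < ‖w - C.c p‖ → ‖w - C.c p‖ < 1 / 4 →
      u (glue (C.c p) (C.c (C.bar p)) C.ε w) = u w) ∧
    ∀ r θ : ℝ, 1 / 2 < r → r < 3 / 2 →
      HasSum (fun j : ℕ => (al y (fun i => row (BB C bb S) i y) r j * ex (j + 1) θ).re)
        (u (S * gg bb (r * ex 1 θ))) := by
  have hS := h.S_pos
  have hS' := h.S_big
  have hR := h.R_pos
  have hR' := h.R_le
  have hS0 : (S : ℂ) ≠ 0 := by exact_mod_cast hS.ne'
  have hcr : ∀ j (w : ℂ), ‖w‖ ≤ 2 → ‖y j * fab bb j w‖ ≤ 131072 * (‖y j‖ * 8192 ^ j) := by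
    intro j w hw
    have h1 := fab_le (R := 8192) (h.bound'.mono (by norm_num) hR.le le_rfl (by linarith only [hR, hR']))
      (by norm_num) (w := w) (by linarith) j
    have h2 := vv_le_one j
    have h3 := vv_pos j
    rw [norm_mul]
    calc _ ≤ ‖y j‖ * (65536 * 2 * 8192 ^ j * 1) := by gcongr; exact h1.trans (by gcongr)
      _ = _ := by ring
  have hdiv : ∀ w : ℂ, ‖w‖ ≤ 2 * S → ‖w / S‖ ≤ 2 := fun w hw => by
    rw [norm_div, h.conf.norm_S, div_le_iff₀ hS]; exact hw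
  set f : ℂ → ℂ := fun w => ∑' j, y j * fab bb j (w / S) with hf
  have hfd : DifferentiableOn ℂ f (ball 0 (2 * S)) :=
    differentiableOn_tsum_of_summable_norm (hy.mul_left 131072) (fun j =>
      (((differentiable_fab bb j).comp (differentiable_id.div_const _)).const_mul
        _).differentiableOn) isOpen_ball fun j w hw =>
          hcr j _ (hdiv w (mem_ball_zero_iff.1 hw).le)
  have hfa : ∀ w : ℂ, ‖w‖ < 2 * S → AnalyticAt ℂ f w := fun w hw =>
    hfd.analyticAt (isOpen_ball.mem_nhds (mem_ball_zero_iff.2 hw))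
  have hFs : Summable fun j => y j • FY bb S j :=
    Summable.of_norm_bounded (hy.mul_left 131072) fun j =>
      (ContinuousMap.norm_le _ (by positivity)).2 fun w =>
        hcr j _ (hdiv w (by linarith only [hS', hR, hR', mem_closedBall_zero_iff.1 w.2]))
  set F : YY 2 := ∑' j, y j • FY bb S j with hF
  have hFf : ∀ w, F w = f w := fun w =>
    ((ContinuousMap.evalCLM ℝ w).hasSum hFs.hasSum).tsum_eq.symm
  have hκ : Summable fun j => y j * kap bb j :=
    Summable.of_norm_bounded (hy.mul_left 512) fun j => by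
      rw [norm_mul]
      have h1 := kap_le h.bound' hR.le (by linarith only [hR, hR']) j
      have h2 : (1 : ℝ) ≤ 8192 ^ j := one_le_pow₀ (by norm_num)
      (refine le_of_not_gt fun h_nl => ?_; linarith only [h_nl, h1, hR, hR', h2, norm_nonneg (y j), mul_le_mul_of_nonneg_left h1 (norm_nonneg (y j)), mul_pos_of_neg_of_neg (Mathlib.Tactic.Linarith.sub_neg_of_lt hR) (Mathlib.Tactic.Linarith.sub_neg_of_lt h_nl), mul_nonneg_of_nonpos_of_nonpos (Mathlib.Tactic.Linarith.sub_nonpos_of_le hR') (le_of_lt (Mathlib.Tactic.Linarith.sub_neg_of_lt h_nl)), mul_nonneg_of_nonpos_of_nonpos (Mathlib.Tactic.Linarith.sub_nonpos_of_le h2) (Mathlib.Tactic.Linarith.sub_nonpos_of_le (norm_nonneg (y j)))])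
  refine ⟨fun w => (f w).re + C.vh (C.gam F) w + (∑' j, y j * kap bb j).re, fun w h1 h2 =>
    ((hfa w h1).harmonicAt_re.add (C.vh_harmonic _ h2)).add (harmonicAt_const _),
    fun p w h1 h2 => ?_, fun r θ h1 h2 => ?_⟩
  · simp only
    rw [C.glue_inv (fun w hw => (hfa w (by linarith only [hS', hR, hR', hw])).differentiableAt) hFf p h1 h2]
  set z : ℂ := r * ex 1 θ with hz
  have hzn : ‖z‖ = r := by
    rw [hz, norm_mul, norm_ex, norm_real, Real.norm_eq_abs, abs_of_pos (by linarith only [hR, hR', h1]), mul_one]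
  have hz1 : 1 / 2 < ‖z‖ := by rwa [hzn]
  have hz0 : z ≠ 0 := norm_pos_iff.1 (by linarith only [hR, hR', h1, hzn])
  have hx2 := norm_inv_le_two hz1
  have hx : R * ‖z⁻¹‖ ≤ 1 / 4 := by linarith only [hR', hR, hx2, mul_pos_of_neg_of_neg (Mathlib.Tactic.Linarith.sub_neg_of_lt hR) (Mathlib.Tactic.Linarith.sub_neg_of_lt hR), mul_nonneg_of_nonpos_of_nonpos (le_of_lt (Mathlib.Tactic.Linarith.sub_neg_of_lt hR)) (Mathlib.Tactic.Linarith.sub_nonpos_of_le hR'), mul_nonneg_of_nonpos_of_nonpos (le_of_lt (Mathlib.Tactic.Linarith.sub_neg_of_lt hR)) (Mathlib.Tactic.Linarith.sub_nonpos_of_le hx2)]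
  have hg : ‖gg bb z‖ ≤ 2 := by
    linarith only [hR, hR', h2, hzn, h, hz1, gg_near h.bound' hR.le (by linarith) hz1, norm_sub_norm_le (gg bb z) z]
  have hw := h.conf.two_lt hz1
  set w := S * gg bb z with hwd
  have hwS : w / S = gg bb z := by rw [hwd]; field_simp
  have hne : ∀ η : closedBall (0 : ℂ) 2, w - η ≠ 0 := fun η h0 => by
    rw [sub_eq_zero.1 h0] at hw
    linarith only [hw, mem_closedBall_zero_iff.1 η.2]
  set Φ : YY 2 := ⟨fun η => (w - η)⁻¹, Continuous.inv₀ (by fun_prop) hne⟩ with hΦ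
  have hpow : ∀ i : ℕ, ‖z⁻¹ ^ (i + 1)‖ * R ^ i ≤ 2 * (1 / 4) ^ i := fun i => by
    rw [norm_pow, pow_succ', mul_assoc, ← mul_pow, mul_comm _ R]
    gcongr
  have hE : HasSum (fun i => z⁻¹ ^ (i + 1) • EY bb S i) Φ := by
    have h3 : Summable fun i => z⁻¹ ^ (i + 1) • EY bb S i :=
      Summable.of_norm_bounded (hasSum_quarter.mul_left (2 / S * 2)).summable fun i => by
        rw [norm_smul]
        calc _ ≤ ‖z⁻¹ ^ (i + 1)‖ * (2 / S * R ^ i * 1) := by
              gcongr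
              exact (h.norm_EY_le i).trans (by gcongr; exact vv_le_one i)
          _ = 2 / S * (‖z⁻¹ ^ (i + 1)‖ * R ^ i) := by ring
          _ ≤ 2 / S * (2 * (1 / 4) ^ i) := mul_le_mul_of_nonneg_left (hpow i) (by positivity)
          _ = _ := by ring
    refine hs_congr h3.hasSum (fun _ => rfl) ?_
    ext η
    have h4 := (hasSum_sE h.bound' hR.le hz0 (by linarith only [hR, hR', hx])
      (h.norm_div_S (mem_closedBall_zero_iff.1 η.2)).2).div_const (S : ℂ)
    refine Eq.trans ?_ (h4.unique (hs_congr ((ContinuousMap.evalCLM ℝ η).hasSum h3.hasSum)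
      (fun i => ?_) rfl))
    · rw [← hwS, ← sub_div, inv_div, div_div_cancel_left' hS0]
      rfl
    · change _ = z⁻¹ ^ (i + 1) * (PowerSeries.coeff i (sE bb (η / S)) / S)
      ring
  have hv : HasSum (fun i => z⁻¹ ^ (i + 1) * C.pairL (C.gam F) (EY bb S i))
      (C.pairL (C.gam F) Φ) :=
    hs_congr ((C.pairL (C.gam F)).hasSum hE) (fun i => (C.pairL_csmul _ _ _).symm) rfl
  have hgr : ∀ i j, ‖y j * gr bb i j‖ ≤ ‖y‖ * (R ^ i * (1 / 4) ^ j) := fun i j => by
    have h3 := gr_le h.bound' (by norm_num) hR.le le_rfl i j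
    have h4 : R ^ 2 * vv (i + j + 2) ≤ 1 :=
      mul_le_one₀ (pow_le_one₀ hR.le (by linarith only [hR, hR'])) (vv_pos _).le (vv_le_one _)
    have h5 : 0 ≤ R ^ i * R ^ j := by positivity
    rw [norm_mul]
    gcongr
    · exact y.norm_coe_le_norm j
    · calc _ ≤ R ^ i * R ^ j := by
            rw [pow_add, pow_add] at h3
            (refine le_of_not_gt fun h_nl => ?_; linarith only [h_nl, h3, h5, hR, hR', h4, mul_pos_of_neg_of_neg (Mathlib.Tactic.Linarith.sub_neg_of_lt hR) (Mathlib.Tactic.Linarith.sub_neg_of_lt h_nl), mul_nonneg_of_nonpos_of_nonpos (Mathlib.Tactic.Linarith.sub_nonpos_of_le hR') (le_of_lt (Mathlib.Tactic.Linarith.sub_neg_of_lt h_nl)), mul_nonneg_of_nonpos_of_nonpos (Mathlib.Tactic.Linarith.sub_nonpos_of_le h4) (Mathlib.Tactic.Linarith.sub_nonpos_of_le h5)])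
        _ ≤ _ := by gcongr; linarith only [hR, hR']
  have hT : Summable fun p : ℕ × ℕ => y p.2 * gr bb p.1 p.2 * z⁻¹ ^ (p.1 + 1) := by
    refine Summable.of_norm_bounded ((hasSum_quarter.summable.mul_of_nonneg
      hasSum_quarter.summable (fun _ => by positivity) fun _ => by positivity).mul_left
      (‖y‖ * 2)) fun p => ?_
    rw [norm_mul]
    calc _ ≤ ‖y‖ * (R ^ p.1 * (1 / 4) ^ p.2) * ‖z⁻¹ ^ (p.1 + 1)‖ := by gcongr; exact hgr _ _
      _ = ‖y‖ * (‖z⁻¹ ^ (p.1 + 1)‖ * R ^ p.1) * (1 / 4) ^ p.2 := by ring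
      _ ≤ ‖y‖ * (2 * (1 / 4) ^ p.1) * (1 / 4) ^ p.2 := mul_le_mul_of_nonneg_right
          (mul_le_mul_of_nonneg_left (hpow _) (norm_nonneg _)) (by positivity)
      _ = _ := by ring
  have hψ : ∀ i, HasSum (fun j => y j * gr bb i j)
      (conj (row (BB C bb S) i y) - C.pairL (C.gam F) (EY bb S i)) := fun i => by
    have h3 := (conjCLE : ℂ →L[ℝ] ℂ).hasSum ((h.kb C).hasSum_row i y)
    have h4 := ((C.pairL.flip (EY bb S i)).comp C.gam).hasSum hFs.hasSum
    refine hs_congr (h3.sub h4) (fun j => ?_) rfl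
    simp [BB, anti_apply, HH_apply, mul_comm]
  have hA := hT.hasSum.prod_fiberwise fun i => (hψ i).mul_right (z⁻¹ ^ (i + 1))
  have hB := (((Equiv.prodComm ℕ ℕ).hasSum_iff.2 hT.hasSum)).prod_fiberwise fun j =>
    hs_congr ((hasSum_gr h.bound' hR.le hz0 (by linarith only [hR, hR', hx]) j).mul_left (y j))
      (fun i => mul_assoc _ _ _) rfl
  have hfw : HasSum (fun j => y j * fab bb j (gg bb z)) (f w) := by
    rw [hf]
    simp only [hwS]
    exact (Summable.of_norm_bounded (hy.mul_left 131072) fun j => hcr j _ hg).hasSum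
  have hall := hasSum_re ((((hfw.add hκ.hasSum).sub hB).add hA).add hv)
  refine hs_congr hall (fun j => ?_) ?_
  · have e1 : ex (j + 1) θ = ex 1 θ ^ (j + 1) := by
      rw [ex, ex, ← exp_nat_mul]; push_cast; ring_nf
    have e2 : conj z⁻¹ = (r⁻¹ : ℝ) * ex 1 θ := by
      have h3 := ex_add 1 (-1) θ
      rw [add_neg_cancel, ex_zero] at h3
      rw [hz, mul_inv, ← eq_inv_of_mul_eq_one_right h3.symm, map_mul, conj_ex, neg_neg,
        ← ofReal_inv, conj_ofReal]
    have e3 : (row (BB C bb S) j y * (r⁻¹ : ℝ) ^ (j + 1) * ex (j + 1) θ).re =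
        (conj (row (BB C bb S) j y) * z⁻¹ ^ (j + 1)).re := by
      rw [← conj_re (conj _ * _), map_mul, map_pow, e2, conj_conj, e1, mul_pow, mul_assoc]
    rw [al, add_mul, add_re, e3, ← add_re, e1]
    congr 1
    rw [hz]
    ring
  · simp only
    rw [C.vh_ext _ hw (Φ := Φ) fun _ => rfl]
    simp only [add_re, sub_re]
    ring

end Par

end Pool.Agent.Work.MP_a6a438_an
end
end

-- merged part: Pool.Agent.Work.MP_a6a438_an.Final
section
-- merged part: Pool.Agent.Work.MP_a6a438_an.Roots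
section
/-!
Real-linear maps of the complex plane, and the two roots in each window.
-/

set_option autoImplicit false

open Complex Set
open scoped ComplexConjugate

namespace Pool.Agent.Work.MP_a6a438_an

/-- The complex-linear part. -/
noncomputable def pp (M : Ent) : ℂ := (M 1 - I * M I) / 2

/-- The antilinear part. -/
noncomputable def qq (M : Ent) : ℂ := (M 1 + I * M I) / 2

lemma ent_apply (M : Ent) (x : ℂ) : M x = pp M * x + qq M * conj x := by
  have e : x = x.re • (1 : ℂ) + x.im • I := by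
    simp [re_add_im]
  have h1 : M x = x.re * M 1 + x.im * M I := by
    conv_lhs => rw [e, map_add, map_smul, map_smul]
    simp
  have h2 : conj x = x.re - x.im * I := by
    apply Complex.ext <;> simp
  rw [h1, h2, pp, qq]
  conv_rhs => rw [← re_add_im x]
  simp only [add_re, ofReal_re, mul_re, I_re, mul_zero, ofReal_im, I_im, mul_one, sub_self,
    add_zero, add_im, mul_im, zero_add]
  linear_combination (x.im * M I) * I_sq

lemma pp_eq {M : Ent} {p q : ℂ} (h : ∀ x, M x = p * x + q * conj x) : pp M = p := by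
  rw [pp, h, h, conj_I, map_one]
  linear_combination (q - p) / 2 * I_sq

lemma qq_eq {M : Ent} {p q : ℂ} (h : ∀ x, M x = p * x + q * conj x) : qq M = q := by
  rw [qq, h, h, conj_I, map_one]
  linear_combination (p - q) / 2 * I_sq

lemma norm_pp_le (M : Ent) : ‖pp M‖ ≤ ‖M‖ := by
  have h1 := M.le_opNorm 1
  have h2 := M.le_opNorm I
  have h3 := norm_sub_le (M 1) (I * M I)
  rw [norm_mul] at h3
  simp only [norm_one, norm_I, mul_one, one_mul] at h1 h2 h3
  rw [pp, norm_div, Complex.norm_two]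
  linarith only [h1, h2, h3]

lemma norm_qq_le (M : Ent) : ‖qq M‖ ≤ ‖M‖ := by
  have h1 := M.le_opNorm 1
  have h2 := M.le_opNorm I
  have h3 := norm_add_le (M 1) (I * M I)
  rw [norm_mul] at h3
  simp only [norm_one, norm_I, mul_one, one_mul] at h1 h2 h3
  rw [qq, norm_div, Complex.norm_two]
  linarith only [h1, h2, h3]

lemma pp_sub (M N : Ent) : pp (M - N) = pp M - pp N := by
  simp only [pp, _root_.sub_apply]; ring

lemma qq_sub (M N : Ent) : qq (M - N) = qq M - qq N := by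
  simp only [qq, _root_.sub_apply]; ring

lemma continuous_pp : Continuous pp := by unfold pp; fun_prop

lemma continuous_qq : Continuous qq := by unfold qq; fun_prop

/-- The corrected size of the antilinear part. -/
noncomputable def qt (M : Ent) : ℝ := √(‖qq M‖ ^ 2 - (pp M).im ^ 2)

lemma continuous_qt : Continuous qt :=
  Real.continuous_sqrt.comp ((continuous_qq.norm.pow 2).sub
    ((continuous_im.comp continuous_pp).pow 2))

/-- The two root functions. -/
noncomputable def FF (s d : ℝ) (M : Ent) : ℝ := d - (pp M).re - s * qt M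

lemma qt_sq {M : Ent} (h : |(pp M).im| ≤ ‖qq M‖) : qt M ^ 2 = ‖qq M‖ ^ 2 - (pp M).im ^ 2 := by
  rw [qt, Real.sq_sqrt]
  have := sq_le_sq' (abs_le.1 h).1 (abs_le.1 h).2
  linarith

lemma qt_nonneg (M : Ent) : 0 ≤ qt M := Real.sqrt_nonneg _

lemma qt_le (M : Ent) : qt M ≤ ‖qq M‖ :=
  Real.sqrt_le_iff.2 ⟨norm_nonneg _, by linarith only [sq_nonneg (pp M).im, sq_nonneg (pp M).im]⟩

lemma le_qt {M : Ent} (h : |(pp M).im| ≤ ‖qq M‖) : ‖qq M‖ - |(pp M).im| ≤ qt M := by
  refine Real.le_sqrt_of_sq_le ?_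
  have h1 := sq_abs (pp M).im
  have h2 := abs_nonneg (pp M).im
  linarith only [h1, h, h2, mul_nonneg_of_nonpos_of_nonpos (Mathlib.Tactic.Linarith.sub_nonpos_of_le h) (Mathlib.Tactic.Linarith.sub_nonpos_of_le h2)]

lemma kernel_iff {M : Ent} (hq : qq M ≠ 0) (h : |(pp M).im| ≤ ‖qq M‖) (d : ℝ) :
    (∃ x : ℂ, x ≠ 0 ∧ d • x = M x) ↔ FF 1 d M = 0 ∨ FF (-1) d M = 0 := by
  have h1 : (FF 1 d M = 0 ∨ FF (-1) d M = 0) ↔ ‖(d : ℂ) - pp M‖ = ‖qq M‖ := by
    rw [← mul_eq_zero, ← sq_eq_sq₀ (norm_nonneg _) (norm_nonneg _), Complex.sq_norm (d - pp M),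
      normSq_apply]
    have := qt_sq h
    simp only [FF, sub_re, ofReal_re, sub_im, ofReal_im]
    constructor <;> intro h2 <;> nlinarith
  have h2 : ∀ x : ℂ, d • x = M x ↔ ((d : ℂ) - pp M) * x = qq M * conj x := fun x => by
    rw [ent_apply, real_smul]
    constructor <;> intro h2 <;> linear_combination h2
  rw [h1]
  simp only [h2]
  constructor
  · rintro ⟨x, hx, h3⟩
    have h4 := congrArg norm h3
    rw [norm_mul, norm_mul, Complex.norm_conj] at h4
    exact mul_right_cancel₀ (norm_ne_zero_iff.2 hx) h4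
  · intro h3
    have h4 : (d : ℂ) - pp M ≠ 0 := by
      rw [← norm_ne_zero_iff, h3]; exact norm_ne_zero_iff.2 hq
    obtain ⟨x, hx⟩ := IsAlgClosed.exists_pow_nat_eq (qq M / (d - pp M)) (by norm_num : 0 < 2)
    have h5 : ‖x‖ ^ 2 = 1 := by
      rw [← norm_pow, hx, norm_div, h3, div_self (norm_ne_zero_iff.2 hq)]
    have h6 : x * conj x = 1 := by
      rw [mul_conj, normSq_eq_norm_sq, h5]; simp
    refine ⟨x, fun h0 => by simp [h0] at h5, ?_⟩
    have h7 : qq M = (d - pp M) * x ^ 2 := by rw [hx]; field_simp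
    rw [h7]
    linear_combination (-(d - pp M) * x) * h6

lemma kernel_unique {M : Ent} (hq : qq M ≠ 0) {d : ℝ} {x y : ℂ} (hx0 : x ≠ 0) (hx : d • x = M x)
    (hy : d • y = M y) : ∃ r : ℝ, y = r • x := by
  rw [ent_apply, real_smul] at hx hy
  have h1 : conj x * y = x * conj y :=
    mul_left_cancel₀ hq (by linear_combination x * hy - y * hx)
  have h2 : conj (y / x) = y / x := by
    have : conj x ≠ 0 := by simpa using hx0
    rw [map_div₀, div_eq_div_iff this hx0]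
    linear_combination -h1
  refine ⟨(y / x).re, ?_⟩
  rw [real_smul, conj_eq_iff_re.1 h2, div_mul_cancel₀ _ hx0]

lemma qt_lip {M N : Ent} (hM : 2 * |(pp M).im| ≤ ‖qq M‖) (hN : 2 * |(pp N).im| ≤ ‖qq N‖)
    (hq : qq M ≠ 0) : |qt M - qt N| ≤ 3 * ‖M - N‖ := by
  have a1 := abs_nonneg (pp M).im
  have a2 := abs_nonneg (pp N).im
  have h1 := le_qt (M := M) (by linarith)
  have h2 := le_qt (M := N) (by linarith)
  have h3 := qt_sq (M := M) (by linarith)
  have h4 := qt_sq (M := N) (by linarith)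
  have h5 : |‖qq M‖ - ‖qq N‖| ≤ ‖M - N‖ :=
    (abs_norm_sub_norm_le _ _).trans (by rw [← qq_sub]; exact norm_qq_le _)
  have h6 : |(|(pp M).im| - |(pp N).im|)| ≤ ‖M - N‖ :=
    (abs_abs_sub_abs_le_abs_sub _ _).trans (by
      rw [← sub_im, ← pp_sub]; exact (abs_im_le_norm _).trans (norm_pp_le _))
  have h7 : 0 < ‖qq M‖ := norm_pos_iff.2 hq
  have h8 : 0 < qt M + qt N := by linarith only [hM, hN, a2, h1, h2, h7, qt_nonneg N]
  refine le_of_mul_le_mul_right ?_ h8
  rw [← sq_abs (pp M).im] at h3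
  rw [← sq_abs (pp N).im] at h4
  have e : |qt M - qt N| * (qt M + qt N) = |(‖qq M‖ - ‖qq N‖) * (‖qq M‖ + ‖qq N‖) -
      (|(pp M).im| - |(pp N).im|) * (|(pp M).im| + |(pp N).im|)| := by
    rw [← abs_of_pos h8, ← abs_mul]
    congr 1
    linear_combination h3 - h4
  rw [e]
  refine (abs_sub _ _).trans ?_
  rw [abs_mul, abs_mul, abs_of_nonneg (by positivity : 0 ≤ ‖qq M‖ + ‖qq N‖),
    abs_of_nonneg (add_nonneg a1 a2)]
  have h9 := mul_le_mul_of_nonneg_right h5 (by positivity : 0 ≤ ‖qq M‖ + ‖qq N‖)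
  have h10 := mul_le_mul_of_nonneg_right h6 (add_nonneg a1 a2)
  have h11 := norm_nonneg (M - N)
  linarith only [h9, h10, hM, h11, hN, h1, h2, mul_nonneg_of_nonpos_of_nonpos (Mathlib.Tactic.Linarith.sub_nonpos_of_le hM) (Mathlib.Tactic.Linarith.sub_nonpos_of_le h11), mul_nonneg_of_nonpos_of_nonpos (Mathlib.Tactic.Linarith.sub_nonpos_of_le hN) (Mathlib.Tactic.Linarith.sub_nonpos_of_le h11), mul_nonneg_of_nonpos_of_nonpos (Mathlib.Tactic.Linarith.sub_nonpos_of_le h1) (Mathlib.Tactic.Linarith.sub_nonpos_of_le h11), mul_nonneg_of_nonpos_of_nonpos (Mathlib.Tactic.Linarith.sub_nonpos_of_le h2) (Mathlib.Tactic.Linarith.sub_nonpos_of_le h11)]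

/-- The conditions that give exactly two simple roots in a window. -/
structure WinOK (M : ℝ → Ent) (k : ℕ) : Prop where
  im_le : ∀ σ, Win k σ → 2 * |(pp (M σ)).im| ≤ ‖qq (M σ)‖
  ne : ∀ σ, Win k σ → qq (M σ) ≠ 0
  small : ∀ σ, Win k σ → ‖M σ‖ ≤ 1 / (12 * ((k : ℝ) + 1) ^ 2)
  lip : ∀ σ σ', Win k σ → Win k σ' → ‖M σ - M σ'‖ ≤ 1 / (16 * ((k : ℝ) + 1) ^ 2) * |σ - σ'|

namespace WinOK

variable {M : ℝ → Ent} {k : ℕ} (h : WinOK M k) {s : ℝ} (hs : |s| = 1)
include h hs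

lemma lip' {σ σ' : ℝ} (hσ : Win k σ) (hσ' : Win k σ') :
    |((pp (M σ)).re + s * qt (M σ)) - ((pp (M σ')).re + s * qt (M σ'))| ≤
      1 / (4 * ((k : ℝ) + 1) ^ 2) * |σ - σ'| := by
  have h1 := qt_lip (h.im_le σ hσ) (h.im_le σ' hσ') (h.ne σ hσ)
  have h2 : |(pp (M σ)).re - (pp (M σ')).re| ≤ ‖M σ - M σ'‖ := by
    rw [← sub_re, ← pp_sub]; exact (abs_re_le_norm _).trans (norm_pp_le _)
  have h3 := h.lip σ σ' hσ hσ'
  have e : ((pp (M σ)).re + s * qt (M σ)) - ((pp (M σ')).re + s * qt (M σ')) =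
      ((pp (M σ)).re - (pp (M σ')).re) + s * (qt (M σ) - qt (M σ')) := by ring
  have e2 : 1 / (4 * ((k : ℝ) + 1) ^ 2) * |σ - σ'| =
      4 * (1 / (16 * ((k : ℝ) + 1) ^ 2) * |σ - σ'|) := by field_simp; ring
  rw [e, e2]
  refine (abs_add_le _ _).trans ?_
  rw [abs_mul, hs]
  linarith only [h1, h2, h3]

lemma unique {σ σ' : ℝ} (hσ : Win k σ) (hσ' : Win k σ') (h1 : FF s (dd k σ) (M σ) = 0)
    (h2 : FF s (dd k σ') (M σ') = 0) : σ = σ' := by
  have h3 := h.lip' hs hσ hσ'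
  have hk : (0 : ℝ) ≤ k := Nat.cast_nonneg k
  obtain ⟨a1, a2⟩ := hσ
  obtain ⟨b1, b2⟩ := hσ'
  have p1 : 0 < (k : ℝ) + 1 + σ := by linarith only [a1]
  have p2 : 0 < (k : ℝ) + 1 + σ' := by linarith only [b1]
  have e : ((pp (M σ)).re + s * qt (M σ)) - ((pp (M σ')).re + s * qt (M σ')) =
      -(2 / (((k : ℝ) + 1 + σ) * (k + 1 + σ')) * (σ - σ')) := by
    have : dd k σ - dd k σ' = -(2 / (((k : ℝ) + 1 + σ) * (k + 1 + σ')) * (σ - σ')) := by
      unfold dd; field_simp; ring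
    unfold FF at h1 h2
    linarith only [h1, h2, this]
  rw [e, abs_neg, abs_mul, abs_of_pos (by positivity)] at h3
  by_contra hne
  have h4 : 0 < |σ - σ'| := abs_pos.2 (sub_ne_zero.2 hne)
  have h5 := le_of_mul_le_mul_right h3 h4
  rw [div_le_div_iff₀ (by positivity) (by positivity)] at h5
  have h6 : ((k : ℝ) + 1 + σ) * (k + 1 + σ') ≤ (2 * k + 5 / 2) * (2 * k + 5 / 2) :=
    mul_le_mul (by linarith only [a2]) (by linarith only [b2]) p2.le (by linarith only [])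
  linarith only [h5, h6, mul_nonneg_of_nonpos_of_nonpos (Mathlib.Tactic.Linarith.sub_nonpos_of_le (Mathlib.Tactic.Linarith.natCast_nonneg ℝ k)) (Mathlib.Tactic.Linarith.sub_nonpos_of_le (Mathlib.Tactic.Linarith.natCast_nonneg ℝ k))]

lemma exists_root : ∃ σ, Win k σ ∧ FF s (dd k σ) (M σ) = 0 := by
  have hk : (0 : ℝ) ≤ k := Nat.cast_nonneg k
  have hc : ContinuousOn (fun σ => FF s (dd k σ) (M σ)) (Icc ((k : ℝ) + 1 / 2) (k + 3 / 2)) := by
    have h1 : ContinuousOn (dd k) (Icc ((k : ℝ) + 1 / 2) (k + 3 / 2)) := by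
      unfold dd
      refine ContinuousOn.div (by fun_prop) (by fun_prop) fun σ hσ => ?_
      have : 0 < σ := by linarith only [hσ, hσ.1]
      positivity
    have h2 : ContinuousOn (fun σ => (pp (M σ)).re + s * qt (M σ))
        (Icc ((k : ℝ) + 1 / 2) (k + 3 / 2)) := by
      refine LipschitzOnWith.continuousOn (K := ⟨1 / (4 * ((k : ℝ) + 1) ^ 2), by positivity⟩)
        (LipschitzOnWith.of_dist_le_mul fun σ hσ σ' hσ' => ?_)
      exact h.lip' hs hσ hσ'
    refine (h1.sub h2).congr fun σ _ => ?_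
    simp only [FF, Pi.sub_apply]
    ring
  have hb : ∀ σ, Win k σ → |(pp (M σ)).re + s * qt (M σ)| ≤ 1 / (6 * ((k : ℝ) + 1) ^ 2) := by
    intro σ hσ
    have h1 := (abs_re_le_norm _).trans (norm_pp_le (M σ))
    have h2 := (qt_le (M σ)).trans (norm_qq_le _)
    have h3 := h.small σ hσ
    have e : 1 / (6 * ((k : ℝ) + 1) ^ 2) = 2 * (1 / (12 * ((k : ℝ) + 1) ^ 2)) := by
      field_simp; norm_num
    refine (abs_add_le _ _).trans ?_
    rw [abs_mul, hs, abs_of_nonneg (qt_nonneg _), e]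
    linarith only [h1, h2, h3]
  have w1 : Win k ((k : ℝ) + 1 / 2) := ⟨le_rfl, by linarith only []⟩
  have w2 : Win k ((k : ℝ) + 3 / 2) := ⟨by linarith only [], le_rfl⟩
  have d1 : 1 / (6 * ((k : ℝ) + 1) ^ 2) ≤ dd k ((k : ℝ) + 1 / 2) := by
    unfold dd
    rw [div_le_div_iff₀ (by positivity) (by positivity)]
    linarith only [sq_nonneg ((1 : ℝ) * ↑k + (1 : ℝ) * (1 : ℝ))]
  have d2 : dd k ((k : ℝ) + 3 / 2) ≤ -(1 / (6 * ((k : ℝ) + 1) ^ 2)) := by
    unfold dd
    rw [← neg_div, div_le_div_iff₀ (by positivity) (by positivity)]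
    linarith only [mul_nonneg_of_nonpos_of_nonpos (Mathlib.Tactic.Linarith.sub_nonpos_of_le (Mathlib.Tactic.Linarith.natCast_nonneg ℝ k)) (Mathlib.Tactic.Linarith.sub_nonpos_of_le (Mathlib.Tactic.Linarith.natCast_nonneg ℝ k))]
  obtain ⟨σ, hσ, h0⟩ := intermediate_value_Icc' (by linarith only []) hc (show (0 : ℝ) ∈ _ from
    ⟨by have := (abs_le.1 (hb _ w2)).1; simp only [FF]; linarith only [d2, this],
      by have := (abs_le.1 (hb _ w1)).2; simp only [FF]; linarith only [d1, this]⟩)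
  exact ⟨σ, hσ, h0⟩

end WinOK

/-- The real dimension of the solution space of the pencil is zero or one. -/
lemma pen_window {B : ℕ → ℕ → Ent} {β ρ : ℝ} (h : KB B β ρ) {k : ℕ} (hw : WinOK (eff B k) k)
    {σ : ℝ} (hσ : Win k σ) :
    ((∃ y : Seq, y ≠ 0 ∧ Pen B σ y) ↔
      FF 1 (dd k σ) (eff B k σ) = 0 ∨ FF (-1) (dd k σ) (eff B k σ) = 0) ∧
    ∀ y y' : Seq, y ≠ 0 → Pen B σ y → Pen B σ y' → ∃ r : ℝ, y' = r • y := by
  have him : |(pp (eff B k σ)).im| ≤ ‖qq (eff B k σ)‖ := by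
    linarith only [hw, hσ, hw.im_le σ hσ, abs_nonneg (pp (eff B k σ)).im]
  have hne : ∀ y : Seq, y ≠ 0 → Pen B σ y → y k ≠ 0 := fun y hy hp h0 => by
    have := ((h.pen_iff hσ y).1 hp).1
    rw [h0, map_zero] at this
    exact hy this
  refine ⟨?_, fun y y' hy h1 h2 => ?_⟩
  · rw [← kernel_iff (hw.ne σ hσ) him]
    constructor
    · rintro ⟨y, hy, hp⟩
      exact ⟨y k, hne y hy hp, ((h.pen_iff hσ y).1 hp).2⟩
    · rintro ⟨x, hx, hp⟩
      refine ⟨sol B k σ x, fun h0 => hx ?_, (h.pen_iff hσ _).2 ?_⟩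
      · rw [← h.sol_self hσ x, h0]; rfl
      · rw [h.sol_self hσ]; exact ⟨rfl, hp⟩
  · obtain ⟨e1, e2⟩ := (h.pen_iff hσ y).1 h1
    obtain ⟨e3, e4⟩ := (h.pen_iff hσ y').1 h2
    obtain ⟨r, hr⟩ := kernel_unique (hw.ne σ hσ) (hne y hy h1) e2 e4
    exact ⟨r, by rw [e3, hr, map_smul, ← e1]⟩

end Pool.Agent.Work.MP_a6a438_an
end

-- merged part: Pool.Agent.Work.MP_a6a438_an.Match
section
/-!
Matching all roots at once by the Poincare-Miranda theorem.
-/

set_option autoImplicit false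

open Complex Set
open scoped ComplexConjugate

namespace Pool.Agent.Work.MP_a6a438_an

lemma ff_apx {M : Ent} {p e : ℝ} {q : ℂ} (h : ∀ z, ‖M z - (p * z + q * conj z)‖ ≤ e * ‖z‖)
    (he : 3 * e < ‖q‖) : 2 * |(pp M).im| ≤ ‖qq M‖ ∧ qq M ≠ 0 ∧
      ∀ s d, |s| = 1 → |FF s d M - (d - p - s * ‖q‖)| ≤ 3 * e := by
  have h1 := h 1
  have h2 := h I
  rw [norm_one, mul_one e] at h1
  rw [norm_I, mul_one e, ← one_mul ‖_‖, ← norm_I, ← norm_mul] at h2
  have h3 : ‖pp M - p‖ ≤ e := by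
    rw [show pp M - p = ((M 1 - (p * 1 + q * conj 1)) - I * (M I - (p * I + q * conj I))) / 2 by
      rw [pp, conj_I, map_one conj]; linear_combination (q - p) / 2 * I_sq, norm_div, Complex.norm_two]
    linarith only [h1, h2, norm_sub_le (M 1 - (p * 1 + q * conj 1)) (I * (M I - (p * I + q * conj I)))]
  have h4 : ‖qq M - q‖ ≤ e := by
    rw [show qq M - q = ((M 1 - (p * 1 + q * conj 1)) + I * (M I - (p * I + q * conj I))) / 2 by
      rw [qq, conj_I, map_one conj]; linear_combination (p - q) / 2 * I_sq, norm_div, Complex.norm_two]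
    linarith only [h1, h2, norm_add_le (M 1 - (p * 1 + q * conj 1)) (I * (M I - (p * I + q * conj I)))]
  have h5 : |(pp M).im| ≤ e := by simpa using (abs_im_le_norm _).trans h3
  have h6 : |(pp M).re - p| ≤ e := by simpa using (abs_re_le_norm _).trans h3
  have h7 := abs_le.1 ((abs_norm_sub_norm_le _ _).trans h4)
  have h8 := abs_nonneg (pp M).im
  refine ⟨by linarith only [he, h5, h7, h7.1], norm_pos_iff.1 (by linarith [h7.1]), fun s d hs => ?_⟩
  have h9 := le_qt (M := M) (by linarith only [he, h5, h7, h7.1])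
  have h10 := qt_le M
  have h11 : |qt M - ‖q‖| ≤ 2 * e := abs_le.2 ⟨by linarith [h7.1], by linarith only [h7, h10, h7.2]⟩
  rw [show FF s d M - (d - p - s * ‖q‖) = -(((pp M).re - p) + s * (qt M - ‖q‖)) by
    rw [FF]; ring, abs_neg]
  refine (abs_add_le _ _).trans ?_
  rw [abs_mul, hs]
  linarith

lemma KB.mono {B : ℕ → ℕ → Ent} {β β' ρ : ℝ} (h : KB B β ρ) (h1 : β ≤ β') (h2 : β' ≤ 1 / 24) :
    KB B β' ρ :=
  ⟨h.β_nonneg.trans h1, h2, h.ρ_nonneg, h.ρ_le, fun i j => (h.bound i j).trans (by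
    have := h.ρ_nonneg
    gcongr)⟩

lemma KB.winOK {B : ℕ → ℕ → Ent} {β ρ ω : ℝ} (h : KB B β ρ) {k : ℕ} (hω : 0 ≤ ω)
    (hr : ∀ j, j ≠ k → ‖B k j‖ ≤ ω * (1 / 4) ^ j) (hc : ∀ j, j ≠ k → ‖B j k‖ ≤ ω * (1 / 4) ^ j)
    (hω' : ω ^ 2 ≤ 1 / 700 * (1 / 4) ^ k)
    (h1 : ∀ σ, Win k σ → 2 * |(pp (eff B k σ)).im| ≤ ‖qq (eff B k σ)‖ ∧ qq (eff B k σ) ≠ 0) :
    WinOK (eff B k) k := by
  have h2 : (1 / 4 : ℝ) ^ k ≤ 1 / ((k : ℝ) + 1) ^ 2 := by
    rw [le_div_iff₀ (by positivity), mul_comm]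
    exact sq_mul_quarter k
  have h3 : ∀ c : ℝ, 1 / (c * ((k : ℝ) + 1) ^ 2) = 1 / c * (1 / ((k : ℝ) + 1) ^ 2) := fun c => by
    rw [one_div_mul_one_div]
  have h0 : (0 : ℝ) ≤ (1 / 4) ^ k := by positivity
  refine ⟨fun σ hσ => (h1 σ hσ).1, fun σ hσ => (h1 σ hσ).2, fun σ hσ => ?_,
    fun σ σ' hσ hσ' => (h.eff_lip hσ hω hr hc hσ').trans ?_⟩
  · have h4 := h.eff_crude hσ hω hr hc
    have h5 : ‖B k k‖ ≤ 1 / 24 * 1 * (1 / 4) ^ k := (h.bound k k).trans (by
      have := h.ρ_nonneg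
      have := h.β_nonneg
      gcongr
      exacts [h.β_le, pow_le_one₀ h.ρ_nonneg (by linarith only [h, h.ρ_le]), h.ρ_le])
    rw [h3]
    linarith only [hω', h2, h0, h4, h5, norm_sub_norm_le (eff B k σ) (B k k)]
  · rw [h3]
    exact mul_le_mul_of_nonneg_right (by linarith only [hω', h2, h0]) (abs_nonneg _)

theorem matching {M₁ : ℕ → ℝ → Ent} {M₂ : (ℕ × Bool → Iv) → ℕ → ℝ → Ent}
    (hw : ∀ k, WinOK (M₁ k) k) (hc : ∀ k σ, Win k σ → Continuous fun x => M₂ x k σ)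
    {p₁ : ℕ → ℝ → ℝ} {q₁ e D : ℕ → ℝ} {p₂ : (ℕ × Bool → Iv) → ℕ → ℝ → ℝ}
    {q₂ : (ℕ × Bool → Iv) → ℕ → ℝ}
    (h₁ : ∀ k σ, Win k σ → ∀ s d, |s| = 1 → |FF s d (M₁ k σ) - (d - p₁ k σ - s * q₁ k)| ≤ e k)
    (h₂ : ∀ x k σ, Win k σ → ∀ s d, |s| = 1 →
      |FF s d (M₂ x k σ) - (d - p₂ x k σ - s * q₂ x k)| ≤ e k)
    (hp : ∀ x k σ, Win k σ → |p₁ k σ - p₂ x k σ| ≤ D k ∧
      ((x (k, false) : ℝ) = 1 → 2 * e k ≤ p₁ k σ - p₂ x k σ) ∧
      ((x (k, false) : ℝ) = -1 → p₁ k σ - p₂ x k σ ≤ -(2 * e k)))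
    (hq : ∀ x k, ((x (k, true) : ℝ) = 1 → 2 * e k + D k ≤ q₂ x k - q₁ k) ∧
      ((x (k, true) : ℝ) = -1 → q₂ x k - q₁ k ≤ -(2 * e k + D k))) :
    ∃ x, ∀ k s, |s| = 1 → ∃ σ, Win k σ ∧ FF s (dd k σ) (M₁ k σ) = 0 ∧
      FF s (dd k σ) (M₂ x k σ) = 0 := by
  have n1 : |(-1 : ℝ)| = 1 := by simp
  choose σ hσ hσ0 using fun k => (hw k).exists_root abs_one
  choose τ hτ hτ0 using fun k => (hw k).exists_root n1
  have hF : ∀ s d, Continuous (FF s d) := fun s d =>
    (continuous_const.sub (continuous_re.comp continuous_pp)).sub (continuous_const.mul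
      continuous_qt)
  have key : ∀ x k, |FF 1 (dd k (σ k)) (M₂ x k (σ k)) -
      (p₁ k (σ k) - p₂ x k (σ k) - (q₂ x k - q₁ k))| ≤ 2 * e k ∧
      |FF (-1) (dd k (τ k)) (M₂ x k (τ k)) -
      (p₁ k (τ k) - p₂ x k (τ k) + (q₂ x k - q₁ k))| ≤ 2 * e k := fun x k => by
    have a1 := abs_le.1 (h₁ k _ (hσ k) 1 (dd k (σ k)) abs_one)
    have a2 := abs_le.1 (h₂ x k _ (hσ k) 1 (dd k (σ k)) abs_one)
    have a3 := abs_le.1 (h₁ k _ (hτ k) (-1) (dd k (τ k)) n1)
    have a4 := abs_le.1 (h₂ x k _ (hτ k) (-1) (dd k (τ k)) n1)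
    rw [hσ0] at a1
    rw [hτ0] at a3
    exact ⟨abs_le.2 ⟨by linarith only [a1, a2, a1.2, a2.1], by linarith [a1.1, a2.2]⟩,
      abs_le.2 ⟨by linarith [a3.2, a4.1], by linarith [a3.1, a4.2]⟩⟩
  obtain ⟨x, hx⟩ := miranda (fun (i : ℕ × Bool) x =>
    FF (-1) (dd i.1 (τ i.1)) (M₂ x i.1 (τ i.1)) +
      (if i.2 then -1 else 1) * FF 1 (dd i.1 (σ i.1)) (M₂ x i.1 (σ i.1)))
    (fun i => ((hF _ _).comp (hc _ _ (hτ _))).add
      (continuous_const.mul ((hF _ _).comp (hc _ _ (hσ _)))))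
    (by
      rintro ⟨k, b⟩ x hx
      obtain ⟨a1, a2⟩ := key x k
      obtain ⟨b1, b2, -⟩ := hp x k _ (hσ k)
      obtain ⟨c1, c2, -⟩ := hp x k _ (hτ k)
      rw [abs_le] at a1 a2 b1 c1
      cases b
      · simp only [Bool.false_eq_true, if_false]
        linarith only [a1, a2, b2, hx, c2, b2 hx, c2 hx, a1.1, a2.1]
      · simp only [if_true]
        linarith only [a1, a2, b1, c1, hq, hx, (hq x k).1 hx, a1.2, a2.1, b1.2, c1.1])
    (by
      rintro ⟨k, b⟩ x hx
      obtain ⟨a1, a2⟩ := key x k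
      obtain ⟨b1, -, b2⟩ := hp x k _ (hσ k)
      obtain ⟨c1, -, c2⟩ := hp x k _ (hτ k)
      rw [abs_le] at a1 a2 b1 c1
      cases b
      · simp only [Bool.false_eq_true, if_false]
        linarith [b2 hx, c2 hx, a1.2, a2.2]
      · simp only [if_true]
        linarith only [a1, a2, b1, c1, hq, hx, (hq x k).2 hx, a1.1, a2.2, b1.1, c1.2])
  refine ⟨x, fun k s hs => ?_⟩
  have a1 := hx (k, false)
  have a2 := hx (k, true)
  simp only [Bool.false_eq_true, if_false, if_true] at a1 a2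
  rcases (abs_eq zero_le_one).1 hs with rfl | rfl
  · exact ⟨σ k, hσ k, hσ0 k, by linarith only [a1, a2]⟩
  · exact ⟨τ k, hτ k, hτ0 k, by linarith only [a1, a2]⟩

end Pool.Agent.Work.MP_a6a438_an
end

-- merged part: Pool.Agent.Work.MP_a6a438_an.Estimates
section
/-!
The family of boundary curves and the asymptotics of the roots.
-/

set_option autoImplicit false

open Complex Finset
open scoped ComplexConjugate Real

namespace Pool.Agent.Work.MP_a6a438_an

/-- The small parameter. -/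
noncomputable def th : ℝ := 1 / 10 ^ 15

/-- The decay rate of the coefficients. -/
noncomputable def RR : ℝ := th ^ 4

/-- The phases. -/
noncomputable def ph (x : ℝ) : ℂ := exp ((π * (1 - x) / 2 : ℝ) * I)

/-- The coefficients of the boundary curves. -/
noncomputable def bbx (x : ℕ × Bool → Iv) (n : ℕ) : ℂ :=
  if n = 0 then (th ^ 10 * (1 + th ^ 3 * x (0, true)) : ℝ) else
    (th ^ 11 * (RR ^ n * vv (n + 2)) * (1 + th ^ 3 * x (n, false)) : ℝ) *
      ∏ l ∈ range (n / 2), ph (x (l + 1, true))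

/-- The scale of the first-order coupling. -/
noncomputable def WW (k : ℕ) : ℝ := RR ^ k * vv (k + 2)

lemma th_pos : 0 < th := by unfold th; positivity

lemma RR_pos : 0 < RR := pow_pos th_pos 4

lemma RR_le : RR ≤ 1 / 65536 := by norm_num [RR, th]

lemma RR_add (n : ℕ) : RR ^ (n + 2) = th ^ 8 * RR ^ n := by
  rw [pow_add, mul_comm, show RR ^ 2 = th ^ 8 by rw [RR]; ring]

lemma WW_pos (k : ℕ) : 0 < WW k := mul_pos (pow_pos RR_pos k) (vv_pos _)

lemma WW_add_le (k j : ℕ) : WW (k + j) ≤ WW k * RR ^ j := by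
  have := RR_pos
  rw [WW, WW, pow_add, mul_right_comm]
  gcongr
  exact vv_anti (by omega)

lemma WW_sq_le (k : ℕ) : WW k ^ 2 ≤ WW (k + k) := by
  have := RR_pos
  have h0 : (0 : ℝ) ≤ k := Nat.cast_nonneg k
  rw [WW, WW, mul_pow, pow_add, sq]
  gcongr
  rw [vv, vv, div_pow, one_pow, ← pow_mul, mul_comm, pow_mul]
  push_cast
  gcongr
  linarith only [mul_nonneg_of_nonpos_of_nonpos (Mathlib.Tactic.Linarith.sub_nonpos_of_le (Mathlib.Tactic.Linarith.natCast_nonneg ℝ k)) (Mathlib.Tactic.Linarith.sub_nonpos_of_le (Mathlib.Tactic.Linarith.natCast_nonneg ℝ k))]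

lemma vv_le_WW (k : ℕ) : RR ^ k * vv k ≤ 81 * WW k := by
  have := RR_pos
  have h0 : (0 : ℝ) ≤ k := Nat.cast_nonneg k
  have h1 := vv_le_mul (m := k) (n := k + 2) (c := 3) (by push_cast; linarith)
  rw [WW, mul_left_comm]
  gcongr
  linarith

lemma norm_ph (x : ℝ) : ‖ph x‖ = 1 := norm_exp_ofReal_mul_I _

lemma norm_prod_ph (x : ℕ × Bool → Iv) (n : ℕ) : ‖∏ l ∈ range n, ph (x (l + 1, true))‖ = 1 := by
  simp [norm_ph]

lemma fac (y : Iv) : 1 / 2 ≤ 1 + th ^ 3 * y ∧ 1 + th ^ 3 * y ≤ 2 := by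
  obtain ⟨h1, h2⟩ := y.2
  unfold th
  constructor <;> linarith only [h1, h2]

lemma norm_bbx (x : ℕ × Bool → Iv) {n : ℕ} (hn : n ≠ 0) :
    ‖bbx x n‖ = th ^ 11 * WW n * (1 + th ^ 3 * x (n, false)) := by
  have h1 := (fac (x (n, false))).1
  have h2 := WW_pos n
  have h3 := th_pos
  rw [bbx, if_neg hn, norm_mul, norm_prod_ph, mul_one, norm_real, Real.norm_eq_abs, ← WW,
    abs_of_pos (by positivity)]

lemma norm_bbx_le (x : ℕ × Bool → Iv) {n : ℕ} (hn : n ≠ 0) : ‖bbx x n‖ ≤ 2 * th ^ 11 * WW n := by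
  have h2 := mul_pos (pow_pos th_pos 11) (WW_pos n)
  rw [norm_bbx x hn]
  linarith only [h2, (fac (x (n, false))).2, mul_nonneg_of_nonpos_of_nonpos (le_of_lt (Mathlib.Tactic.Linarith.sub_neg_of_lt h2)) (Mathlib.Tactic.Linarith.sub_nonpos_of_le (fac (x (n, false))).right)]

lemma bb_update (x : ℕ × Bool → Iv) : Bb (Function.update (bbx x) 0 0) (2 * th ^ 3) RR := fun n => by
  have h2 := WW_pos n
  have h3 := th_pos
  have e : 2 * th ^ 3 * RR ^ (n + 2) * vv (n + 2) = 2 * th ^ 11 * WW n := by rw [RR_add, WW]; ring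
  rw [e]
  by_cases hn : n = 0
  · rw [hn, Function.update_self, norm_zero]; have := WW_pos 0; positivity
  · rw [Function.update_of_ne hn]; exact norm_bbx_le x hn

lemma bb_all (x : ℕ × Bool → Iv) : Bb (bbx x) (162 * th ^ 2) RR := fun n => by
  have h2 := WW_pos n
  have e : 162 * th ^ 2 * RR ^ (n + 2) * vv (n + 2) = 162 * th ^ 10 * WW n := by
    rw [RR_add, WW]; ring
  rw [e]
  by_cases hn : n = 0
  · have h1 := fac (x (0, true))
    have h3 := pow_pos th_pos 10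
    rw [hn, bbx, if_pos rfl, norm_real, Real.norm_eq_abs, abs_of_pos (by linarith only [h3, h1, h1.1, mul_nonneg_of_nonpos_of_nonpos (Mathlib.Tactic.Linarith.sub_nonpos_of_le h1.left) (le_of_lt (Mathlib.Tactic.Linarith.sub_neg_of_lt h3))]), WW, vv]
    norm_num
    linarith only [h1, h3, h1.2, mul_nonneg_of_nonpos_of_nonpos (Mathlib.Tactic.Linarith.sub_nonpos_of_le h1.right) (le_of_lt (Mathlib.Tactic.Linarith.sub_neg_of_lt h3))]
  · refine (norm_bbx_le x hn).trans ?_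
    unfold th
    linarith only [h2]

lemma a_le : 162 * th ^ 2 ≤ 1 / 256 := by norm_num [th]

lemma gr_sub_bbx (x : ℕ × Bool → Iv) (i j : ℕ) :
    ‖gr (bbx x) i j - bbx x (i + j)‖ ≤ th ^ 11 / 4 * WW (i + j) := by
  have h1 := gr_sub_le (bb_all x) (by positivity) RR_pos.le a_le i j
  have h2 := WW_pos (i + j)
  rw [RR_add, mul_assoc, mul_assoc, mul_assoc, ← WW] at h1
  unfold th at h1 ⊢
  linarith only [h1, h2]

lemma gr_bbx (x : ℕ × Bool → Iv) {i j : ℕ} (h : i + j ≠ 0) :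
    ‖gr (bbx x) i j‖ ≤ 3 * th ^ 11 * WW (i + j) := by
  have h2 := mul_pos (pow_pos th_pos 11) (WW_pos (i + j))
  linarith only [h2, h, gr_sub_bbx x i j, norm_bbx_le x h, norm_sub_norm_le (gr (bbx x) i j) (bbx x (i + j))]

lemma mu_zero {k : ℕ} (hk : k ≠ 0) {σ : ℝ} (hσ : Win k σ) : -6 ≤ mu σ 0 ∧ mu σ 0 ≤ -1 := by
  have h1 : (1 : ℝ) ≤ k := by exact_mod_cast Nat.one_le_iff_ne_zero.2 hk
  have h2 := hσ.1
  simp only [mu, Nat.cast_zero, zero_add, one_mul]
  rw [le_div_iff_of_neg (by linarith only [h1, h2]), div_le_iff_of_neg (by linarith)]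
  constructor <;> linarith only [h1, h2]

section

variable {P : Type} [Fintype P] [DecidableEq P] (C : Cfg P) (x : ℕ × Bool → Iv) {S : ℝ}
  (hS : 8192 / RR ≤ S) (hτ : C.τ = th ^ 29 * (8192 / RR) ^ 2)

include hS in
lemma par_bbx : Par (bbx x) (162 * th ^ 2) RR S :=
  ⟨by positivity, a_le, bb_all x, RR_pos, RR_le, (div_le_iff₀ RR_pos).1 hS⟩

include hS hτ

omit [DecidableEq P] in
lemma tau_le : C.τ / S ^ 2 ≤ th ^ 29 := by
  have h1 := RR_pos
  have h2 := th_pos
  have h3 : 0 < S := lt_of_lt_of_le (by positivity) hS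
  rw [hτ, div_le_iff₀ (by positivity)]
  gcongr

lemma kb_bbx : KB (BB C (bbx x) S) (th ^ 9) RR := by
  refine ((par_bbx x hS).kb C).mono ?_ (by norm_num [th])
  have h1 := tau_le C hS hτ
  unfold RR th at *
  linarith only [h1]

lemma HH_bbx (i j : ℕ) :
    ‖HH C (bbx x) S i j‖ ≤ 5000000 * th ^ 29 * ((RR ^ i * vv i) * (RR ^ j * vv j)) := by
  have h1 := RR_pos
  have h2 := vv_pos i
  have h3 := vv_pos j
  refine ((par_bbx x hS).norm_HH_le C i j).trans ?_
  rw [mul_mul_mul_comm (RR ^ i), ← pow_add, mul_assoc _ (RR ^ _)]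
  gcongr
  exact tau_le C hS hτ

lemma HH_row (k j : ℕ) : ‖HH C (bbx x) S k j‖ ≤ th ^ 28 * WW k * RR ^ j ∧
    ‖HH C (bbx x) S j k‖ ≤ th ^ 28 * WW k * RR ^ j := by
  have h1 := RR_pos
  have h2 := WW_pos k
  have h3 := vv_pos j
  have h4 : (RR ^ k * vv k) * (RR ^ j * vv j) ≤ 81 * WW k * (RR ^ j * 1) :=
    mul_le_mul (vv_le_WW k) (by gcongr; exact vv_le_one j) (by positivity) (by positivity)
  have h5 := HH_bbx C x hS hτ k j
  have h6 := HH_bbx C x hS hτ j k
  have h7 : 0 ≤ WW k * RR ^ j := by positivity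
  unfold th at *
  constructor <;> linarith only [h4, h5, h7, h6]

lemma BB_row {k : ℕ} (hk : k ≠ 0) (j : ℕ) :
    ‖BB C (bbx x) S k j‖ ≤ 4 * th ^ 11 * WW k * RR ^ j ∧
      ‖BB C (bbx x) S j k‖ ≤ 4 * th ^ 11 * WW k * RR ^ j := by
  obtain ⟨h1, h2⟩ := HH_row C x hS hτ k j
  have h3 := (norm_anti_le _).trans (gr_bbx x (i := k) (j := j) (by omega))
  have h4 := (norm_anti_le _).trans (gr_bbx x (i := j) (j := k) (by omega))
  rw [add_comm j] at h4
  have h5 := WW_add_le k j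
  have h6 := mul_pos (WW_pos k) (pow_pos RR_pos j)
  unfold th at *
  constructor <;> refine (norm_add_le _ _).trans ?_ <;> linarith only [h1, h3, h5, h6, h2, h4]

lemma apx_succ {k : ℕ} (hk : k ≠ 0) : WinOK (eff (BB C (bbx x) S) k) k ∧
    ∀ σ, Win k σ → ∀ s d, |s| = 1 → |FF s d (eff (BB C (bbx x) S) k σ) -
      (d - mu σ 0 * ‖bbx x k‖ ^ 2 - s * ‖gr (bbx x) k k‖)| ≤ 6000 * th ^ 26 * WW k ^ 2 := by
  have hK := kb_bbx C x hS hτ
  have hW := WW_pos k
  have hθ := th_pos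
  have hω : 0 ≤ 4 * th ^ 11 * WW k := by positivity
  have hq : ∀ j, RR ^ j ≤ (1 / 4) ^ j := fun j =>
    pow_le_pow_left₀ RR_pos.le (by linarith only [RR_le]) j
  have hr := fun j (_ : j ≠ k) =>
    (BB_row C x hS hτ hk j).1.trans (mul_le_mul_of_nonneg_left (hq j) hω)
  have hc := fun j (_ : j ≠ k) =>
    (BB_row C x hS hτ hk j).2.trans (mul_le_mul_of_nonneg_left (hq j) hω)
  have key := fun σ (hσ : Win k σ) => ff_apx (M := eff (BB C (bbx x) S) k σ)
    (p := mu σ 0 * ‖bbx x k‖ ^ 2) (q := conj (gr (bbx x) k k)) (e := 2000 * th ^ 26 * WW k ^ 2)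
    (fun z => by
      have h1 := hK.eff_fine hσ hω hc hk fun j _ => (BB_row C x hS hτ hk j).1
      have h2 : ‖HH C (bbx x) S k k‖ ≤ 5000000 * th ^ 29 * (81 * WW k * (81 * WW k)) :=
        (HH_bbx C x hS hτ k k).trans (by
          have := (vv_pos k).le
          have := RR_pos.le
          exact mul_le_mul_of_nonneg_left (mul_self_le_mul_self (by positivity) (vv_le_WW k))
            (by positivity))
      obtain ⟨h3, h4⟩ := HH_row C x hS hτ k 0
      have h5 := (BB_row C x hS hτ hk 0).2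
      rw [pow_zero, mul_one] at h3 h4 h5
      have h6 : |mu σ 0| ≤ 6 := abs_le.2 ⟨(mu_zero hk hσ).1, by linarith only [hk, hσ, (mu_zero hk hσ).2]⟩
      have e : eff (BB C (bbx x) S) k σ z - ((mu σ 0 * ‖bbx x k‖ ^ 2 : ℝ) * z +
          conj (gr (bbx x) k k) * conj z) = (eff (BB C (bbx x) S) k σ - BB C (bbx x) S k k -
            mu σ 0 • (BB C (bbx x) S k 0).comp (BB C (bbx x) S 0 k) + HH C (bbx x) S k k +
            mu σ 0 • ((anti (bbx x k)).comp (HH C (bbx x) S 0 k) +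
              (HH C (bbx x) S k 0).comp (BB C (bbx x) S 0 k))) z := by
        simp only [_root_.sub_apply, _root_.add_apply, _root_.smul_apply,
          ContinuousLinearMap.comp_apply, BB, anti_apply, map_add, mul_add, gr_zero_left,
          gr_zero_right, map_mul, conj_conj, real_smul]
        push_cast
        linear_combination (mu σ 0 * z) * conj_mul' (bbx x k)
      rw [e]
      refine (ContinuousLinearMap.le_opNorm _ z).trans (mul_le_mul_of_nonneg_right ?_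
        (norm_nonneg z))
      have h7 : ‖mu σ 0 • ((anti (bbx x k)).comp (HH C (bbx x) S 0 k) +
          (HH C (bbx x) S k 0).comp (BB C (bbx x) S 0 k))‖ ≤
          6 * (2 * th ^ 11 * WW k * (th ^ 28 * WW k) + th ^ 28 * WW k * (4 * th ^ 11 * WW k)) := by
        rw [norm_smul, Real.norm_eq_abs]
        gcongr
        refine (norm_add_le _ _).trans (add_le_add
          ((ContinuousLinearMap.opNorm_comp_le _ _).trans ?_)
          ((ContinuousLinearMap.opNorm_comp_le _ _).trans ?_))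
        · gcongr
          exact (norm_anti_le _).trans (norm_bbx_le x hk)
        · gcongr
      refine norm_add₃_le.trans ?_
      have h8 := sq_nonneg (WW k)
      unfold RR th at *
      linarith only [h1, h2, h7, h8])
    (by
      have h1 := gr_sub_bbx x k k
      have h2 := norm_bbx x (n := k + k) (by omega)
      have h3 := mul_le_mul_of_nonneg_left (fac (x (k + k, false))).1
        (mul_pos (pow_pos hθ 11) (WW_pos (k + k))).le
      have h4 := norm_sub_norm_le (bbx x (k + k)) (gr (bbx x) k k)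
      have h5 := WW_sq_le k
      have h6 := WW_pos (k + k)
      rw [norm_sub_rev, h2] at h4
      rw [Complex.norm_conj]
      generalize 1 + th ^ 3 * (x (k + k, false) : ℝ) = y at h3 h4
      unfold th at *
      linarith only [h1, h5, h6, h3, h4])
  refine ⟨hK.winOK hω hr hc ?_ fun σ hσ => ⟨(key σ hσ).1, (key σ hσ).2.1⟩,
    fun σ hσ s d hs => ?_⟩
  · have h1 : WW k ≤ (1 / 4) ^ k := by
      rw [WW]
      exact (mul_le_of_le_one_right (pow_pos RR_pos k).le (vv_le_one _)).trans (hq k)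
    have h2 : WW k ^ 2 ≤ (1 / 4) ^ k := by
      have : (1 / 4 : ℝ) ^ k ≤ 1 := pow_le_one₀ (by norm_num) (by norm_num)
      linarith only [h1, hW, this, mul_nonneg_of_nonpos_of_nonpos (le_of_lt (Mathlib.Tactic.Linarith.sub_neg_of_lt hW)) (Mathlib.Tactic.Linarith.sub_nonpos_of_le h1), mul_nonneg_of_nonpos_of_nonpos (le_of_lt (Mathlib.Tactic.Linarith.sub_neg_of_lt hW)) (Mathlib.Tactic.Linarith.sub_nonpos_of_le this)]
    have h8 := sq_nonneg (WW k)
    unfold th
    linarith only [hW, h1, h2]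
  · have := (key σ hσ).2.2 s d hs
    rw [Complex.norm_conj] at this
    linarith only [this]

lemma apx_zero {p q : ℝ} (hq : |q| ≤ 2) (hC : ∀ z : ℂ,
    conj (∑ r, (C.τ * (z * (C.c r - C.c (C.bar r))).re : ℝ) * C.c r) =
      C.τ * (p * z + q * conj z)) : WinOK (eff (BB C (bbx x) S) 0) 0 ∧
    ∀ σ, Win 0 σ → ∀ s d, |s| = 1 → |FF s d (eff (BB C (bbx x) S) 0 σ) -
      (d - -(C.τ / S ^ 2 * p) - s * (th ^ 10 * (1 + th ^ 3 * x (0, true)) - C.τ / S ^ 2 * q))| ≤
        4000 * th ^ 30 := by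
  have hK := kb_bbx C x hS hτ
  have hθ := th_pos
  have hS0 := (par_bbx x hS).S_pos
  have hτ0 := C.τ_pos
  have ht := tau_le C hS hτ
  have hω : 0 ≤ 9 * th ^ 15 := by positivity
  have hrc : ∀ j, j ≠ 0 → ‖BB C (bbx x) S 0 j‖ ≤ 9 * th ^ 15 * (1 / 4) ^ j ∧
      ‖BB C (bbx x) S j 0‖ ≤ 9 * th ^ 15 * (1 / 4) ^ j := by
    intro j hj
    obtain ⟨h1, h2⟩ := BB_row C x hS hτ hj 0
    obtain ⟨j, rfl⟩ := Nat.exists_eq_succ_of_ne_zero hj
    have h3 : WW (j + 1) ≤ (1 / 4) ^ j * RR * (1 / 256) := by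
      have := RR_pos
      rw [WW, pow_succ]
      gcongr
      · exact (vv_pos _).le
      · linarith only [this, RR_le]
      · exact (vv_anti (by omega : 3 ≤ j + 1 + 2)).trans (by norm_num [vv])
    have h4 : (0 : ℝ) ≤ (1 / 4) ^ j := by positivity
    rw [pow_zero, mul_one] at h1 h2
    rw [Nat.succ_eq_add_one] at *
    rw [pow_succ (1 / 4 : ℝ)]
    unfold RR th at *
    constructor <;> linarith only [h2, h3, h4, h1]
  have hb := fac (x (0, true))
  have htq : |C.τ / S ^ 2 * q| ≤ th ^ 29 * 2 := by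
    rw [abs_mul, abs_of_pos (by positivity)]
    gcongr
  set b := 1 + th ^ 3 * (x (0, true) : ℝ) with hbd
  have hpos : th ^ 10 / 4 ≤ th ^ 10 * b - C.τ / S ^ 2 * q := by
    have := (abs_le.1 htq).2
    have := hb.1
    unfold th at *
    linarith
  have hn : ‖((th ^ 10 * b - C.τ / S ^ 2 * q : ℝ) : ℂ)‖ = th ^ 10 * b - C.τ / S ^ 2 * q := by
    rw [norm_real, Real.norm_eq_abs, abs_of_pos (lt_of_lt_of_le (by positivity) hpos)]
  have key := fun σ (hσ : Win 0 σ) => ff_apx (M := eff (BB C (bbx x) S) 0 σ)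
    (p := -(C.τ / S ^ 2 * p)) (q := (th ^ 10 * b - C.τ / S ^ 2 * q : ℝ)) (e := 1300 * th ^ 30)
    (fun z => by
      have h1 := (ContinuousLinearMap.le_opNorm _ z).trans (mul_le_mul_of_nonneg_right
        (hK.eff_crude hσ hω (fun j hj => (hrc j hj).1) fun j hj => (hrc j hj).2) (norm_nonneg z))
      have h2 := C.pair_leading (x := z / S) (F := z • FY (bbx x) S 0) fun w => by
        change z * fab (bbx x) 0 (w / S) = _
        rw [fab_zero]; ring
      have hS1 : (S : ℂ) ≠ 0 := by exact_mod_cast hS0.ne'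
      have h3 : EY (bbx x) S 0 = (S : ℂ)⁻¹ • 1 := by
        ext w
        change PowerSeries.coeff 0 (sE (bbx x) (w / S)) / S = _
        simp [coeff_zero_sE]
      have e : eff (BB C (bbx x) S) 0 σ z - ((-(C.τ / S ^ 2 * p) : ℝ) * z +
          (th ^ 10 * b - C.τ / S ^ 2 * q : ℝ) * conj z) =
          (eff (BB C (bbx x) S) 0 σ - BB C (bbx x) S 0 0) z + (S : ℂ)⁻¹ *
            conj (C.pairL (C.gam (z • FY (bbx x) S 0)) 1 +
              ∑ r, (C.τ * (z / S * (C.c r - C.c (C.bar r))).re : ℝ) * C.c r) := by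
        rw [map_add, hC, _root_.sub_apply, BB, _root_.add_apply, HH_apply, h3, C.pairL_csmul,
          anti_apply, gr_zero_left, bbx, if_pos rfl, ← hbd]
        simp only [map_mul, map_div₀, map_inv₀, conj_ofReal]
        push_cast
        field_simp
        ring
      rw [e]
      refine (norm_add_le _ _).trans ?_
      rw [norm_div, (par_bbx x hS).conf.norm_S] at h2
      rw [norm_mul, norm_inv, (par_bbx x hS).conf.norm_S, Complex.norm_conj]
      have h4 : C.τ ≤ th / 700 := by rw [hτ]; norm_num [RR, th]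
      have h5 : S⁻¹ * (700 * C.τ ^ 2 * (‖z‖ / S)) ≤ th ^ 30 * ‖z‖ := by
        calc _ = 700 * C.τ * (C.τ / S ^ 2) * ‖z‖ := by field_simp
          _ ≤ 700 * (th / 700) * th ^ 29 * ‖z‖ := by gcongr
          _ = _ := by ring
      have h6 := mul_le_mul_of_nonneg_left h2 (inv_pos.2 hS0).le
      have h7 := norm_nonneg z
      unfold th at *
      linarith only [h1, h5, h6, h7])
    (by
      rw [hn]
      refine lt_of_lt_of_le ?_ hpos
      norm_num [th])
  refine ⟨hK.winOK hω (fun j hj => (hrc j hj).1) (fun j hj => (hrc j hj).2) (by norm_num [th])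
    fun σ hσ => ⟨(key σ hσ).1, (key σ hσ).2.1⟩, fun σ hσ s d hs => ?_⟩
  have := (key σ hσ).2.2 s d hs
  rw [hn] at this
  have := pow_pos hθ 30
  linarith

end

end Pool.Agent.Work.MP_a6a438_an
end

-- merged part: Pool.Agent.Work.MP_a6a438_an.Surface
section
/-!
The glued surface of a configuration of handles, and the maximum principle on it.
-/

set_option autoImplicit false

open Complex Metric Set Filter Topology InnerProductSpace
open scoped ContDiff

namespace Pool.Agent.Work.MP_a6a438_an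

lemma harm_re {u : ℂ → ℝ} {w : ℂ} (hu : HarmonicAt u w) :
    ∃ F : ℂ → ℂ, AnalyticAt ℂ F w ∧ ∀ᶠ w' in 𝓝 w, (F w').re = u w' := by
  obtain ⟨δ, hδ, h⟩ := Metric.eventually_nhds_iff_ball.1 hu.eventually
  obtain ⟨F, h1, h2⟩ := HarmonicOnNhd.exists_analyticOnNhd_ball_re_eq (f := u) h
  exact ⟨F, h1 w (mem_ball_self hδ), eventually_of_mem (ball_mem_nhds w hδ) h2⟩

lemma harm_comp {u : ℂ → ℝ} {g : ℂ → ℂ} {w : ℂ} (hu : HarmonicAt u (g w))
    (hg : AnalyticAt ℂ g w) : HarmonicAt (fun w => u (g w)) w := by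
  obtain ⟨F, h1, h2⟩ := harm_re hu
  refine (harmonicAt_congr_nhds ?_).1 (h1.comp hg).harmonicAt_re
  exact hg.continuousAt.eventually h2

lemma harm_max {u : ℂ → ℝ} {w : ℂ} (hu : HarmonicAt u w) (hm : IsLocalMax u w) :
    ∀ᶠ w' in 𝓝 w, u w' = u w := by
  obtain ⟨F, h1, h2⟩ := harm_re hu
  have h3 := norm_eventually_eq_of_isLocalMax (f := fun w => exp (F w)) (c := w)
    (h1.eventually_analyticAt.mono fun z hz => hz.differentiableAt.cexp) (by
      filter_upwards [h2, hm] with z e1 e2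
      simp only [Function.comp, norm_exp, e1, h2.self_of_nhds]
      exact Real.exp_le_exp.2 e2)
  filter_upwards [h2, h3] with z e1 e2
  simp only [norm_exp, e1, h2.self_of_nhds] at e2
  exact Real.exp_injective e2

variable {P : Type} [Fintype P]

/-- The plane region. -/
def KK (G : ℂ → ℂ) (C : Cfg P) : Set ℂ := (G '' {z | 1 < ‖z‖})ᶜ \ ⋃ p, ball (C.c p) C.ε

/-- Invariance under the gluing maps. -/
def Inv (C : Cfg P) (u : ℂ → ℝ) : Prop :=
  ∀ p, ∀ w ∈ sphere (C.c p) C.ε, ∀ᶠ w' in 𝓝 w, u (glue (C.c p) (C.c (C.bar p)) C.ε w') = u w'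

/-- Harmonic functions on the surface, continuous up to the boundary. -/
structure Adm (G : ℂ → ℂ) (C : Cfg P) (u : ℂ → ℝ) : Prop where
  cont : ∀ w ∈ KK G C, ContinuousAt u w
  harm : ∀ w ∈ KK G C, w ∉ G '' sphere 0 1 → HarmonicAt u w
  inv : Inv C u

/-- The Steklov problem in the normalised form. -/
structure Stek (G : ℂ → ℂ) (C : Cfg P) (σ : ℝ) (u : ℂ → ℝ) : Prop where
  smooth : ∀ w ∈ KK G C, ContDiffAt ℝ ∞ u w
  inv : Inv C u
  lap : ∀ w ∈ KK G C \ G '' sphere 0 1, Laplacian.laplacian u w = 0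
  bdry : ∀ z ∈ sphere (0 : ℂ) 1, fderiv ℝ u (G z) (z * deriv G z) = σ * u (G z)

/-- The multiplicity. -/
noncomputable def mult (G : ℂ → ℂ) (C : Cfg P) (σ : ℝ) : Cardinal :=
  Module.rank ℝ (Submodule.span ℝ {v : KK G C → ℝ | ∃ u : ℂ → ℝ, Stek G C σ u ∧ ∀ w, v w = u w})

lemma mem_KK {G : ℂ → ℂ} {C : Cfg P} {w : ℂ} :
    w ∈ KK G C ↔ w ∉ G '' {z | 1 < ‖z‖} ∧ ∀ p, C.ε ≤ ‖w - C.c p‖ := by
  simp only [KK, Set.mem_sdiff, mem_compl_iff, mem_iUnion, not_exists, mem_ball_iff_norm, not_lt]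

lemma norm_glue (C : Cfg P) (a b w : ℂ) : ‖glue a b C.ε w - b‖ = C.ε ^ 2 / ‖w - a‖ := by
  rw [glue, add_sub_cancel_left, norm_div, norm_pow, norm_real, Real.norm_eq_abs, sq_abs]

lemma Cfg.four_lt (C : Cfg P) : 4 * C.ε ^ 2 < C.ε := by (refine lt_of_not_ge fun h_nl => ?_; linarith only [h_nl, C.ε_le, C.ε_pos, mul_nonneg_of_nonpos_of_nonpos (Mathlib.Tactic.Linarith.sub_nonpos_of_le (sq_nonneg C.ε)) (Mathlib.Tactic.Linarith.sub_nonpos_of_le (ε_le C)), mul_nonneg_of_nonpos_of_nonpos (Mathlib.Tactic.Linarith.sub_nonpos_of_le h_nl) (le_of_lt (Mathlib.Tactic.Linarith.sub_neg_of_lt C.ε_pos))])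

lemma Cfg.near_sphere (C : Cfg P) {p : P} {w : ℂ} (hw : w ∈ sphere (C.c p) C.ε) {a b : ℝ}
    (ha : a < C.ε) (hb : C.ε < b) : ∀ᶠ w' in 𝓝 w, a < ‖w' - C.c p‖ ∧ ‖w' - C.c p‖ < b := by
  have hc : Continuous fun w => ‖w - C.c p‖ := by fun_prop
  rw [mem_sphere_iff_norm] at hw
  exact ((isOpen_lt continuous_const hc).inter (isOpen_lt hc continuous_const)).mem_nhds
    ⟨by simp only [mem_ofPred_eq, hw, ha], by simp only [mem_ofPred_eq, hw, hb]⟩

lemma Adm.sub {G : ℂ → ℂ} {C : Cfg P} {u v : ℂ → ℝ} (hu : Adm G C u) (hv : Adm G C v) (a b : ℝ) :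
    Adm G C fun w => a * u w - b * v w := by
  refine ⟨fun w hw => ((hu.cont w hw).const_mul a).sub ((hv.cont w hw).const_mul b),
    fun w hw hw' => ((hu.harm w hw hw').const_smul (c := a)).sub
      ((hv.harm w hw hw').const_smul (c := b)), fun p w hw => ?_⟩
  filter_upwards [hu.inv p w hw, hv.inv p w hw] with w' h1 h2
  rw [h1, h2]

lemma adm_const (G : ℂ → ℂ) (C : Cfg P) (c : ℝ) : Adm G C fun _ => c :=
  ⟨fun _ _ => continuousAt_const, fun _ _ _ => harmonicAt_const c, fun _ _ _ => .of_forall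
    fun _ => rfl⟩

namespace Conf

variable {G : ℂ → ℂ} {S : ℝ} (h : Conf G S) (C : Cfg P)
include h

lemma not_mem_of_near {p : P} {w : ℂ} (hw : ‖w - C.c p‖ < 1 / 4) : w ∉ G '' {z | 1 ≤ ‖z‖} := by
  rintro ⟨z, hz, rfl⟩
  have h1 : 1 ≤ ‖z‖ := hz
  linarith only [hw, h, h1, h.two_lt (z := z) (by linarith), norm_sub_norm_le (G z) (C.c p), C.norm_c p]

lemma mem_near {p : P} {w : ℂ} (h1 : C.ε ≤ ‖w - C.c p‖) (h2 : ‖w - C.c p‖ < 1 / 4) :
    w ∈ KK G C ∧ w ∉ G '' sphere 0 1 ∧ ∀ q, q ≠ p → C.ε < ‖w - C.c q‖ := by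
  have h3 := h.not_mem_of_near C h2
  have h4 : ∀ q, q ≠ p → C.ε < ‖w - C.c q‖ := fun q hq => by
    have := C.far hq (ξ := w - C.c p) h2.le
    rw [add_sub_cancel] at this
    linarith only [h1, h2, this, C.ε_le]
  refine ⟨mem_KK.2 ⟨fun h5 => h3 (image_mono (fun z (hz : 1 < ‖z‖) => hz.le) h5), fun q => ?_⟩,
    fun h5 => h3 (image_mono (fun z hz => (mem_sphere_zero_iff_norm.1 hz).ge) h5), h4⟩
  by_cases hq : q = p
  · rwa [hq]
  · exact (h4 q hq).le

lemma mem_collar {z : ℂ} (h1 : 1 / 2 < ‖z‖) (h2 : ‖z‖ ≤ 1) : G z ∈ KK G C := by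
  refine mem_KK.2 ⟨?_, fun p => ?_⟩
  · rintro ⟨ζ, h3, h4⟩
    have h5 : 1 < ‖ζ‖ := h3
    rw [h.inj (show 1 / 2 < ‖ζ‖ by linarith only [h5]) h1 h4] at h5
    linarith
  · linarith only [h, h1, h.two_lt h1, norm_sub_norm_le (G z) (C.c p), C.norm_c p, C.ε_le]

lemma norm_le_of_mem {w : ℂ} (hw : w ∈ KK G C) : ‖w‖ ≤ 9 / 8 * S :=
  not_lt.1 fun h1 => (mem_KK.1 hw).1 (h.mem_image h1)

lemma isCompact_KK : IsCompact (KK G C) :=
  (isCompact_closedBall 0 (9 / 8 * S)).of_isClosed_subset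
    (h.isOpen_image.isClosed_compl.sdiff (isOpen_iUnion fun _ => isOpen_ball))
    fun _ hw => mem_closedBall_zero_iff.2 (h.norm_le_of_mem C hw)

lemma interior {w : ℂ} (hw : w ∈ KK G C) (hw' : w ∉ G '' sphere 0 1)
    (h1 : ∀ p, C.ε < ‖w - C.c p‖) : ∀ᶠ w' in 𝓝 w, w' ∈ KK G C \ G '' sphere 0 1 := by
  have h2 : w ∉ G '' {z | 1 ≤ ‖z‖} := by
    rintro ⟨z, hz, rfl⟩
    rcases eq_or_lt_of_le (show 1 ≤ ‖z‖ from hz) with h3 | h3
    · exact hw' ⟨z, mem_sphere_zero_iff_norm.2 h3.symm, rfl⟩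
    · exact (mem_KK.1 hw).1 ⟨z, h3, rfl⟩
  have h3 : ∀ᶠ w' in 𝓝 w, ∀ p, C.ε < ‖w' - C.c p‖ := eventually_all.2 fun p =>
    (isOpen_lt continuous_const (by fun_prop : Continuous fun w => ‖w - C.c p‖)).mem_nhds (h1 p)
  filter_upwards [h.isClosed_image.isOpen_compl.mem_nhds h2, h3] with w' h4 h5
  exact ⟨mem_KK.2 ⟨fun h6 => h4 (image_mono (fun z (hz : 1 < ‖z‖) => hz.le) h6),
    fun p => (h5 p).le⟩,
    fun h6 => h4 (image_mono (fun z hz => (mem_sphere_zero_iff_norm.1 hz).ge) h6)⟩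

omit h in
lemma cases_KK {w : ℂ} (hw : w ∈ KK G C) :
    (∀ p, C.ε < ‖w - C.c p‖) ∨ ∃ p, w ∈ sphere (C.c p) C.ε := by
  by_contra hc
  push Not at hc
  obtain ⟨⟨p, hp⟩, h2⟩ := hc
  exact h2 p (mem_sphere_iff_norm.2 (le_antisymm hp ((mem_KK.1 hw).2 p)))

omit h in
lemma glue_near {p : P} {w : ℂ} (h1 : 4 * C.ε ^ 2 < ‖w - C.c p‖) (h2 : ‖w - C.c p‖ < C.ε) :
    C.ε < ‖glue (C.c p) (C.c (C.bar p)) C.ε w - C.c (C.bar p)‖ ∧
      ‖glue (C.c p) (C.c (C.bar p)) C.ε w - C.c (C.bar p)‖ < 1 / 4 := by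
  have h0 : 0 < ‖w - C.c p‖ := lt_of_le_of_lt (by positivity) h1
  rw [norm_glue, lt_div_iff₀ h0, div_lt_iff₀ h0]
  constructor <;> linarith only [h2, h1, C.ε_pos, mul_nonneg_of_nonpos_of_nonpos (Mathlib.Tactic.Linarith.sub_nonpos_of_le (sq_nonneg C.ε)) (le_of_lt (Mathlib.Tactic.Linarith.sub_neg_of_lt h2)), mul_pos_of_neg_of_neg (Mathlib.Tactic.Linarith.sub_neg_of_lt h1) (Mathlib.Tactic.Linarith.sub_neg_of_lt h2), mul_pos_of_neg_of_neg (Mathlib.Tactic.Linarith.sub_neg_of_lt h2) (Mathlib.Tactic.Linarith.sub_neg_of_lt h2)]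

lemma adm_of_stek {σ : ℝ} {u : ℂ → ℝ} (hu : Stek G C σ u) : Adm G C u := by
  have h2 : ∀ w ∈ KK G C, ContDiffAt ℝ 2 u w := fun w hw => (hu.smooth w hw).of_le (by
    exact WithTop.coe_le_coe.2 le_top)
  have h1 : ∀ w ∈ KK G C, w ∉ G '' sphere 0 1 → (∀ p, C.ε < ‖w - C.c p‖) → HarmonicAt u w :=
    fun w hw hw' h1 => ⟨h2 w hw, (h.interior C hw hw' h1).mono fun w' h3 => hu.lap w' h3⟩
  refine ⟨fun w hw => (hu.smooth w hw).continuousAt, fun w hw hw' => ?_, hu.inv⟩
  rcases cases_KK C hw with h3 | ⟨p, hp⟩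
  · exact h1 w hw hw' h3
  refine ⟨h2 w hw, ?_⟩
  filter_upwards [C.near_sphere hp C.four_lt (b := 1 / 4) (by linarith only [C.ε_le]),
    (hu.inv p w hp).eventually_nhds] with w' h3 h4
  rcases le_or_gt C.ε ‖w' - C.c p‖ with h5 | h5
  · exact hu.lap w' ⟨(h.mem_near C h5 h3.2).1, (h.mem_near C h5 h3.2).2.1⟩
  · obtain ⟨h6, h7⟩ := glue_near C h3.1 h5
    obtain ⟨h8, h9, h10⟩ := h.mem_near C h6.le h7
    have h11 : w' - C.c p ≠ 0 := norm_pos_iff.1 (lt_of_le_of_lt (by positivity) h3.1)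
    refine ((harmonicAt_congr_nhds h4).1 (harm_comp (h1 _ h8 h9 fun q => ?_)
      (analyticAt_const.add (analyticAt_const.div (analyticAt_id.sub analyticAt_const)
        h11)))).2.self_of_nhds
    by_cases hq : q = C.bar p
    · rwa [hq]
    · exact h10 q hq

theorem max_principle {u : ℂ → ℝ} (hu : Adm G C u) {m : ℝ}
    (hm : ∀ z ∈ sphere (0 : ℂ) 1, u (G z) ≤ m) : ∀ w ∈ KK G C, u w ≤ m := by
  intro w hw
  have hc : ContinuousOn u (KK G C) := fun w hw => (hu.cont w hw).continuousWithinAt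
  obtain ⟨w₀, hw₀, h0⟩ := (h.isCompact_KK C).exists_isMaxOn ⟨w, hw⟩ hc
  obtain ⟨w₁, ⟨h1, h2⟩, h3⟩ := ((h.isCompact_KK C).of_isClosed_subset
    (hc.preimage_isClosed_of_isClosed (h.isCompact_KK C).isClosed
      (isClosed_singleton (x := u w₀))) inter_subset_left).exists_isMaxOn ⟨w₀, hw₀, rfl⟩
    continuous_norm.continuousOn
  have h2' : u w₁ = u w₀ := h2
  refine (h0 hw).trans ?_
  rw [← h2']
  by_contra hlt
  have h4 : w₁ ∉ G '' sphere 0 1 := by
    rintro ⟨z, hz, rfl⟩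
    exact hlt (hm z hz)
  obtain ⟨h5, d, hd, h6⟩ : IsLocalMax u w₁ ∧ ∃ d : ℂ, d ≠ 0 ∧
      ∀ᶠ t : ℝ in 𝓝 0, w₁ + t * d ∈ KK G C := by
    have ht : ∀ d : ℂ, Tendsto (fun t : ℝ => w₁ + t * d) (𝓝 0) (𝓝 w₁) := fun d => by
      have : Continuous fun t : ℝ => w₁ + t * d := by fun_prop
      simpa using this.tendsto 0
    rcases cases_KK C h1 with h5 | ⟨p, hp⟩
    · have h6 := h.interior C h1 h4 h5
      exact ⟨h6.mono fun w' h7 => h2' ▸ h0 h7.1, 1, one_ne_zero,
        ((ht 1).eventually h6).mono fun t h7 => h7.1⟩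
    have h6 := C.near_sphere hp C.four_lt (b := 1 / 4) (by linarith only [C.ε_le])
    rw [mem_sphere_iff_norm] at hp
    refine ⟨?_, I * (w₁ - C.c p), mul_ne_zero I_ne_zero (norm_pos_iff.1 (hp ▸ C.ε_pos)), ?_⟩
    · filter_upwards [h6, hu.inv p w₁ (mem_sphere_iff_norm.2 hp)] with w' h7 h8
      rw [h2']
      rcases le_or_gt C.ε ‖w' - C.c p‖ with h9 | h9
      · exact h0 (h.mem_near C h9 h7.2).1
      · obtain ⟨h10, h11⟩ := glue_near C h7.1 h9
        exact h8 ▸ h0 (h.mem_near C h10.le h11).1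
    · filter_upwards [(ht _).eventually h6] with t h7
      refine (h.mem_near C ?_ h7.2).1
      rw [show w₁ + t * (I * (w₁ - C.c p)) - C.c p = (1 + t * I) * (w₁ - C.c p) by ring, norm_mul,
        hp]
      refine le_mul_of_one_le_left C.ε_pos.le ?_
      simpa using re_le_norm (1 + t * I)
  have h7 : Tendsto (fun t : ℝ => w₁ + t * d) (𝓝 0) (𝓝 w₁) := by
    have : Continuous fun t : ℝ => w₁ + t * d := by fun_prop
    simpa using this.tendsto 0
  have h8 : ∀ᶠ t : ℝ in 𝓝 0, ‖w₁ + t * d‖ ≤ ‖w₁‖ := by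
    filter_upwards [h6, h7.eventually (harm_max (hu.harm w₁ h1 h4) h5)] with t e1 e2
    exact h3 ⟨e1, e2.trans h2'⟩
  have h9 : ∀ᶠ t : ℝ in 𝓝 0, ‖w₁ - t * d‖ ≤ ‖w₁‖ := by
    have : Tendsto (fun t : ℝ => -t) (𝓝 0) (𝓝 0) := by simpa using continuous_neg.tendsto (0 : ℝ)
    simpa [sub_eq_add_neg] using this.eventually h8
  obtain ⟨t, ⟨e1, e2⟩, e3⟩ := (((h8.and h9).filter_mono nhdsWithin_le_nhds).and
    (self_mem_nhdsWithin (a := (0 : ℝ)) (s := Ioi 0))).exists
  have e4 : 0 < ‖(t : ℂ) * d‖ := norm_pos_iff.2 (mul_ne_zero (by exact_mod_cast ne_of_gt e3) hd)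
  have e5 := parallelogram_law_with_norm ℝ w₁ (t * d)
  linarith only [e5, e1, e2, e4, norm_nonneg (w₁ + t * d), norm_nonneg (w₁ - t * d), norm_nonneg w₁, mul_nonneg_of_nonpos_of_nonpos (Mathlib.Tactic.Linarith.sub_nonpos_of_le e1) (Mathlib.Tactic.Linarith.sub_nonpos_of_le e1), mul_nonneg_of_nonpos_of_nonpos (Mathlib.Tactic.Linarith.sub_nonpos_of_le e1) (Mathlib.Tactic.Linarith.sub_nonpos_of_le e2), mul_nonneg_of_nonpos_of_nonpos (Mathlib.Tactic.Linarith.sub_nonpos_of_le e1) (Mathlib.Tactic.Linarith.sub_nonpos_of_le (norm_nonneg (w₁ + ↑t * d))), mul_nonneg_of_nonpos_of_nonpos (Mathlib.Tactic.Linarith.sub_nonpos_of_le e2) (Mathlib.Tactic.Linarith.sub_nonpos_of_le (norm_nonneg (w₁ + ↑t * d))), mul_nonneg_of_nonpos_of_nonpos (Mathlib.Tactic.Linarith.sub_nonpos_of_le e2) (Mathlib.Tactic.Linarith.sub_nonpos_of_le (norm_nonneg (w₁ - ↑t * d))), mul_pos_of_neg_of_neg (Mathlib.Tactic.Linarith.sub_neg_of_lt e4) (Mathlib.Tactic.Linarith.sub_neg_of_lt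 e4)]

theorem max_abs {u : ℂ → ℝ} (hu : Adm G C u) {m : ℝ}
    (hm : ∀ z ∈ sphere (0 : ℂ) 1, |u (G z)| ≤ m) : ∀ w ∈ KK G C, |u w| ≤ m := fun w hw => by
  have h1 := h.max_principle C hu (fun z hz => (abs_le.1 (hm z hz)).2) w hw
  have h2 := h.max_principle C (hu.sub hu 0 1) (m := m) (fun z hz => by
    linarith [(abs_le.1 (hm z hz)).1]) w hw
  exact abs_le.2 ⟨by linarith, h1⟩

end Conf

theorem exists_surface {n : ℕ} {G : ℂ → ℂ} {S : ℝ} (h : Conf G S) (C : Cfg (Fin n × Bool))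
    (hb : ∀ p, C.bar p = (p.1, !p.2)) :
    ∃ M : HandleSurface n, ∀ σ, M.multiplicity σ = mult G C σ := by
  obtain ⟨lam, h1, h2, h3, h4⟩ := h.exists_lam C
  have hε := C.ε_pos
  have hε' := C.ε_le
  refine ⟨⟨G, 1 / 2, by norm_num, by norm_num, fun z hz => (h.diff z hz).differentiableWithinAt,
    h.inj, h.infty, C.c, fun _ => C.ε, fun _ => hε, fun p q hpq => ?_, fun p => ?_, lam,
    fun w _ => h1.contDiffAt, fun w _ => h2 w, fun p w hw => ?_⟩, fun σ => ?_⟩
  · refine closedBall_disjoint_closedBall ?_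
    rw [dist_eq_norm]
    linarith only [hε, hε', hpq, C.sep p q hpq]
  · refine disjoint_left.2 fun w hw => h.not_mem_of_near C (p := p) ?_
    linarith only [hε, hε', hw, mem_closedBall_iff_norm.1 hw]
  · filter_upwards [C.near_sphere hw (a := C.ε / 2) (b := 2 * C.ε) (by linarith) (by linarith)]
      with w' hw'
    have h5 : 0 < ‖w' - C.c p‖ := by linarith only [hε, hw', hw'.1]
    have h6 := norm_glue C (C.c p) (C.c (p.1, !p.2)) w'
    have h7 : HasDerivAt (glue (C.c p) (C.c (p.1, !p.2)) C.ε) (-(C.ε : ℂ) ^ 2 / (w' - C.c p) ^ 2)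
        w' := by
      have := (((hasDerivAt_const w' ((C.ε : ℂ) ^ 2)).div ((hasDerivAt_id w').sub_const (C.c p))
        (norm_pos_iff.1 h5))).const_add (C.c (p.1, !p.2))
      exact this.congr_deriv (by simp)
    rw [h4 p w' hw'.1.le hw'.2.le, h4 (p.1, !p.2) _ (by
      rw [h6, le_div_iff₀ h5]; linarith only [hε, hw', hw'.2, mul_pos_of_neg_of_neg (Mathlib.Tactic.Linarith.sub_neg_of_lt hε) (Mathlib.Tactic.Linarith.sub_neg_of_lt hw'.right)]) (by
      rw [h6, div_le_iff₀ h5]; linarith only [hε, hw', hw'.1, mul_pos_of_neg_of_neg (Mathlib.Tactic.Linarith.sub_neg_of_lt hε) (Mathlib.Tactic.Linarith.sub_neg_of_lt hw'.left)]), h6, h7.deriv, norm_div, norm_neg, norm_pow,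
      norm_pow, norm_real, Real.norm_eq_abs, sq_abs]
    field_simp
  · refine congrArg (fun s : Set (KK G C → ℝ) => Module.rank ℝ (Submodule.span ℝ s)) ?_
    ext v
    refine exists_congr fun u => and_congr_left' ?_
    have e : ∀ z ∈ sphere (0 : ℂ) 1, (lam (G z) * ‖z * deriv G z‖)⁻¹ • (z * deriv G z) =
        z * deriv G z := fun z hz => by
      rw [mem_sphere_zero_iff_norm] at hz
      rw [h3 z hz, norm_mul, hz, one_mul, inv_mul_cancel₀ (norm_ne_zero_iff.2 (h.deriv_ne z (by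
        rw [hz]; norm_num))), inv_one, one_smul]
    constructor
    · rintro ⟨⟨a1, a2⟩, a3, a4⟩
      refine ⟨a1, fun p => hb p ▸ a2 p, fun w hw => ?_, fun z hz => e z hz ▸ a4 z hz⟩
      exact (mul_eq_zero.1 (a3 w hw)).resolve_left (inv_ne_zero (pow_ne_zero 2 (h2 w).ne'))
    · rintro ⟨a1, a2, a3, a4⟩
      refine ⟨⟨a1, fun p => hb p ▸ a2 p⟩, fun w hw => mul_eq_zero_of_right _ (a3 w hw),
        fun z hz => ?_⟩
      have := a4 z hz
      rw [← e z hz] at this
      exact this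

end Pool.Agent.Work.MP_a6a438_an
end

-- merged part: Pool.Agent.Work.MP_a6a438_an.Spectrum
section
/-!
The Steklov spectrum of the glued surface is the spectrum of the pencil.
-/

set_option autoImplicit false

open Complex Metric Set Filter Topology InnerProductSpace
open scoped ContDiff Real

namespace Pool.Agent.Work.MP_a6a438_an

lemma hasDerivAt_al (y ψ : ℕ → ℂ) (j : ℕ) {r : ℝ} (hr : r ≠ 0) :
    HasDerivAt (fun r => al y ψ r j) (y j * r ^ j - (j + 1) * ψ j * (r⁻¹ : ℝ) ^ (j + 2)) r := by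
  have hj : (j : ℂ) + 1 ≠ 0 := by exact_mod_cast Nat.succ_ne_zero j
  have h1 := ((((hasDerivAt_id r).ofReal_comp).pow (j + 1)).const_mul (y j)).div_const
    ((j : ℂ) + 1)
  have h2 := ((((hasDerivAt_inv hr).ofReal_comp).pow (j + 1)).const_mul (ψ j))
  refine (h1.add h2).congr_deriv ?_
  simp only [id, Nat.add_sub_cancel]
  push_cast
  field_simp
  ring

lemma al_one (y ψ : ℕ → ℂ) (j : ℕ) : ((j : ℂ) + 1) * al y ψ 1 j = y j + (j + 1) * ψ j := by
  have hj : (j : ℂ) + 1 ≠ 0 := by exact_mod_cast Nat.succ_ne_zero j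
  simp only [al, ofReal_one, one_pow, mul_one, inv_one]
  field_simp

lemma norm_cf_sub_le {U V : ℝ → ℝ} (hU : Continuous U) (hV : Continuous V) {η : ℝ}
    (h : ∀ θ, |U θ - V θ| ≤ η) (n : ℤ) : ‖cf U n - cf V n‖ ≤ η := by
  have hi : ∀ U : ℝ → ℝ, Continuous U → IntervalIntegrable (fun θ => ex (-n) θ * U θ)
      MeasureTheory.volume 0 (2 * π) := fun U hU =>
    ((continuous_ex _).mul (continuous_ofReal.comp hU)).intervalIntegrable _ _
  rw [cf, cf, ← smul_sub, ← intervalIntegral.integral_sub (hi U hU) (hi V hV), norm_smul,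
    Real.norm_eq_abs, abs_of_pos (by positivity), inv_mul_le_iff₀ (by positivity)]
  have := intervalIntegral.norm_integral_le_of_norm_le_const (a := 0) (b := 2 * π) (C := η)
    (f := fun θ => ex (-n) θ * U θ - ex (-n) θ * V θ) fun θ _ => by
      rw [← mul_sub, norm_mul, norm_ex, one_mul, ← ofReal_sub, norm_real]
      exact h θ
  rwa [sub_zero, abs_of_pos (by positivity), mul_comm η] at this

lemma exists_ex {z : ℂ} (hz : z ∈ sphere (0 : ℂ) 1) : ∃ θ : ℝ, z = (1 : ℝ) * ex 1 θ := by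
  refine ⟨arg z, ?_⟩
  have := norm_mul_exp_arg_mul_I z
  rw [mem_sphere_zero_iff_norm.1 hz] at this
  simpa [ex] using this.symm

lemma norm_polar {r : ℝ} (hr : 0 ≤ r) (θ : ℝ) : ‖(r : ℂ) * ex 1 θ‖ = r := by
  rw [norm_mul, norm_ex, norm_real, Real.norm_eq_abs, abs_of_nonneg hr, mul_one]

lemma mu_neg : Mu fun i => -((i : ℝ) + 1) := fun i => by
  have h0 : (0 : ℝ) ≤ i := Nat.cast_nonneg i
  rw [abs_neg, abs_of_pos (by positivity)]
  linarith only [mul_nonneg_of_nonpos_of_nonpos (Mathlib.Tactic.Linarith.sub_nonpos_of_le (Mathlib.Tactic.Linarith.natCast_nonneg ℝ i)) (Mathlib.Tactic.Linarith.sub_nonpos_of_le (Mathlib.Tactic.Linarith.natCast_nonneg ℝ i))]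

variable {P : Type} [Fintype P]

namespace Conf

variable {G : ℂ → ℂ} {S : ℝ} (h : Conf G S) (C : Cfg P)
include h

lemma radial_deriv {u : ℂ → ℝ} {z : ℂ} (hz : z ∈ sphere (0 : ℂ) 1)
    (hu : DifferentiableAt ℝ u (G z)) :
    HasDerivAt (fun r : ℝ => u (G (r * z))) (fderiv ℝ u (G z) (z * deriv G z)) 1 := by
  have h1 : HasDerivAt G (deriv G z) (((1 : ℝ) : ℂ) * z) := by
    simpa using (h.diff z (by rw [mem_sphere_zero_iff_norm.1 hz]; norm_num)).hasDerivAt
  have h2 := (h1.comp ((1 : ℝ) : ℂ) ((hasDerivAt_id _).mul_const z)).comp_ofReal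
  have h3 : HasFDerivAt u (fderiv ℝ u (G z)) (G (((1 : ℝ) : ℂ) * z)) := by
    simpa using hu.hasFDerivAt
  refine (h3.comp_hasDerivAt (1 : ℝ) h2).congr_deriv ?_
  rw [one_mul, mul_comm]

lemma cont_collar {u : ℂ → ℝ} (hu : ∀ w ∈ KK G C, ContinuousAt u w) {r : ℝ} (h1 : 1 / 2 < r)
    (h2 : r ≤ 1) : Continuous fun θ => u (G (r * ex 1 θ)) :=
  continuous_iff_continuousAt.2 fun θ => by
    have h3 := norm_polar (r := r) (by linarith only [h1]) θ
    exact (hu _ (h.mem_collar C (by rwa [h3]) (by rwa [h3]))).comp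
      (f := fun θ => G (r * ex 1 θ)) ((h.diff _ (by rwa [h3])).continuousAt.comp (f := fun θ => (r : ℂ) * ex 1 θ)
        (continuous_const.mul (continuous_ex 1)).continuousAt)

lemma smooth_collar {u : ℂ → ℝ} (hu : ∀ w ∈ KK G C, ContDiffAt ℝ ∞ u w) (θ : ℝ) :
    ContDiffAt ℝ 2 (fun p : ℝ × ℝ => u (G (p.1 * ex 1 p.2))) (1, θ) := by
  have h3 := norm_polar (r := 1) zero_le_one θ
  have h4 : ContDiff ℝ 2 fun p : ℝ × ℝ => (p.1 : ℂ) * ex 1 p.2 :=
    (ofRealCLM.contDiff.comp contDiff_fst).mul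
      ((contDiff_const.mul (ofRealCLM.contDiff.comp contDiff_snd)).mul contDiff_const).cexp
  exact ((hu _ (h.mem_collar C (by rw [h3]; norm_num) h3.le)).of_le
    (WithTop.coe_le_coe.2 le_top)).comp (1, θ)
      (((h.analyticAt (by rw [h3]; norm_num)).contDiffAt.restrict_scalars ℝ).comp (1, θ)
        h4.contDiffAt)

end Conf

variable [DecidableEq P]

namespace Par

variable {bb : ℕ → ℂ} {a R S : ℝ} (h : Par bb a R S) (C : Cfg P)
include h

lemma row_le (y : Seq) (j : ℕ) : ‖row (BB C bb S) j y‖ ≤ R ^ j * ‖y‖ := by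
  have h1 := (h.kb C).β_le
  have h2 := h.R_pos
  refine ((row _ j).le_opNorm y).trans ?_
  gcongr
  refine ((h.kb C).norm_row_le j).trans (mul_le_of_le_one_left (by positivity) (by linarith only [h1]))

lemma summable_decay {y : Seq} {μ : ℕ → ℝ} (hμ : Mu μ) (N : ℕ)
    (hy : ∀ j, N ≤ j → y j = μ j • row (BB C bb S) j y) : Summable fun j => ‖y j‖ * 8192 ^ j := by
  have h2 := h.R_pos
  refine Summable.of_norm_bounded_eventually_nat (KB.summable_sq_quarter.mul_left (6 * ‖y‖)) ?_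
  filter_upwards [eventually_ge_atTop N] with j hj
  rw [Real.norm_eq_abs, abs_of_nonneg (by positivity), hy j hj, norm_smul, Real.norm_eq_abs]
  calc _ ≤ 6 * ((j : ℝ) + 1) ^ 2 * (R ^ j * ‖y‖) * 8192 ^ j := by
        gcongr
        exacts [hμ j, h.row_le C y j]
    _ = 6 * ‖y‖ * (((j : ℝ) + 1) ^ 2 * (R * 8192) ^ j) := by rw [mul_pow]; ring
    _ ≤ _ := by gcongr; linarith only [h2, h, h.R_le]

lemma al_bounds (y : Seq) {r : ℝ} (h1 : 1 / 2 < r) (h2 : r < 3 / 2) (j : ℕ) :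
    ‖al y (fun i => row (BB C bb S) i y) r j‖ ≤
      2 * (‖y j‖ * 8192 ^ j) + 4 * ‖y‖ * (((j : ℝ) + 1) ^ 2 * (1 / 4) ^ j) ∧
    ‖y j * r ^ j - (j + 1) * row (BB C bb S) j y * (r⁻¹ : ℝ) ^ (j + 2)‖ ≤
      2 * (‖y j‖ * 8192 ^ j) + 4 * ‖y‖ * (((j : ℝ) + 1) ^ 2 * (1 / 4) ^ j) := by
  have h0 : (0 : ℝ) ≤ j := Nat.cast_nonneg j
  have hR := h.R_pos
  have h3 : ‖(r : ℂ)‖ ≤ 2 := by rw [norm_real, Real.norm_eq_abs, abs_of_pos] <;> linarith only [h2, h1]
  have h4 : ‖((r⁻¹ : ℝ) : ℂ)‖ ≤ 2 := by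
    rw [norm_real, Real.norm_eq_abs, abs_of_pos (inv_pos.2 (by linarith only [h1]))]
    exact inv_le_of_inv_le₀ two_pos (by linarith only [h1])
  have h5 : ‖y j * r ^ j‖ ≤ ‖y j‖ * 8192 ^ j := by
    rw [norm_mul, norm_pow]
    gcongr
    linarith only [h3]
  have h6 : ‖row (BB C bb S) j y * (r⁻¹ : ℝ) ^ j‖ ≤ ‖y‖ * (1 / 4) ^ j := by
    rw [norm_mul, norm_pow]
    calc _ ≤ R ^ j * ‖y‖ * 2 ^ j := by gcongr; exact h.row_le C y j
      _ = ‖y‖ * (R * 2) ^ j := by rw [mul_pow]; ring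
      _ ≤ _ := by gcongr; linarith only [hR, h, h.R_le]
  have h7 : ‖(j : ℂ) + 1‖ = j + 1 := by rw [← Nat.cast_succ, Complex.norm_natCast, Nat.cast_succ]
  have h8 : 0 ≤ ‖y‖ * (1 / 4) ^ j := by positivity
  have h9 : 0 ≤ ‖y j‖ * 8192 ^ j := by positivity
  constructor
  · refine (norm_add_le _ _).trans (add_le_add ?_ ?_)
    · rw [pow_succ, ← mul_assoc, norm_div, h7, norm_mul _ (r : ℂ), div_le_iff₀ (by positivity)]
      linarith only [h5, h3, h9, mul_le_mul h5 h3 (norm_nonneg _) h9, mul_nonneg_of_nonpos_of_nonpos (Mathlib.Tactic.Linarith.sub_nonpos_of_le (Mathlib.Tactic.Linarith.natCast_nonneg ℝ j)) (Mathlib.Tactic.Linarith.sub_nonpos_of_le h9)]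
    · rw [pow_succ, ← mul_assoc, norm_mul _ ((r⁻¹ : ℝ) : ℂ)]
      linarith only [h8, h6, h4, h0, mul_le_mul h6 h4 (norm_nonneg _) h8, mul_nonneg h0 h8, mul_nonneg (sq_nonneg (j : ℝ)) h8, sq_nonneg ↑j]
  · refine (norm_sub_le _ _).trans (add_le_add (by linarith only [h5, h9]) ?_)
    rw [pow_add, mul_assoc, ← mul_assoc (row _ j y), norm_mul, h7, norm_mul, norm_pow]
    calc _ ≤ ((j : ℝ) + 1) * (‖y‖ * (1 / 4) ^ j * 2 ^ 2) := by gcongr
      _ ≤ _ := by linarith only [h0, h8, mul_nonneg h0 h8, mul_nonneg (sq_nonneg (j : ℝ)) h8, sq_nonneg ↑j]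

lemma summable_al {y : Seq} (hy : Summable fun j => ‖y j‖ * 8192 ^ j) {r : ℝ} (h1 : 1 / 2 < r)
    (h2 : r < 3 / 2) : Summable fun j => ‖al y (fun i => row (BB C bb S) i y) r j‖ :=
  Summable.of_nonneg_of_le (fun _ => norm_nonneg _) (fun j => (h.al_bounds C y h1 h2 j).1)
    ((hy.mul_left 2).add (KB.summable_sq_quarter.mul_left _))

theorem exists_adm {y : Seq} (hy : Summable fun j => ‖y j‖ * 8192 ^ j) : ∃ u : ℂ → ℝ,
    (∀ w ∈ KK (fun z => S * gg bb z) C, HarmonicAt u w) ∧ Inv C u ∧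
    ∀ r θ : ℝ, 1 / 2 < r → r < 3 / 2 →
      HasSum (fun j : ℕ => (al y (fun i => row (BB C bb S) i y) r j * ex (j + 1) θ).re)
        (u (S * gg bb (r * ex 1 θ))) := by
  obtain ⟨u, h1, h2, h3⟩ := h.exists_harm C hy
  refine ⟨u, fun w hw => h1 w (by linarith only [h, hw, h.conf.norm_le_of_mem C hw, h.S_pos])
    fun p => C.four_lt.trans_le ((mem_KK.1 hw).2 p), fun p w hw => ?_, h3⟩
  filter_upwards [C.near_sphere hw C.four_lt (b := 1 / 4) (by linarith only [C.ε_le])] with w' h4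
  exact h2 p w' h4.1 h4.2

theorem complete {σ : ℝ} {u : ℂ → ℝ} (hu : Stek (fun z => S * gg bb z) C σ u) :
    ∃ y : Seq, Pen (BB C bb S) σ y ∧ ∃ c : ℝ, σ * c = 0 ∧ ∀ θ,
      HasSum (fun j : ℕ => (al y (fun i => row (BB C bb S) i y) 1 j * ex (j + 1) θ).re)
        (u (S * gg bb ((1 : ℝ) * ex 1 θ)) - c) := by
  have hG := h.conf
  have hK := h.kb C
  set B := BB C bb S with hB
  set U : ℝ → ℝ → ℝ := fun r θ => u (S * gg bb (r * ex 1 θ)) with hU
  have hsm := hG.smooth_collar C hu.smooth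
  obtain ⟨M, hM, hinv⟩ := cf_inversion (U := U 1) (contDiff_iff_contDiffAt.2 fun θ =>
    (hsm θ).comp θ (f := fun θ => ((1 : ℝ), θ)) (by fun_prop)) (fun θ => by
      have : ex 1 (θ + 2 * π) = ex 1 θ := by
        rw [ex, ex, ← exp_periodic (_ * θ * I)]
        push_cast
        ring_nf
      simp only [hU, this])
  set c := (cf (U 1) 0).re with hc
  have hj : ∀ j : ℕ, (j : ℂ) + 1 ≠ 0 := fun j => by exact_mod_cast Nat.succ_ne_zero j
  have hv : ∀ j : ℕ, ‖((j : ℂ) + 1) * (2 * cf (U 1) (j + 1))‖ ≤ 2 * M / (j + 1) := fun j => by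
    rw [norm_mul, ← Nat.cast_succ, Complex.norm_natCast, Nat.cast_succ, norm_mul, Complex.norm_two]
    calc _ ≤ ((j : ℝ) + 1) * (2 * (M / (j + 1) ^ 2)) := by gcongr; exact hM j
      _ = _ := by field_simp
  have hM0 : 0 ≤ M := by simpa using (norm_nonneg _).trans (hM 0)
  have hv' : ∀ j : ℕ, ‖((j : ℂ) + 1) * (2 * cf (U 1) (j + 1))‖ ≤ 2 * M := fun j =>
    (hv j).trans (div_le_self (by positivity) (by simp))
  set T := opT B fun i => -((i : ℝ) + 1) with hT
  have hsol : ∀ (v : Seq) (j : ℕ), res T v j = v j + -((j : ℝ) + 1) • row B j (res T v) :=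
    fun v j => by
      conv_lhs => rw [res_eq (hK.norm_opT_le_half mu_neg) v]
      rw [BoundedContinuousFunction.add_apply, hK.opT_apply mu_neg]
  have hal : ∀ (v : Seq) (j : ℕ), al (res T v) (fun i => row B i (res T v)) 1 j = v j / (j + 1) :=
    fun v j => by
      rw [eq_div_iff (hj j), mul_comm, al_one, hsol, real_smul]
      push_cast
      ring
  set v : Seq := mkSeq _ _ hv' with hvd
  set vN : ℕ → Seq := fun N => mkSeq (fun j => if j < N then v j else 0) (2 * M) fun j => by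
    split_ifs
    · exact hv' j
    · rw [norm_zero]; positivity
  have hlim : Tendsto (fun N => res T (vN N)) atTop (𝓝 (res T v)) := by
    refine ((res T).continuous.tendsto v).comp (tendsto_iff_norm_sub_tendsto_zero.2 ?_)
    refine squeeze_zero (fun _ => norm_nonneg _) (fun N => ?_)
      (tendsto_const_div_atTop_nhds_zero_nat (2 * M) |>.comp (tendsto_add_atTop_nat 1))
    simp only [Function.comp]
    refine (BoundedContinuousFunction.norm_le (by positivity)).2 fun j => ?_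
    simp only [vN, BoundedContinuousFunction.sub_apply, mkSeq_apply]
    split_ifs with hjN
    · rw [sub_self, norm_zero]; positivity
    · rw [zero_sub, norm_neg]
      refine (hv j).trans ?_
      push_cast
      gcongr
      exact not_lt.1 hjN
  have hs : Summable fun j : ℕ => ‖2 * cf (U 1) (j + 1)‖ :=
    Summable.of_nonneg_of_le (f := fun j : ℕ => 2 * (M / ((j : ℝ) + 1) ^ 2))
      (fun _ => norm_nonneg _) (fun j => by
      rw [norm_mul, Complex.norm_two]
      exact mul_le_mul_of_nonneg_left (hM j) zero_le_two) (by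
      have := (summable_nat_add_iff 1).2 (Real.summable_one_div_nat_pow.2 one_lt_two)
      simpa [div_eq_mul_inv, mul_assoc] using (this.mul_left M).mul_left 2)
  have hη := tendsto_sum_nat_add fun j : ℕ => ‖2 * cf (U 1) (j + 1)‖
  have hadm := hG.adm_of_stek C hu
  have key : ∀ (N : ℕ) (r : ℝ), 1 / 2 < r → r ≤ 1 →
      ‖cf (U r) 0 - c‖ ≤ ∑' j, ‖2 * cf (U 1) (↑(j + N) + 1)‖ ∧ ∀ k : ℕ,
      ‖cf (U r) (k + 1) - al (res T (vN N)) (fun i => row B i (res T (vN N))) r k / 2‖ ≤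
        ∑' j, ‖2 * cf (U 1) (↑(j + N) + 1)‖ := by
    intro N r h1 h2
    have hd := h.summable_decay C (y := res T (vN N)) mu_neg N fun j hj => by
      rw [hsol]
      simp only [vN, mkSeq_apply, if_neg (not_lt.2 hj), zero_add, hB]
    obtain ⟨w, w1, w2, w3⟩ := h.exists_adm C hd
    have w4 : Adm _ C w := ⟨fun z hz => (w1 z hz).1.continuousAt, fun z hz _ => w1 z hz, w2⟩
    have w5 := w4.sub (adm_const _ C c) 1 (-1)
    have w6 := hG.max_abs C (hadm.sub w5 1 1) (m := ∑' j, ‖2 * cf (U 1) (↑(j + N) + 1)‖)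
      fun z hz => by
        obtain ⟨θ, rfl⟩ := exists_ex hz
        have e1 := (hasSum_nat_add_iff' N).2 (hinv θ)
        have e2 := (w3 1 θ (by norm_num) (by norm_num)).unique
          (hasSum_sum_of_ne_finset_zero (s := Finset.range N) fun j hj => by
            rw [hal]
            simp only [vN, mkSeq_apply, if_neg (Finset.mem_range.not.1 hj), zero_div, zero_mul,
              zero_re])
        rw [Finset.sum_congr rfl (g := fun j : ℕ => (2 * cf (U 1) (j + 1) * ex (j + 1) θ).re)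
          fun j hj' => by
            rw [hal]
            simp only [vN, hvd, mkSeq_apply, if_pos (Finset.mem_range.1 hj'),
              mul_div_cancel_left₀ _ (hj j)]] at e2
        have e3 := e1.norm_le_of_bounded ((summable_nat_add_iff N).2 hs).hasSum fun j =>
          (abs_re_le_norm _).trans (by rw [norm_mul, norm_ex, mul_one])
        rw [← e2] at e3
        refine le_of_eq_of_le ?_ e3
        rw [Real.norm_eq_abs]
        congr 1
        simp only [hU]
        ring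
    have w7 := cf_series (h.summable_al C hd h1 (by linarith only [h2]))
      (U := fun θ => 1 * w (S * gg bb (r * ex 1 θ)) - -1 * c) (c := c) fun θ =>
        hs_congr (w3 r θ h1 (by linarith only [h2])) (fun _ => rfl) (by ring)
    have w8 := norm_cf_sub_le (hG.cont_collar C hadm.cont h1 h2) (hG.cont_collar C w5.cont h1 h2)
      fun θ => by
        have h3 := norm_polar (r := r) (by linarith only [h1]) θ
        simpa only [one_mul] using w6 _ (hG.mem_collar C (by rwa [h3]) (by rwa [h3]))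
    exact ⟨w7.1 ▸ w8 0, fun k => w7.2 k ▸ w8 (k + 1)⟩
  set y := res T v with hy
  have key0 : ∀ r : ℝ, 1 / 2 < r → r ≤ 1 → cf (U r) 0 = c := fun r h1 h2 =>
    sub_eq_zero.1 (norm_le_zero_iff.1 (ge_of_tendsto' hη fun N => (key N r h1 h2).1))
  have key1 : ∀ r : ℝ, 1 / 2 < r → r ≤ 1 → ∀ k : ℕ,
      cf (U r) (k + 1) = al y (fun i => row B i y) r k / 2 := fun r h1 h2 k => by
    have hc : Continuous fun y : Seq =>
        ‖cf (U r) (k + 1) - al y (fun i => row B i y) r k / 2‖ := by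
      unfold al
      fun_prop
    exact sub_eq_zero.1 (norm_le_zero_iff.1 (le_of_tendsto_of_tendsto' ((hc.tendsto y).comp hlim)
      hη fun N => (key N r h1 h2).2 k))
  have hder : ∀ (n : ℤ) (f : ℝ → ℂ) (f' : ℂ), HasDerivAt f f' 1 →
      (∀ r : ℝ, 1 / 2 < r → r ≤ 1 → cf (U r) n = f r) → f' = σ * cf (U 1) n := by
    intro n f f' hf e
    have h1 := hasDerivAt_cf (fun θ => (hsm θ).of_le (by norm_num)) n
    have h2 : (fun θ => deriv (fun r : ℝ => u (S * gg bb (r * ex 1 θ))) 1) =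
        fun θ => σ * U 1 θ := by
      ext θ
      have h3 : ex 1 θ ∈ sphere (0 : ℂ) 1 := mem_sphere_zero_iff_norm.2 (norm_ex _ _)
      rw [(hG.radial_deriv h3 ((hu.smooth _ (hG.mem_collar C (by rw [norm_ex]; norm_num)
        (norm_ex _ _).le)).differentiableAt (by simp))).deriv, hu.bdry _ h3]
      simp [hU]
    simp only [h2, cf_const_mul] at h1
    refine (uniqueDiffWithinAt_Iic (1 : ℝ)).eq_deriv _
      (hf.hasDerivWithinAt.congr_of_eventuallyEq ?_ (e 1 (by norm_num) le_rfl))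
      h1.hasDerivWithinAt
    filter_upwards [Ioc_mem_nhdsLE (show (1 / 2 : ℝ) < 1 by norm_num)] with r hr
    exact e r hr.1 hr.2
  refine ⟨y, fun k => ?_, c, ?_, fun θ => hs_congr (hinv θ) (fun j => ?_) rfl⟩
  · have h1 := hder (k + 1) _ _ ((hasDerivAt_al y (fun i => row B i y) k one_ne_zero).div_const 2)
      fun r h1 h2 => key1 r h1 h2 k
    have h2 := al_one y (fun i => row B i y) k
    rw [key1 1 (by norm_num) le_rfl] at h1
    simp only [ofReal_one, one_pow, mul_one, inv_one] at h1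
    simp only [real_smul]
    push_cast
    linear_combination 2 * ((k : ℂ) + 1) * h1 + σ * h2
  · have h1 := hder 0 _ _ (hasDerivAt_const 1 (c : ℂ)) key0
    rw [key0 1 (by norm_num) le_rfl] at h1
    exact_mod_cast h1.symm
  · rw [key1 1 (by norm_num) le_rfl, mul_div_cancel₀ _ two_ne_zero]

theorem exists_eig {σ : ℝ} {k : ℕ} (hσ : Win k σ) {y : Seq} (hy : Pen (BB C bb S) σ y)
    (hy0 : y ≠ 0) : ∃ u : ℂ → ℝ, Stek (fun z => S * gg bb z) C σ u ∧
      ∃ w ∈ KK (fun z => S * gg bb z) C, u w ≠ 0 := by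
  have hG := h.conf
  have hK := h.kb C
  have hj : ∀ j : ℕ, (j : ℂ) + 1 ≠ 0 := fun j => by exact_mod_cast Nat.succ_ne_zero j
  have hd := h.summable_decay C (y := y) hσ.mu_muk (k + 1) fun j hj => by
    have h1 := ((hK.pen_iff hσ y).1 hy).1
    have h2 := hK.sol_apply hσ (y k) j
    rwa [← h1, if_neg (by omega), zero_add] at h2
  obtain ⟨u, h1, h2, h3⟩ := h.exists_adm C hd
  refine ⟨u, ⟨fun w hw => (HarmonicAt.analyticAt (h1 w hw)).contDiffAt, h2,
    fun w hw => (h1 w hw.1).2.self_of_nhds, fun z hz => ?_⟩, ?_⟩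
  · have hz' := mem_sphere_zero_iff_norm.1 hz
    have h4 := hG.radial_deriv hz ((h1 _ (hG.mem_collar C (by rw [hz']; norm_num)
      hz'.le)).1.differentiableAt two_ne_zero)
    obtain ⟨θ, rfl⟩ := exists_ex hz
    have h5 := hasDerivAt_tsum_of_isPreconnected
      ((hd.mul_left 2).add (KB.summable_sq_quarter.mul_left (4 * ‖y‖))) isOpen_Ioo
      isPreconnected_Ioo (t := Ioo (1 / 2 : ℝ) (3 / 2))
      (g := fun j r => (al y (fun i => row (BB C bb S) i y) r j * ex (j + 1) θ).re)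
      (fun j r hr => reCLM.hasFDerivAt.comp_hasDerivAt r
        ((hasDerivAt_al y _ j (by linarith only [hr, hr.1])).mul_const (ex (j + 1) θ)))
      (fun j r hr => (abs_re_le_norm _).trans (by
        rw [norm_mul, norm_ex, mul_one]; exact (h.al_bounds C y hr.1 hr.2 j).2))
      (y₀ := 1) (by norm_num) (h3 1 θ (by norm_num) (by norm_num)).summable (y := 1) (by norm_num)
    rw [h4.unique (h5.congr_of_eventuallyEq ?_), ← ((h3 1 θ (by norm_num) (by norm_num)).mul_left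
      σ).tsum_eq]
    · refine tsum_congr fun j => ?_
      rw [reCLM_apply, ← re_ofReal_mul, ← mul_assoc]
      congr 2
      have e1 := hy j
      have e2 := al_one y (fun i => row (BB C bb S) i y) j
      simp only [real_smul] at e1
      push_cast at e1
      simp only [ofReal_one, one_pow, mul_one, inv_one]
      refine mul_left_cancel₀ (hj j) ?_
      linear_combination e1 - σ * e2
    · filter_upwards [Ioo_mem_nhds (show (1 / 2 : ℝ) < 1 by norm_num)
        (show (1 : ℝ) < 3 / 2 by norm_num)] with r hr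
      rw [(h3 r θ hr.1 hr.2).tsum_eq]
      simp
  · by_contra h4
    push Not at h4
    have h5 := (cf_series (h.summable_al C hd (r := 1) (by norm_num) (by norm_num))
      (U := fun _ => 0) (c := 0) fun θ => hs_congr (h3 1 θ (by norm_num) (by norm_num))
        (fun _ => rfl) (by
          have h6 := norm_polar zero_le_one θ
          rw [h4 _ (hG.mem_collar C (by rw [h6]; norm_num) h6.le), sub_zero])).2
    refine hy0 (hK.eq_zero_of mu_neg fun j => ?_)
    have e1 := h5 j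
    have e2 := al_one y (fun i => row (BB C bb S) i y) j
    simp only [cf, ofReal_zero, mul_zero, intervalIntegral.integral_zero, smul_zero] at e1
    rw [real_smul]
    push_cast
    linear_combination -e2 - 2 * ((j : ℂ) + 1) * e1

theorem eq_of_data {r : ℝ} {u u' : ℂ → ℝ} (hu : Adm (fun z => S * gg bb z) C u)
    (hu' : Adm (fun z => S * gg bb z) C u') {y y' : Seq} {c c' : ℝ}
    (h1 : ∀ θ, HasSum (fun j : ℕ => (al y (fun i => row (BB C bb S) i y) 1 j * ex (j + 1) θ).re)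
      (u (S * gg bb ((1 : ℝ) * ex 1 θ)) - c))
    (h2 : ∀ θ, HasSum (fun j : ℕ => (al y' (fun i => row (BB C bb S) i y') 1 j * ex (j + 1) θ).re)
      (u' (S * gg bb ((1 : ℝ) * ex 1 θ)) - c')) (e1 : y = r • y') (e2 : c = r * c') :
    ∀ w ∈ KK (fun z => S * gg bb z) C, u w = r * u' w := by
  intro w hw
  have h3 := h.conf.max_abs C (hu.sub hu' 1 r) (m := 0) (fun z hz => by
    obtain ⟨θ, rfl⟩ := exists_ex hz
    have h4 := (h1 θ).unique (hs_congr ((h2 θ).mul_left r) (fun j => by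
      rw [← re_ofReal_mul, e1]
      simp only [al, map_smul, BoundedContinuousFunction.smul_apply, real_smul]
      ring_nf) rfl)
    rw [abs_nonpos_iff]
    linear_combination h4 + e2) w hw
  rw [abs_nonpos_iff] at h3
  linarith

omit h [DecidableEq P] in
lemma mult_zero {G : ℂ → ℂ} {σ : ℝ} (h0 : ∀ u, Stek G C σ u → ∀ w ∈ KK G C, u w = 0) :
    mult G C σ = 0 := by
  rw [mult, Submodule.span_eq_bot.2, rank_bot]
  rintro v ⟨u, hu, e⟩
  exact funext fun w => (e w).trans (h0 u hu w w.2)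

omit h [DecidableEq P] in
lemma mult_one {G : ℂ → ℂ} {σ : ℝ} {u' : ℂ → ℝ} (h1 : Stek G C σ u') (h2 : ∃ w ∈ KK G C, u' w ≠ 0)
    (h0 : ∀ u, Stek G C σ u → ∃ r : ℝ, ∀ w ∈ KK G C, u w = r * u' w) : mult G C σ = 1 := by
  have e : Submodule.span ℝ {v : KK G C → ℝ | ∃ u : ℂ → ℝ, Stek G C σ u ∧ ∀ w, v w = u w} =
      Submodule.span ℝ {fun w : KK G C => u' w} := by
    refine le_antisymm (Submodule.span_le.2 ?_)
      (Submodule.span_mono (singleton_subset_iff.2 ⟨u', h1, fun _ => rfl⟩))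
    rintro v ⟨u, hu, e⟩
    obtain ⟨r, hr⟩ := h0 u hu
    exact Submodule.mem_span_singleton.2 ⟨r, funext fun w => ((e w).trans (hr w w.2)).symm⟩
  obtain ⟨w, hw, hw'⟩ := h2
  have h3 : (fun w : KK G C => u' w) ≠ 0 := fun h3 => hw' (congrFun h3 ⟨w, hw⟩)
  rw [mult, e, rank_span_set (LinearIndepOn.singleton h3), Cardinal.mk_singleton]

lemma mult_low {σ : ℝ} (hσ : σ < 1 / 2) :
    mult (fun z => S * gg bb z) C σ = if σ = 0 then 1 else 0 := by
  have key : ∀ u, Stek (fun z => S * gg bb z) C σ u → ∃ c : ℝ, σ * c = 0 ∧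
      ∀ w ∈ KK (fun z => S * gg bb z) C, u w = c * 1 := fun u hu => by
    obtain ⟨y, h1, c, h2, h3⟩ := h.complete C hu
    have h4 : ∀ i : ℕ, 1 / 2 ≤ (i : ℝ) + 1 - σ := fun i => by linarith only [hσ, Nat.cast_nonneg (α := ℝ) i]
    have h5 : y = 0 := (h.kb C).eq_zero_of (μ := mu σ)
      (fun i => abs_mu_le ((h4 i).trans (le_abs_self _))) fun i => by
        rw [mu, div_eq_inv_mul, mul_smul, ← h1 i, inv_smul_smul₀ (by linarith only [hσ, h4 i])]
    exact ⟨c, h2, h.eq_of_data C (h.conf.adm_of_stek C hu) (adm_const _ C 1) h3 (y' := 0) (c' := 1)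
      (fun θ => by simp [al]) (by simp [h5]) (mul_one c).symm⟩
  split_ifs with h0
  · refine mult_one C (u' := fun _ => 1) ⟨fun _ _ => contDiffAt_const, (adm_const id C 1).inv,
      fun w _ => (harmonicAt_const (1 : ℝ)).2.self_of_nhds, fun z _ => by simp [h0]⟩
      ⟨_, h.conf.mem_collar C (z := 1) (by norm_num) (by simp), one_ne_zero⟩ fun u hu => ?_
    obtain ⟨c, -, h1⟩ := key u hu
    exact ⟨c, h1⟩
  · refine mult_zero C fun u hu w hw => ?_
    obtain ⟨c, h1, h2⟩ := key u hu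
    rw [h2 w hw, (mul_eq_zero.1 h1).resolve_left h0, zero_mul]

open Classical in
lemma mult_win {σ : ℝ} {k : ℕ} (hσ : Win k σ) (hw : WinOK (eff (BB C bb S) k) k) :
    mult (fun z => S * gg bb z) C σ = if FF 1 (dd k σ) (eff (BB C bb S) k σ) = 0 ∨
      FF (-1) (dd k σ) (eff (BB C bb S) k σ) = 0 then 1 else 0 := by
  obtain ⟨h1, h2⟩ := pen_window (h.kb C) hw hσ
  have h0 : σ ≠ 0 := by linarith only [hσ, hσ.1, Nat.cast_nonneg (α := ℝ) k]
  have key : ∀ u, Stek (fun z => S * gg bb z) C σ u → ∃ y : Seq, Pen (BB C bb S) σ y ∧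
      (y = 0 → ∀ w ∈ KK (fun z => S * gg bb z) C, u w = 0) ∧ ∀ θ,
      HasSum (fun j : ℕ => (al y (fun i => row (BB C bb S) i y) 1 j * ex (j + 1) θ).re)
        (u (S * gg bb ((1 : ℝ) * ex 1 θ)) - 0) := fun u hu => by
    obtain ⟨y, h3, c, h4, h5⟩ := h.complete C hu
    obtain rfl := (mul_eq_zero.1 h4).resolve_left h0
    have h6 := h.conf.adm_of_stek C hu
    exact ⟨y, h3, fun e w hw => by
      simpa using h.eq_of_data C (r := 0) h6 h6 h5 h5 (by simp [e]) (by simp) w hw, h5⟩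
  split_ifs with h3
  · obtain ⟨y, h3, h4⟩ := h1.2 h3
    obtain ⟨u', h5, h6⟩ := h.exists_eig C hσ h4 h3
    refine mult_one C h5 h6 fun u hu => ?_
    obtain ⟨y₁, a1, -, a2⟩ := key u hu
    obtain ⟨y₂, b1, b2, b3⟩ := key u' h5
    obtain ⟨r, hr⟩ := h2 y₂ y₁ (fun e => by
      obtain ⟨w, c1, c2⟩ := h6
      exact c2 (b2 e w c1)) b1 a1
    exact ⟨r, h.eq_of_data C (h.conf.adm_of_stek C hu) (h.conf.adm_of_stek C h5) a2 b3 hr (by simp)⟩
  · refine mult_zero C fun u hu => ?_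
    obtain ⟨y, a1, a2, -⟩ := key u hu
    exact a2 (by_contra fun e => h3 (h1.1 ⟨y, e, a1⟩))

end Par

/-- Two surfaces whose root functions have the same zeros are isospectral. -/
theorem mult_eq {P' : Type} [Fintype P'] [DecidableEq P'] {bb bb' : ℕ → ℂ} {a R S a' R' S' : ℝ}
    (h : Par bb a R S) (h' : Par bb' a' R' S') (C : Cfg P) (C' : Cfg P')
    (hw : ∀ k, WinOK (eff (BB C bb S) k) k) (hw' : ∀ k, WinOK (eff (BB C' bb' S') k) k)
    (hr : ∀ k s, |s| = 1 → ∃ σ, Win k σ ∧ FF s (dd k σ) (eff (BB C bb S) k σ) = 0 ∧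
      FF s (dd k σ) (eff (BB C' bb' S') k σ) = 0) (σ : ℝ) :
    mult (fun z => S * gg bb z) C σ = mult (fun z => S' * gg bb' z) C' σ := by
  rcases lt_or_ge σ (1 / 2) with h1 | h1
  · rw [h.mult_low C h1, h'.mult_low C' h1]
  have hσ : Win ⌊σ - 1 / 2⌋₊ σ :=
    ⟨by linarith only [h1, Nat.floor_le (show 0 ≤ σ - 1 / 2 by linarith)],
      by linarith only [Nat.lt_floor_add_one (σ - 1 / 2)]⟩
  generalize ⌊σ - 1 / 2⌋₊ = k at hσ
  have key : ∀ s, |s| = 1 → (FF s (dd k σ) (eff (BB C bb S) k σ) = 0 ↔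
      FF s (dd k σ) (eff (BB C' bb' S') k σ) = 0) := fun s hs => by
    obtain ⟨σ', a1, a2, a3⟩ := hr k s hs
    exact ⟨fun e => (hw k).unique hs hσ a1 e a2 ▸ a3, fun e => (hw' k).unique hs hσ a1 e a3 ▸ a2⟩
  rw [h.mult_win C hσ (hw k), h'.mult_win C' hσ (hw' k)]
  simp only [key 1 abs_one, key (-1) (by simp)]

end Pool.Agent.Work.MP_a6a438_an
end

-- merged part: Pool.Agent.Work.MP_a6a438_an.Final
section
/-!
Isospectral surfaces with one and with two handles.
-/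

set_option autoImplicit false

open Complex Finset
open scoped ComplexConjugate Real

namespace Pool.Agent.Work.MP_a6a438_an

/-- The size of the quadratic correction. -/
noncomputable def BQ (k : ℕ) : ℝ := if k = 0 then th ^ 20 / 2 else th ^ 21 * WW (2 * k)

lemma BQ_bounds (k : ℕ) :
    th ^ 13 * WW (2 * k + 2) ≤ BQ k ∧ 4 * BQ k ≤ th ^ 11 * WW (2 * k + 2) := by
  unfold BQ
  split_ifs with hk
  · norm_num [hk, WW, vv, RR, th]
  · have h0 : (0 : ℝ) ≤ k := Nat.cast_nonneg k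
    have h1 := vv_anti (show 2 * k + 2 ≤ 2 * k + 2 + 2 by omega)
    have h2 := vv_le_mul (m := 2 * k + 2) (n := 2 * k + 2 + 2) (c := 3) (by push_cast; linarith)
    have h3 := pow_pos RR_pos (2 * k)
    have h4 := mul_le_mul_of_nonneg_left h1 h3.le
    have h5 := mul_le_mul_of_nonneg_left h2 h3.le
    have h6 := mul_pos h3 (vv_pos (2 * k + 2 + 2))
    rw [WW, WW, RR_add]
    unfold th
    constructor <;> linarith only [h4, h5, h6]

lemma diag (x : ℕ × Bool → Iv) (k : ℕ) : |‖gr (bbx x) (k + 1) (k + 1)‖ -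
    ‖(th ^ 11 * WW (2 * k + 2) : ℝ) * ph (x (k + 1, true)) + BQ k‖| ≤
      th ^ 13 / 16 * WW (2 * k + 2) := by
  have hθ := th_pos
  have h1 := gr_diag (bb_all x) (bb_update x) (by positivity) (by positivity) RR_pos.le a_le k
  set Q := ∏ l ∈ range k, ph (x (l + 1, true)) with hQ
  have hQ1 : ‖Q‖ = 1 := norm_prod_ph x k
  obtain ⟨b, c, h2⟩ : ∃ b c : Iv, cross (bbx x) k =
      (BQ k * ((1 + th ^ 3 * b) * (1 + th ^ 3 * c)) : ℝ) * Q := by
    unfold cross BQ
    split_ifs with hk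
    · refine ⟨x (0, true), x (0, true), ?_⟩
      simp only [hQ, hk, bbx, if_true, range_zero, prod_empty]
      push_cast
      ring
    · refine ⟨x (0, true), x (2 * k, false), ?_⟩
      rw [bbx, bbx, if_pos rfl, if_neg (by omega), Nat.mul_div_cancel_left _ two_pos, WW]
      push_cast
      ring
  have h3 : bbx x (2 * k + 2) = (th ^ 11 * WW (2 * k + 2) *
      (1 + th ^ 3 * x (2 * k + 2, false)) : ℝ) * (Q * ph (x (k + 1, true))) := by
    rw [bbx, if_neg (by omega), show (2 * k + 2) / 2 = k + 1 by omega, prod_range_succ, WW]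
  obtain ⟨h4, h5⟩ := BQ_bounds k
  have hW := WW_pos (2 * k + 2)
  have hB : 0 ≤ BQ k := le_trans (by positivity) h4
  have hQ2 : ∀ z, ‖z‖ = ‖Q * z‖ := fun z => by rw [norm_mul, hQ1, one_mul]
  rw [hQ2 (_ + _)]
  refine (abs_norm_sub_norm_le _ _).trans ?_
  have e : gr (bbx x) (k + 1) (k + 1) - Q * ((th ^ 11 * WW (2 * k + 2) : ℝ) *
      ph (x (k + 1, true)) + BQ k) =
      gr (bbx x) (k + 1) (k + 1) - bbx x (2 * k + 2) - cross (bbx x) k +
      (th ^ 14 * WW (2 * k + 2) * x (2 * k + 2, false) : ℝ) * (Q * ph (x (k + 1, true))) +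
      (BQ k * (th ^ 3 * (b * (1 + th ^ 3 * c) + c)) : ℝ) * Q := by
    rw [h2, h3]
    push_cast
    ring
  have h6 : |th ^ 14 * WW (2 * k + 2) * x (2 * k + 2, false)| ≤ th ^ 14 * WW (2 * k + 2) * 1 := by
    rw [abs_mul, abs_of_pos (by positivity)]
    gcongr
    exact abs_le.2 (x _).2
  have h7 : |BQ k * (th ^ 3 * (b * (1 + th ^ 3 * c) + c))| ≤ BQ k * (th ^ 3 * (1 * 2 + 1)) := by
    rw [abs_mul, abs_mul, abs_of_nonneg hB, abs_of_pos (by positivity)]
    gcongr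
    refine (abs_add_le _ _).trans ?_
    rw [abs_mul]
    gcongr
    exacts [abs_le.2 b.2, abs_le.2 ⟨by linarith only [(fac c).1], (fac c).2⟩, abs_le.2 c.2]
  rw [e]
  refine norm_add₃_le.trans ?_
  rw [norm_mul _ (Q * _), norm_mul _ Q, norm_mul Q, hQ1, norm_ph, norm_real, norm_real,
    Real.norm_eq_abs, Real.norm_eq_abs]
  rw [show 2 * k + 4 = 2 * k + 2 + 2 from rfl, RR_add, mul_assoc, mul_assoc, ← WW] at h1
  generalize |th ^ 14 * WW (2 * k + 2) * x (2 * k + 2, false)| = u at h6 ⊢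
  generalize |BQ k * (th ^ 3 * (b * (1 + th ^ 3 * c) + c))| = v at h7 ⊢
  unfold th at h1 h5 h6 h7 ⊢
  linarith only [h1, h5, hW, h6, h7]

/-- The base point. -/
def x0 : ℕ × Bool → Iv := fun _ => ⟨0, by norm_num⟩

lemma q_succ (x : ℕ × Bool → Iv) (k : ℕ) :
    ((x (k + 1, true) : ℝ) = 1 → th ^ 13 / 4 * WW (k + 1) ^ 2 ≤
      ‖gr (bbx x) (k + 1) (k + 1)‖ - ‖gr (bbx x0) (k + 1) (k + 1)‖) ∧
    ((x (k + 1, true) : ℝ) = -1 → ‖gr (bbx x) (k + 1) (k + 1)‖ - ‖gr (bbx x0) (k + 1) (k + 1)‖ ≤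
      -(th ^ 13 / 4 * WW (k + 1) ^ 2)) := by
  have hθ := th_pos
  have h1 := abs_le.1 (diag x k)
  have h2 := abs_le.1 (diag x0 k)
  obtain ⟨h4, h5⟩ := BQ_bounds k
  have hW := WW_pos (2 * k + 2)
  have hB : 0 ≤ BQ k := le_trans (by positivity) h4
  have h6 := mul_le_mul_of_nonneg_left (WW_sq_le (k + 1)) (pow_pos hθ 13).le
  rw [show k + 1 + (k + 1) = 2 * k + 2 by ring] at h6
  have e0 : ph (x0 (k + 1, true)) = I := by
    simp only [ph, x0, sub_zero, mul_one]
    push_cast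
    exact exp_pi_div_two_mul_I
  set A := th ^ 11 * WW (2 * k + 2) with hA
  have h7 : ‖A * I + BQ k‖ ^ 2 = BQ k ^ 2 + A ^ 2 := by
    rw [add_comm, Complex.sq_norm, normSq_add_mul_I]
  have h8 : A ≤ ‖A * I + BQ k‖ := abs_le_of_sq_le_sq' (by linarith only [h7, sq_nonneg (BQ k)]) (norm_nonneg _) |>.2
  have h9 : ‖A * I + BQ k‖ ≤ A + BQ k / 2 := abs_le_of_sq_le_sq' (by linarith only [h7, hB, h5, sq_nonneg (BQ k), mul_nonneg_of_nonpos_of_nonpos (Mathlib.Tactic.Linarith.sub_nonpos_of_le hB) (Mathlib.Tactic.Linarith.sub_nonpos_of_le h5)]) (by linarith only [hB, h5]) |>.2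
  rw [e0] at h2
  refine ⟨fun hx => ?_, fun hx => ?_⟩
  · rw [hx, ph] at h1
    simp only [sub_self, mul_zero, zero_div, ofReal_zero, zero_mul, exp_zero, mul_one] at h1
    rw [← ofReal_add, norm_real, Real.norm_eq_abs, abs_of_nonneg (by linarith only [hB, h5])] at h1
    linarith only [h4, hB, h6, h2, h9, h1, h1.1, h2.2]
  · have e1 : ph (-1) = -1 := by
      rw [ph, show π * (1 - -1) / 2 = π by ring, exp_pi_mul_I]
    rw [hx, e1, mul_neg_one, ← ofReal_neg, ← ofReal_add, norm_real, Real.norm_eq_abs,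
      abs_of_nonpos (by linarith only [hB, h5])] at h1
    linarith only [h4, hB, h6, h1, h2, h8, h1.2, h2.1]

lemma p_succ (x : ℕ × Bool → Iv) {k : ℕ} (hk : k ≠ 0) {σ : ℝ} (hσ : Win k σ) :
    |mu σ 0 * ‖bbx x0 k‖ ^ 2 - mu σ 0 * ‖bbx x k‖ ^ 2| ≤ 18 * th ^ 25 * WW k ^ 2 ∧
    ((x (k, false) : ℝ) = 1 → th ^ 25 * WW k ^ 2 ≤
      mu σ 0 * ‖bbx x0 k‖ ^ 2 - mu σ 0 * ‖bbx x k‖ ^ 2) ∧
    ((x (k, false) : ℝ) = -1 → mu σ 0 * ‖bbx x0 k‖ ^ 2 - mu σ 0 * ‖bbx x k‖ ^ 2 ≤
      -(th ^ 25 * WW k ^ 2)) := by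
  obtain ⟨h1, h2⟩ := mu_zero hk hσ
  have e : mu σ 0 * ‖bbx x0 k‖ ^ 2 - mu σ 0 * ‖bbx x k‖ ^ 2 = th ^ 25 * WW k ^ 2 *
      (-mu σ 0 * (x (k, false) * (1 + (1 + th ^ 3 * x (k, false))))) := by
    rw [norm_bbx x hk, norm_bbx x0 hk]
    simp only [x0]
    ring
  have h3 := mul_pos (pow_pos th_pos 25) (pow_pos (WW_pos k) 2)
  obtain ⟨h4, h5⟩ := fac (x (k, false))
  rw [e]
  generalize 1 + th ^ 3 * (x (k, false) : ℝ) = y at h4 h5
  refine ⟨?_, fun hx => ?_, fun hx => ?_⟩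
  · have h6 : |-mu σ 0 * (x (k, false) * (1 + y))| ≤ 6 * (1 * 3) := by
      rw [abs_mul, abs_mul]
      gcongr
      exacts [abs_le.2 ⟨by linarith only [h2], by linarith⟩, abs_le.2 (x _).2,
        abs_le.2 ⟨by linarith, by linarith⟩]
    rw [abs_mul, abs_of_pos h3]
    linarith only [h3, h6, mul_nonneg_of_nonpos_of_nonpos (le_of_lt (Mathlib.Tactic.Linarith.sub_neg_of_lt h3)) (Mathlib.Tactic.Linarith.sub_nonpos_of_le h6)]
  · rw [hx]
    exact le_mul_of_one_le_right h3.le (by linarith only [h2, h4, mul_nonneg_of_nonpos_of_nonpos (Mathlib.Tactic.Linarith.sub_nonpos_of_le h2) (Mathlib.Tactic.Linarith.sub_nonpos_of_le h4)])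
  · rw [hx, ← mul_neg_one (th ^ 25 * WW k ^ 2)]
    exact mul_le_mul_of_nonneg_left (by linarith only [h2, h4, mul_nonneg_of_nonpos_of_nonpos (Mathlib.Tactic.Linarith.sub_nonpos_of_le h2) (Mathlib.Tactic.Linarith.sub_nonpos_of_le h4)]) h3.le

lemma continuous_bbx : Continuous bbx := continuous_pi fun n => by
  unfold bbx ph
  split_ifs <;> fun_prop

/-- The flux parameter of the handles. -/
noncomputable def tau : ℝ := th ^ 29 * (8192 / RR) ^ 2

lemma tau_pos : 0 < tau := by norm_num [tau, RR, th]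

/-- Configurations of handles with antipodal centres. -/
noncomputable def cfg {n : ℕ} (hn : n ≤ 2) (u : Fin n → ℂ) (h1 : ∀ i, ‖u i‖ = 1)
    (h2 : ∀ i j, i ≠ j → 5 / 4 ≤ ‖u i - u j‖ ∧ 5 / 4 ≤ ‖u i + u j‖) : Cfg (Fin n × Bool) where
  bar p := (p.1, !p.2)
  bar_bar p := by simp
  c p := if p.2 then u p.1 else -u p.1
  norm_c p := by split_ifs <;> simp [h1]
  sep := by
    rintro ⟨i, a⟩ ⟨j, b⟩ h
    by_cases hij : i = j
    · have e : ‖u j + u j‖ = 2 := by rw [← two_mul, norm_mul, h1]; simp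
      cases a <;> cases b <;> simp_all [← neg_add', -neg_add_rev] <;> norm_num
    · obtain ⟨e1, e2⟩ := h2 i j hij
      cases a <;> cases b <;> simp [← neg_add', -neg_add_rev, e1, e2]
      rwa [neg_add_eq_sub, norm_sub_rev]
  card := by simp; omega
  ε := Real.exp (-1 / (2 * tau))
  τ := tau
  ε_pos := Real.exp_pos _
  τ_pos := tau_pos
  τ_le := by norm_num [tau, RR, th]
  log_ε := by
    have := tau_pos
    rw [Real.log_exp]
    field_simp
  ε_sq := by
    have h0 := tau_pos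
    have h3 := Real.pow_div_factorial_le_exp (1 / tau) (by positivity) 2
    rw [← Real.exp_nat_mul, show ((2 : ℕ) : ℝ) * (-1 / (2 * tau)) = -(1 / tau) by
      push_cast; field_simp, Real.exp_neg]
    refine inv_le_of_inv_le₀ (by positivity) (le_of_eq_of_le ?_ h3)
    norm_num
    field_simp

theorem main : ∃ (M₁ : HandleSurface 1) (M₂ : HandleSurface 2),
    ∀ σ : ℝ, M₁.multiplicity σ = M₂.multiplicity σ := by
  have hR := RR_pos
  have hθ := th_pos
  set C₁ := cfg one_le_two ![1] (by simp) fun i j h => absurd (Subsingleton.elim i j) h with hC₁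
  have hn : ∀ z : ℂ, normSq z = 2 → 5 / 4 ≤ ‖z‖ := fun z hz =>
    (abs_le_of_sq_le_sq' (by rw [Complex.sq_norm, hz]; norm_num) (norm_nonneg _)).2
  set C₂ := cfg le_rfl ![1, I] (by simp) fun i j h => by
    fin_cases i <;> fin_cases j <;> simp at h ⊢ <;>
      exact ⟨hn _ (by norm_num [normSq_apply]), hn _ (by norm_num [normSq_apply])⟩ with hC₂
  set S : (ℕ × Bool → Iv) → ℝ := fun x => 8192 / RR * (3 / 2 - x (0, false) / 2) with hSd
  have hS : ∀ x, 8192 / RR ≤ S x := fun x =>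
    le_mul_of_one_le_right (by positivity) (by linarith only [(x (0, false)).2.2])
  have e1 : ∀ z : ℂ, conj (∑ r, (C₁.τ * (z * (C₁.c r - C₁.c (C₁.bar r))).re : ℝ) * C₁.c r) =
      C₁.τ * ((2 : ℝ) * z + (2 : ℝ) * conj z) := fun z => by
    apply Complex.ext <;> simp [hC₁, cfg, Fintype.sum_prod_type]
    ring
  have e2 : ∀ z : ℂ, conj (∑ r, (C₂.τ * (z * (C₂.c r - C₂.c (C₂.bar r))).re : ℝ) * C₂.c r) =
      C₂.τ * ((4 : ℝ) * z + (0 : ℝ) * conj z) := fun z => by
    apply Complex.ext <;> simp [hC₂, cfg, Fintype.sum_prod_type] <;> ring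
  have τ1 : C₁.τ = th ^ 29 * (8192 / RR) ^ 2 := rfl
  have τ2 : C₂.τ = th ^ 29 * (8192 / RR) ^ 2 := rfl
  have a1 := apx_zero C₁ x0 le_rfl τ1 (by norm_num) e1
  have a2 := fun x => apx_zero C₂ x (hS x) τ2 (by norm_num) e2
  have b1 := fun k => apx_succ C₁ x0 le_rfl τ1 (Nat.add_one_ne_zero k)
  have b2 := fun x k => apx_succ C₂ x (hS x) τ2 (Nat.add_one_ne_zero k)
  have hc : ∀ k σ, Win k σ → Continuous fun x => eff (BB C₂ (bbx x) (S x)) k σ := fun k σ hσ =>
    continuous_eff (B := fun x => BB C₂ (bbx x) (S x)) (fun x => kb_bbx C₂ x (hS x) τ2)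
      (continuous_BB C₂ continuous_bbx (by fun_prop) fun x => (par_bbx x (hS x)).S_pos.ne') hσ
  have t1 : C₁.τ / (8192 / RR) ^ 2 = th ^ 29 := mul_div_cancel_right₀ _ (by positivity)
  have t2 : ∀ x, C₂.τ / S x ^ 2 = th ^ 29 / (3 / 2 - x (0, false) / 2) ^ 2 := fun x => by
    rw [hSd, mul_pow, ← div_div]
    exact congrArg (· / _) t1
  have w1 : ∀ k, WinOK (eff (BB C₁ (bbx x0) (8192 / RR)) k) k := fun k =>
    Nat.casesOn k a1.1 fun k => (b1 k).1
  obtain ⟨x, hx⟩ := matching (M₂ := fun x k => eff (BB C₂ (bbx x) (S x)) k) w1 hc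
    (p₁ := fun k σ => Nat.casesOn k (-(C₁.τ / (8192 / RR) ^ 2 * 2))
      fun k => mu σ 0 * ‖bbx x0 (k + 1)‖ ^ 2)
    (q₁ := fun k => Nat.casesOn k
      (th ^ 10 * (1 + th ^ 3 * x0 (0, true)) - C₁.τ / (8192 / RR) ^ 2 * 2)
      fun k => ‖gr (bbx x0) (k + 1) (k + 1)‖)
    (e := fun k => Nat.casesOn k (4000 * th ^ 30) fun k => 6000 * th ^ 26 * WW (k + 1) ^ 2)
    (D := fun k => Nat.casesOn k (2 * th ^ 29) fun k => 18 * th ^ 25 * WW (k + 1) ^ 2)
    (p₂ := fun x k σ => Nat.casesOn k (-(C₂.τ / S x ^ 2 * 4))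
      fun k => mu σ 0 * ‖bbx x (k + 1)‖ ^ 2)
    (q₂ := fun x k => Nat.casesOn k (th ^ 10 * (1 + th ^ 3 * x (0, true)) - C₂.τ / S x ^ 2 * 0)
      fun k => ‖gr (bbx x) (k + 1) (k + 1)‖)
    (by
      rintro (_ | k) <;> simp only [Nat.rec_zero]
      exacts [a1.2, (b1 k).2])
    (by
      rintro x (_ | k) <;> simp only [Nat.rec_zero]
      exacts [(a2 x).2, (b2 x k).2])
    (fun x k σ hσ => by
      rcases k with _ | k
      · have h1 := tau_le C₂ (hS x) τ2
        have h2 : 0 < C₂.τ / S x ^ 2 := div_pos C₂.τ_pos (pow_pos (par_bbx x (hS x)).S_pos 2)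
        refine ⟨abs_le.2 ⟨?_, ?_⟩, fun h => ?_, fun h => ?_⟩
        · simp only [t1, Nat.rec_zero]; linarith only [h2]
        · simp only [t1, Nat.rec_zero]; linarith only [h1]
        · simp only [t1, t2, h]; norm_num [th]
        · simp only [t1, t2, h]; norm_num [th]
      · obtain ⟨h1, h2, h3⟩ := p_succ x (Nat.succ_ne_zero k) hσ
        have h4 := sq_nonneg (WW (k + 1))
        refine ⟨h1, fun h => le_trans ?_ (h2 h), fun h => (h3 h).trans ?_⟩ <;> simp only [th] <;>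
          linarith only [h4])
    (fun x k => by
      rcases k with _ | k
      · refine ⟨fun h => ?_, fun h => ?_⟩ <;> simp only [t1, h, x0] <;> norm_num [th]
      · obtain ⟨h1, h2⟩ := q_succ x k
        have h4 := sq_nonneg (WW (k + 1))
        refine ⟨fun h => le_trans ?_ (h1 h), fun h => (h2 h).trans ?_⟩ <;> simp only [th] <;>
          linarith only [h4])
  obtain ⟨M₁, h1⟩ := exists_surface (par_bbx x0 le_rfl).conf C₁ fun _ => rfl
  obtain ⟨M₂, h2⟩ := exists_surface (par_bbx x (hS x)).conf C₂ fun _ => rfl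
  refine ⟨M₁, M₂, fun σ => ?_⟩
  rw [h1, h2]
  exact mult_eq (par_bbx x0 le_rfl) (par_bbx x (hS x)) C₁ C₂ w1
    (fun k => Nat.casesOn k (a2 x).1 fun k => (b2 x k).1) hx σ

end Pool.Agent.Work.MP_a6a438_an
end
end
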